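import Mathlib
import Pool.Agent.W446.AS.Clif
import Pool.Agent.Q7.SZ.Dih

/-!
# Irreducible characters induced from the stabilizer of a weight
-/

set_option autoImplicit false
set_option linter.unusedSectionVars false

namespace Pool.Agent.Q7.DC

open Pool.Agent.H302R2 Pool.Agent.H541R3.ART Pool.Agent.W446.AS

variable {G : Type} [Group G] [Finite G]

/-- the pairing is symmetric -/
lemma pr_comm (a b : G → ℂ) : pr a b = pr b a := by
  classical
  have : Fintype G := Fintype.ofFinite G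
  rw [pr_eq, pr_eq]
  congr 1
  rw [← Equiv.sum_comp (Equiv.inv G)]
  refine Finset.sum_congr rfl fun g _ => ?_
  rw [Equiv.inv_apply, inv_inv, mul_comm]

/-- Let `P` be a projection commuting with `H` and with `P ρ(g) P = 0` outside `H`. Then the image
of `P` is an irreducible representation of `H`; comparison of the pairings. -/
lemma imprim2 {V : Type} [AddCommGroup V] [Module ℂ V] [FiniteDimensional ℂ V]
    {ρ : Representation ℂ G V} (hρ : Irred ρ) (H : Subgroup G) (P : V →ₗ[ℂ] V)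
    (hP2 : ∀ v, P (P v) = P v) (hP0 : P ≠ 0) (hPH : ∀ h ∈ H, ∀ v, P (ρ h v) = ρ h (P v))
    (hPG : ∀ g, g ∉ H → ∀ v, P (ρ g (P v)) = 0) :
    ∃ ψ ∈ Irr H, (∀ h : H, ψ h = LinearMap.trace ℂ V (ρ h ∘ₗ P)) ∧
      ∃ c : ℂ, c ≠ 0 ∧ ∀ θ : G → ℂ, (∀ g x : G, θ (x * g * x⁻¹) = θ g) →
        pr θ ρ.character = c * pr (fun h : H => θ h) ψ := by
  classical
  have : Fintype G := Fintype.ofFinite G
  have : Fintype H := Fintype.ofFinite H
  have hfix : ∀ v ∈ LinearMap.range P, P v = v := by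
    rintro v ⟨w, rfl⟩
    exact hP2 w
  let σ : Representation ℂ H (LinearMap.range P) :=
    { toFun := fun h => (ρ h).restrict (by
        rintro v ⟨w, rfl⟩
        exact ⟨ρ h w, hPH h h.2 w⟩)
      map_one' := by
        ext v
        simp
      map_mul' := by
        intro a b
        ext v
        simp }
  have hσ : ∀ (h : H) (v : LinearMap.range P), ((σ h v : LinearMap.range P) : V) = ρ h v :=
    fun h v => rfl
  have hσI : Irred σ := by
    refine ⟨?_, ?_⟩
    · by_contra hcon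
      rw [not_nontrivial_iff_subsingleton] at hcon
      apply hP0
      ext v
      have h1 : (⟨P v, ⟨v, rfl⟩⟩ : LinearMap.range P) = 0 := Subsingleton.elim _ _
      have h2 := congrArg Subtype.val h1
      simpa using h2
    · intro U hU
      by_cases hU0 : U = ⊥
      · left; exact hU0
      right
      let U' : Submodule ℂ V :=
        { carrier := {v | ∀ g : G, ∃ u ∈ U, P (ρ g v) = u}
          add_mem' := by
            intro a b ha hb g
            obtain ⟨u, hu, h1⟩ := ha g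
            obtain ⟨w, hw, h2⟩ := hb g
            exact ⟨u + w, U.add_mem hu hw, by rw [map_add, map_add, h1, h2]; rfl⟩
          zero_mem' := by
            intro g
            exact ⟨0, U.zero_mem, by rw [map_zero, map_zero]; rfl⟩
          smul_mem' := by
            intro c a ha g
            obtain ⟨u, hu, h1⟩ := ha g
            exact ⟨c • u, U.smul_mem c hu, by rw [map_smul, map_smul, h1]; rfl⟩ }
      have hU' : ∀ v : V, v ∈ U' ↔ ∀ g : G, ∃ u ∈ U, P (ρ g v) = u := fun v => Iff.rfl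
      rcases hρ.2 U' (by
        intro x v hv g
        obtain ⟨u, hu, h1⟩ := hv (g * x)
        refine ⟨u, hu, ?_⟩
        rw [map_mul, Module.End.mul_apply] at h1
        exact h1) with h | h
      · exfalso
        apply hU0
        rw [eq_bot_iff]
        intro u hu
        have h1 : (u : V) ∈ U' := by
          intro g
          by_cases hg : g ∈ H
          · refine ⟨σ ⟨g, hg⟩ u, hU _ _ hu, ?_⟩
            rw [hPH g hg, hfix _ u.2, hσ]
          · refine ⟨0, U.zero_mem, ?_⟩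
            have := hPG g hg u
            rw [hfix _ u.2] at this
            rw [this]
            rfl
        rw [h, Submodule.mem_bot] at h1
        rw [Submodule.mem_bot]
        exact Subtype.ext h1
      · rw [eq_top_iff]
        intro v _
        have h1 : (v : V) ∈ U' := by rw [h]; exact Submodule.mem_top
        obtain ⟨u, hu, h2⟩ := h1 1
        rw [map_one, Module.End.one_apply, hfix _ v.2] at h2
        have h3 : v = u := Subtype.ext h2
        rw [h3]; exact hu
  have hn1 := hρ.1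
  have hn2 := hσI.1
  refine ⟨σ.character, irr_of_irred hσI, ?_,
    (Nat.card H * Module.finrank ℂ V : ℂ) / (Nat.card G * Module.finrank ℂ (LinearMap.range P)),
    ?_, fun θ hθ => ?_⟩
  · intro h
    have h1 : ∀ x : V, (ρ h ∘ₗ P) x ∈ LinearMap.range P := by
      intro x
      exact ⟨ρ h x, hPH h h.2 x⟩
    have h2 := LinearMap.trace_restrict_eq_of_forall_mem (LinearMap.range P) (ρ h ∘ₗ P) h1
    rw [← h2]
    change LinearMap.trace ℂ _ (σ h) = _
    congr 1
    ext v
    change (ρ h v : V) = ρ h (P v)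
    rw [hfix _ v.2]
  · have e1 : (Nat.card H : ℂ) ≠ 0 := card_ne
    have e2 : (Nat.card G : ℂ) ≠ 0 := card_ne
    have e3 : (Module.finrank ℂ V : ℂ) ≠ 0 := by exact_mod_cast Module.finrank_pos.ne'
    have e4 : (Module.finrank ℂ (LinearMap.range P) : ℂ) ≠ 0 := by
      exact_mod_cast Module.finrank_pos.ne'
    exact div_ne_zero (mul_ne_zero e1 e3) (mul_ne_zero e2 e4)
  obtain ⟨c, hc, hc1⟩ := hρ.class_op hθ
  obtain ⟨c', hc', hc1'⟩ := hσI.class_op (θ := fun h : H => θ h) (fun g x => by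
    simpa using hθ g x)
  obtain ⟨w, hw⟩ := exists_ne (0 : LinearMap.range P)
  have hcc : c = c' := by
    have h1 := hc (w : V)
    have h2 := congrArg P h1
    rw [map_sum, map_smul, hfix _ w.2] at h2
    have h3 : ∑ g : G, P (θ g • ρ g⁻¹ (w : V)) = ∑ h : H, θ h • ρ (h : G)⁻¹ (w : V) := by
      have h4 : ∀ g : G, P (θ g • ρ g⁻¹ (w : V)) = if g ∈ H then θ g • ρ g⁻¹ (w : V) else 0 := by
        intro g
        rw [map_smul]
        by_cases hg : g ∈ H
        · rw [if_pos hg, hPH _ (H.inv_mem hg), hfix _ w.2]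
        · rw [if_neg hg]
          have := hPG g⁻¹ (fun h => hg (by simpa using H.inv_mem h)) w
          rw [hfix _ w.2] at this
          rw [this, smul_zero]
      rw [Finset.sum_congr rfl (fun g _ => h4 g), ← Finset.sum_filter]
      exact Finset.sum_subtype (Finset.univ.filter fun g => g ∈ H) (by simp)
        (fun g => θ g • ρ g⁻¹ (w : V))
    have h5 : ((∑ h : H, θ h • σ h⁻¹ w : LinearMap.range P) : V) = c' • (w : V) := by
      rw [hc' w]
      rfl
    rw [Submodule.coe_sum] at h5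
    have h6 : ∀ h : H, ((θ h • σ h⁻¹ w : LinearMap.range P) : V) = θ h • ρ (h : G)⁻¹ (w : V) := by
      intro h
      rfl
    rw [Finset.sum_congr rfl (fun h _ => h6 h), ← h3, h2] at h5
    have h7 : (c - c') • (w : V) = 0 := by rw [sub_smul, h5, sub_self]
    rcases smul_eq_zero.mp h7 with h8 | h8
    · exact sub_eq_zero.mp h8
    · exact absurd (Subtype.ext h8) hw
  rw [pr_eq, pr_eq, hc1]
  have h9 : ∑ h : H, θ h * σ.character h⁻¹ = c' * Module.finrank ℂ (LinearMap.range P) := hc1'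
  rw [h9, hcc]
  have h10 : (Nat.card G : ℂ) ≠ 0 := card_ne
  have h11 : (Nat.card H : ℂ) ≠ 0 := card_ne
  have e4 : (Module.finrank ℂ (LinearMap.range P) : ℂ) ≠ 0 := by
    exact_mod_cast Module.finrank_pos.ne'
  field_simp

/-- commuting operators have a common eigenvector -/
lemma exists_common2 {B : Type} [Group B] : ∀ (n : ℕ) {V : Type}
    [AddCommGroup V] [Module ℂ V] [FiniteDimensional ℂ V] (σ : Representation ℂ B V),
    (∀ a b : B, σ a * σ b = σ b * σ a) →
    Module.finrank ℂ V = n → Nontrivial V → ∃ v : V, v ≠ 0 ∧ ∀ b, ∃ c : ℂ, σ b v = c • v := by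
  intro n
  induction n using Nat.strong_induction_on with
  | _ n ih =>
    intro V _ _ _ σ hB hn hV
    by_cases hs : ∀ b, ∃ c : ℂ, ∀ v, σ b v = c • v
    · obtain ⟨v, hv⟩ := exists_ne (0 : V)
      exact ⟨v, hv, fun b => (hs b).imp fun c hc => hc v⟩
    push Not at hs
    obtain ⟨b, hb⟩ := hs
    obtain ⟨c, hc⟩ := Module.End.exists_eigenvalue (K := ℂ) (σ b)
    let W : Submodule ℂ V := Module.End.eigenspace (σ b) c
    have hW : ∀ w, w ∈ W ↔ σ b w = c • w := fun w => Module.End.mem_eigenspace_iff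
    have hinv : ∀ (x : B) (w : V), w ∈ W → σ x w ∈ W := by
      intro x w hw
      rw [hW] at hw ⊢
      rw [← Module.End.mul_apply, hB, Module.End.mul_apply, hw, map_smul]
    have hWt : W ≠ ⊤ := by
      intro h
      obtain ⟨v, hv⟩ := hb c
      apply hv
      rw [← hW, h]
      exact Submodule.mem_top
    have hW0 : W ≠ ⊥ := hc
    have hlt : Module.finrank ℂ W < n := by
      rw [← hn]
      exact Submodule.finrank_lt hWt
    let W' : Subrepresentation σ := ⟨W, fun g v hv => hinv g v hv⟩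
    obtain ⟨v, hv, h1⟩ := ih _ hlt W'.toRepresentation (by
      intro x y
      ext v
      exact congrArg (fun f : V →ₗ[ℂ] V => f (v : V)) (hB x y)) rfl
      ((Submodule.nontrivial_iff_ne_bot).mpr hW0)
    refine ⟨(v : V), fun h => hv (Subtype.ext h), fun x => ?_⟩
    obtain ⟨d, hd⟩ := h1 x
    exact ⟨d, congrArg Subtype.val hd⟩

lemma exists_weight2 {B : Type} [Group B] {V : Type}
    [AddCommGroup V] [Module ℂ V] [FiniteDimensional ℂ V] (σ : Representation ℂ B V)
    (hB : ∀ a b : B, σ a * σ b = σ b * σ a) (hV : Nontrivial V) :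
    ∃ (μ : B →* ℂˣ) (v : V), v ≠ 0 ∧ ∀ b, σ b v = ((μ b : ℂˣ) : ℂ) • v := by
  obtain ⟨v₀, hv₀, h1⟩ := exists_common2 _ σ hB rfl hV
  choose c hc using h1
  let f : B →* ℂ :=
    { toFun := c
      map_one' := by
        have h2 := hc 1
        rw [map_one, Module.End.one_apply] at h2
        have h3 : (1 - c 1) • v₀ = 0 := by rw [sub_smul, one_smul, ← h2, sub_self]
        rcases smul_eq_zero.mp h3 with h4 | h4
        · exact (sub_eq_zero.mp h4).symm
        · exact absurd h4 hv₀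
      map_mul' := by
        intro a b
        have h2 := hc (a * b)
        rw [map_mul, Module.End.mul_apply, hc b, map_smul, hc a, smul_smul] at h2
        have h3 : (c b * c a - c (a * b)) • v₀ = 0 := by rw [sub_smul, h2, sub_self]
        rcases smul_eq_zero.mp h3 with h4 | h4
        · rw [mul_comm (c a)]; exact (sub_eq_zero.mp h4).symm
        · exact absurd h4 hv₀ }
  exact ⟨f.toHomUnits, v₀, hv₀, fun b => hc b⟩

/-- Clifford reduction: an irreducible representation which is commutative, not scalar, on a normal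
subgroup is induced from a proper subgroup containing the centre. -/
theorem cliff' {V : Type} [AddCommGroup V] [Module ℂ V] [FiniteDimensional ℂ V]
    {ρ : Representation ℂ G V} (hρ : Irred ρ) (A : Subgroup G)
    [A.Normal] (hA : ∀ a b : A, ρ a * ρ b = ρ b * ρ a)
    (hc : ¬ ∀ a : A, ∃ c : ℂ, ∀ v, ρ a v = c • v) :
    ∃ H : Subgroup G, H ≠ ⊤ ∧ Subgroup.center G ≤ H ∧ A ≤ H ∧
      ∃ ψ ∈ Irr H, ∀ θ : G → ℂ, (∀ g x : G, θ (x * g * x⁻¹) = θ g) →
        pr ρ.character θ = pr ψ (fun h : H => θ h) := by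
  classical
  have : Fintype G := Fintype.ofFinite G
  have : Fintype A := Fintype.ofFinite A
  have hcA : (Nat.card A : ℂ) ≠ 0 := card_ne
  have hn := hρ.1
  -- a weight
  obtain ⟨μ, v₀, hv₀, hμ⟩ := exists_weight2 (ρ.comp A.subtype) (fun a b => hA a b) hρ.1
  have hμ' : ∀ a : A, ρ a v₀ = ((μ a : ℂˣ) : ℂ) • v₀ := hμ
  let H : Subgroup G :=
    { carrier := {g | ∀ a : A, μ (MulAut.conjNormal g a) = μ a}
      mul_mem' := by
        intro x y hx hy a
        rw [map_mul, MulAut.mul_apply, hx, hy]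
      one_mem' := by
        intro a
        rw [map_one, MulAut.one_apply]
      inv_mem' := by
        intro x hx a
        have h1 := hx (MulAut.conjNormal x⁻¹ a)
        rw [← MulAut.mul_apply, ← map_mul, mul_inv_cancel, map_one, MulAut.one_apply] at h1
        exact h1.symm }
  have hH : ∀ g, g ∈ H ↔ ∀ a : A, μ (MulAut.conjNormal g a) = μ a := fun g => Iff.rfl
  let P : V →ₗ[ℂ] V := (Nat.card A : ℂ)⁻¹ • ∑ a : A, (((μ a)⁻¹ : ℂˣ) : ℂ) • ρ a
  have hP : ∀ v, P v = (Nat.card A : ℂ)⁻¹ • ∑ a : A, (((μ a)⁻¹ : ℂˣ) : ℂ) • ρ a v := by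
    intro v
    simp [P, LinearMap.sum_apply]
  have hPw : ∀ v, (∀ a : A, ρ a v = ((μ a : ℂˣ) : ℂ) • v) → P v = v := by
    intro v hv
    rw [hP]
    have h1 : ∀ a : A, (((μ a)⁻¹ : ℂˣ) : ℂ) • ρ a v = v := by
      intro a
      rw [hv, smul_smul, ← Units.val_mul, inv_mul_cancel, Units.val_one, one_smul]
    rw [Finset.sum_congr rfl (fun a _ => h1 a), Finset.sum_const, Finset.card_univ,
      ← Nat.card_eq_fintype_card, ← Nat.cast_smul_eq_nsmul ℂ, smul_smul, inv_mul_cancel₀ hcA,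
      one_smul]
  have hwP : ∀ (a : A) (v : V), ρ a (P v) = ((μ a : ℂˣ) : ℂ) • P v := by
    intro a v
    rw [hP, map_smul, map_sum, smul_comm ((μ a : ℂˣ) : ℂ) ((Nat.card A : ℂ)⁻¹)]
    congr 1
    rw [Finset.smul_sum, ← Equiv.sum_comp (Equiv.mulLeft a) (fun b : A => ((μ a : ℂˣ) : ℂ) •
      (((μ b)⁻¹ : ℂˣ) : ℂ) • ρ b v)]
    refine Finset.sum_congr rfl fun b _ => ?_
    rw [map_smul, Equiv.coe_mulLeft, map_mul, mul_inv_rev, smul_smul, ← Units.val_mul,
      mul_comm (μ b)⁻¹, ← mul_assoc, mul_inv_cancel, one_mul, Subgroup.coe_mul, map_mul,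
      Module.End.mul_apply]
  have hPc : ∀ (g : G), g ∈ H → ∀ v, P (ρ g v) = ρ g (P v) := by
    intro g hg v
    rw [hP, hP, map_smul, map_sum]
    congr 1
    rw [← Equiv.sum_comp (MulAut.conjNormal g).toEquiv (fun b : A =>
      (((μ b)⁻¹ : ℂˣ) : ℂ) • ρ b (ρ g v))]
    refine Finset.sum_congr rfl fun b _ => ?_
    change (((μ (MulAut.conjNormal g b))⁻¹ : ℂˣ) : ℂ) • ρ (MulAut.conjNormal g b : A) (ρ g v) = _
    rw [map_smul, (hH g).mp hg, ← Module.End.mul_apply,
      ← Module.End.mul_apply, ← map_mul, ← map_mul, MulAut.conjNormal_apply,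
      inv_mul_cancel_right]
  have hAH : ∀ a : A, (a : G) ∈ H := by
    intro a
    rw [hH]
    intro b
    have h3 : ρ ((MulAut.conjNormal (a : G) b : A) : G) = ρ b := by
      rw [MulAut.conjNormal_apply, map_mul, map_mul, hA a b, mul_assoc, ← map_mul ρ (a : G),
        mul_inv_cancel, map_one, mul_one]
    have h1 := hμ' (MulAut.conjNormal (a : G) b)
    rw [h3, hμ' b] at h1
    have h2 : (((μ b : ℂˣ) : ℂ) - ((μ (MulAut.conjNormal (a : G) b) : ℂˣ) : ℂ)) • v₀ = 0 := by
      rw [sub_smul, h1, sub_self]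
    rcases smul_eq_zero.mp h2 with h4 | h4
    · exact Units.ext (sub_eq_zero.mp h4).symm
    · exact absurd h4 hv₀
  have hPG : ∀ g, g ∉ H → ∀ v, P (ρ g (P v)) = 0 := by
    intro g hg v
    have h0 : ∃ a : A, μ (MulAut.conjNormal g⁻¹ a) ≠ μ a := by
      by_contra hcon
      push Not at hcon
      apply hg
      have h1 : g⁻¹ ∈ H := hcon
      simpa using H.inv_mem h1
    obtain ⟨a, ha⟩ := h0
    have h1 : ρ a (ρ g (P v)) = ((μ (MulAut.conjNormal g⁻¹ a) : ℂˣ) : ℂ) • ρ g (P v) := by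
      have h2 : (a : G) * g = g * (MulAut.conjNormal g⁻¹ a : A) := by
        rw [MulAut.conjNormal_apply]
        group
      rw [← Module.End.mul_apply, ← map_mul, h2, map_mul, Module.End.mul_apply, hwP, map_smul]
    have h2 := hPc a (hAH a) (ρ g (P v))
    rw [h1, map_smul, hwP] at h2
    have h3 : (((μ (MulAut.conjNormal g⁻¹ a) : ℂˣ) : ℂ) - ((μ a : ℂˣ) : ℂ)) • P (ρ g (P v)) = 0 := by
      rw [sub_smul, h2, sub_self]
    rcases smul_eq_zero.mp h3 with h4 | h4
    · exact absurd (Units.ext (sub_eq_zero.mp h4)) ha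
    · exact h4
  have hP0 : P v₀ = v₀ := hPw v₀ hμ'
  have hHt : H ≠ ⊤ := by
    intro htop
    apply hc
    have hall : ∀ g : G, g ∈ H := fun g => by rw [htop]; exact Subgroup.mem_top g
    obtain ⟨c, hcP⟩ := hρ.scalar P (fun g v => hPc g (hall g) v)
    have hc1 : c = 1 := by
      have h1 := hcP v₀
      rw [hP0] at h1
      have h2 : (c - 1) • v₀ = 0 := by rw [sub_smul, one_smul, ← h1, sub_self]
      rcases smul_eq_zero.mp h2 with h3 | h3
      · exact sub_eq_zero.mp h3
      · exact absurd h3 hv₀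
    intro a
    refine ⟨((μ a : ℂˣ) : ℂ), fun v => ?_⟩
    have h1 := hwP a v
    rw [hcP, hc1, one_smul] at h1
    exact h1
  have hHc : Subgroup.center G ≤ H := by
    intro z hz
    rw [hH]
    intro a
    congr 1
    apply Subtype.ext
    rw [MulAut.conjNormal_apply]
    have := Subgroup.mem_center_iff.mp hz a
    rw [← this, mul_inv_cancel_right]
  obtain ⟨ψ, hψ, hψt, c, hc0, hcθ⟩ := imprim2 hρ H P (fun v => hPw _ fun a => hwP a v) (by
    intro h
    rw [h] at hP0
    exact hv₀ hP0.symm) (fun h hh v => hPc h hh v) hPG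
  refine ⟨H, hHt, hHc, fun a ha => hAH ⟨a, ha⟩, ψ, hψ, ?_⟩
  -- the constant is one
  have hχ : ρ.character ∈ Irr G := irr_of_irred hρ
  have hPA : ∀ a : A, ρ a ∘ₗ P = ((μ a : ℂˣ) : ℂ) • P := by
    intro a
    ext v
    exact hwP a v
  have hAP : ∀ a : A, P ∘ₗ ρ a = ((μ a : ℂˣ) : ℂ) • P := by
    intro a
    ext v
    change P (ρ a v) = ((μ a : ℂˣ) : ℂ) • P v
    rw [hPc a (hAH a), hwP]
  have hψ1 : ∀ h : H, ψ h = (Nat.card A : ℂ)⁻¹ * ∑ a : A, (((μ a)⁻¹ : ℂˣ) : ℂ) *
      ρ.character ((h : G) * a) := by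
    intro h
    rw [hψt]
    have h1 : ρ h ∘ₗ P = (Nat.card A : ℂ)⁻¹ • ∑ a : A, (((μ a)⁻¹ : ℂˣ) : ℂ) • ρ ((h : G) * a) := by
      ext v
      simp only [LinearMap.coe_comp, Function.comp_apply, LinearMap.smul_apply,
        LinearMap.sum_apply]
      rw [hP, map_smul, map_sum]
      congr 1
      refine Finset.sum_congr rfl fun a _ => ?_
      rw [map_smul, map_mul, Module.End.mul_apply]
    rw [h1, map_smul, map_sum, smul_eq_mul]
    congr 1
    refine Finset.sum_congr rfl fun a _ => ?_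
    rw [map_smul, smul_eq_mul]
    rfl
  have : Fintype H := Fintype.ofFinite H
  have hψ2 : ∀ (h : H) (a : A), ψ (⟨(a : G), hAH a⟩⁻¹ * h) = (((μ a)⁻¹ : ℂˣ) : ℂ) * ψ h := by
    intro h a
    rw [hψt, hψt]
    have h1 : ((⟨(a : G), hAH a⟩⁻¹ * h : H) : G) = ((a⁻¹ : A) : G) * h := rfl
    rw [h1, map_mul]
    have h2 : (ρ ((a⁻¹ : A) : G) * ρ h) ∘ₗ P = ρ ((a⁻¹ : A) : G) ∘ₗ (ρ h ∘ₗ P) := rfl
    rw [h2, LinearMap.trace_comp_comm']
    have h3 : (ρ h ∘ₗ P) ∘ₗ ρ ((a⁻¹ : A) : G) = ρ h ∘ₗ (P ∘ₗ ρ ((a⁻¹ : A) : G)) := rfl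
    rw [h3, hAP, LinearMap.comp_smul, map_smul, smul_eq_mul, map_inv]
  have hone : pr (fun h : H => ρ.character h) ψ = 1 := by
    rw [pr_eq]
    have h1 : ∀ a : A, ∑ h : H, ρ.character h * ψ h⁻¹ =
        ∑ h : H, (((μ a)⁻¹ : ℂˣ) : ℂ) * ρ.character ((h : G) * a) * ψ h⁻¹ := by
      intro a
      rw [← Equiv.sum_comp (Equiv.mulRight (⟨(a : G), hAH a⟩ : H))]
      refine Finset.sum_congr rfl fun h _ => ?_
      rw [Equiv.coe_mulRight, mul_inv_rev, hψ2]
      change ρ.character ((h : G) * a) * _ = _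
      ring
    have h2 : (Nat.card A : ℂ) * ∑ h : H, ρ.character h * ψ h⁻¹ =
        (Nat.card A : ℂ) * ∑ h : H, ψ h * ψ h⁻¹ := by
      have e1 : (Nat.card A : ℂ) * ∑ h : H, ρ.character h * ψ h⁻¹ =
          ∑ a : A, ∑ h : H, ρ.character h * ψ h⁻¹ := by
        rw [Finset.sum_const, Finset.card_univ, nsmul_eq_mul, Nat.card_eq_fintype_card]
      rw [e1, Finset.sum_congr rfl (fun a _ => h1 a), Finset.sum_comm, Finset.mul_sum]
      refine Finset.sum_congr rfl fun h _ => ?_
      rw [← Finset.sum_mul, ← mul_assoc]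
      congr 1
      rw [hψ1, ← mul_assoc, mul_inv_cancel₀ hcA, one_mul]
    have h3 := mul_left_cancel₀ hcA h2
    rw [h3, pair_self hψ, inv_mul_cancel₀ card_ne]
  have hc1 : c = 1 := by
    have h1 := hcθ ρ.character (fun g x => ρ.char_conj g x)
    rw [pr_self hχ, hone, mul_one] at h1
    exact h1.symm
  intro θ hθ
  rw [pr_comm, hcθ θ hθ, hc1, one_mul, pr_comm]

/-- Clifford reduction, short form -/
theorem cliff {V : Type} [AddCommGroup V] [Module ℂ V] [FiniteDimensional ℂ V]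
    {ρ : Representation ℂ G V} (hρ : Irred ρ) (A : Subgroup G)
    [A.Normal] (hA : ∀ a b : A, ρ a * ρ b = ρ b * ρ a)
    (hc : ¬ ∀ a : A, ∃ c : ℂ, ∀ v, ρ a v = c • v) :
    ∃ H : Subgroup G, H ≠ ⊤ ∧ Subgroup.center G ≤ H ∧
      ∃ ψ ∈ Irr H, ∀ θ : G → ℂ, (∀ g x : G, θ (x * g * x⁻¹) = θ g) →
        pr ρ.character θ = pr ψ (fun h : H => θ h) := by
  obtain ⟨H, h1, h2, -, h3⟩ := cliff' hρ A hA hc
  exact ⟨H, h1, h2, h3⟩

end Pool.Agent.Q7.DC
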