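import Mathlib
import Pool.Agent.Q7.DC.Clf

/-!
# Monomial groups: abelian normal subgroup with nilpotent quotient
-/

set_option autoImplicit false
set_option linter.unusedSectionVars false

namespace Pool.Agent.Q7.DC

open Pool.Agent.H302R2 Pool.Agent.H541R3.ART Pool.Agent.W446.AS Pool.Agent.Q7.SZ

/-- abelian-by-nilpotent groups -/
def AN (U : Type) [Group U] : Prop :=
  ∃ A : Subgroup U, ∃ _ : A.Normal, (∀ a ∈ A, ∀ b ∈ A, a * b = b * a) ∧ Group.IsNilpotent (U ⧸ A)

lemma AN.inj {W U : Type} [Group W] [Group U] (f : W →* U) (hf : Function.Injective f)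
    (h : AN U) : AN W := by
  obtain ⟨A, hA, hab, hn⟩ := h
  refine ⟨A.comap f, inferInstance, ?_, ?_⟩
  · intro a ha b hb
    apply hf
    rw [map_mul, map_mul]
    exact hab _ ha _ hb
  · let F : W ⧸ A.comap f →* U ⧸ A := QuotientGroup.map (A.comap f) A f le_rfl
    refine Subgroup.isNilpotent_of_ker_le_center F ?_
    intro x hx
    induction x using QuotientGroup.induction_on with
    | H x =>
      have h1 : F (x : W ⧸ A.comap f) = ((f x : U) : U ⧸ A) := rfl
      rw [MonoidHom.mem_ker, h1, QuotientGroup.eq_one_iff] at hx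
      have h2 : (x : W ⧸ A.comap f) = 1 := (QuotientGroup.eq_one_iff x).mpr hx
      rw [h2]
      exact one_mem _

lemma AN.solvable {U : Type} [Group U] (h : AN U) : Group.IsSolvable U := by
  obtain ⟨A, hA, hab, hn⟩ := h
  have h2 : Group.IsSolvable (U ⧸ A) := inferInstance
  have h3 : Group.IsSolvable A := Pool.Agent.H302R3.sol_of_comm (fun a b => Subtype.ext (hab _ a.2 _ b.2))
  exact Group.isSolvable_of_ker_le_range A.subtype (QuotientGroup.mk' A) (by simp)

lemma AN.of_comm {U : Type} [Group U] (h : ∀ a b : U, a * b = b * a) : AN U := by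
  refine ⟨⊤, inferInstance, fun a _ b _ => h a b, ?_⟩
  have : Subsingleton (U ⧸ (⊤ : Subgroup U)) := QuotientGroup.subsingleton_quotient_top
  infer_instance

lemma AN.of_nilpotent {U : Type} [Group U] (h : Group.IsNilpotent U) : AN U := by
  refine ⟨⊥, inferInstance, ?_, inferInstance⟩
  intro a ha b hb
  rw [Subgroup.mem_bot] at ha hb
  rw [ha, hb]

/-- every irreducible character of such a group is induced from a linear character of a subgroup
containing the centre -/
theorem mono : ∀ (m : ℕ) (U : Type) [Group U] [Finite U], Nat.card U = m → AN U →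
    ∀ χ ∈ Irr U, ∃ (K : Type) (_ : Group K) (_ : Finite K) (κ : K →* U) (ψ : K →* ℂˣ),
      Function.Injective κ ∧ Subgroup.center U ≤ κ.range ∧
      ∀ θ : U → ℂ, (∀ g x, θ (x * g * x⁻¹) = θ g) →
        pr χ θ = pr (fun k => ((ψ k : ℂˣ) : ℂ)) (fun k => θ (κ k)) := by
  intro m
  induction m using Nat.strong_induction_on with
  | _ m ih =>
    intro U _ _ hm hAN χ hχ
    obtain ⟨n, ρ, hρ, rfl⟩ := exists_rep hχ
    have hnt := hρ.1
    by_cases hall : ∀ g : U, ∃ c : ℂ, ∀ v, ρ g v = c • v
    · -- scalar: degree one
      obtain ⟨v₀, hv₀⟩ := exists_ne (0 : Fin n → ℂ)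
      have h1 : Module.finrank ℂ (Fin n → ℂ) = 1 := by
        rcases hρ.2 (Submodule.span ℂ {v₀}) (by
          intro g v hv
          obtain ⟨c, hc⟩ := hall g
          rw [hc]
          exact Submodule.smul_mem _ _ hv) with h | h
        · exfalso
          apply hv₀
          rw [← Submodule.mem_bot ℂ, ← h]
          exact Submodule.mem_span_singleton_self v₀
        · have h2 := finrank_span_singleton (K := ℂ) hv₀
          rw [h, finrank_top] at h2
          exact h2
      have h2 : ρ.character 1 = 1 := by
        rw [Representation.char_one, h1]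
        norm_num
      obtain ⟨μ, hμ⟩ := exists_lin hχ h2
      refine ⟨U, inferInstance, inferInstance, MonoidHom.id U, μ, Function.injective_id, ?_, ?_⟩
      · intro x _
        exact ⟨x, rfl⟩
      · intro θ _
        rw [hμ]
        rfl
    · -- the scalar subgroup
      let Ns : Subgroup U :=
        { carrier := {g | ∃ c : ℂ, ∀ v, ρ g v = c • v}
          mul_mem' := by
            rintro a b ⟨c, hc⟩ ⟨d, hd⟩
            refine ⟨d * c, fun v => ?_⟩
            rw [map_mul, Module.End.mul_apply, hd, map_smul, hc, smul_smul]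
          one_mem' := ⟨1, fun v => by rw [map_one, one_smul, Module.End.one_apply]⟩
          inv_mem' := by
            rintro a ⟨c, hc⟩
            have hc0 : c ≠ 0 := by
              rintro rfl
              obtain ⟨v, hv⟩ := exists_ne (0 : Fin n → ℂ)
              apply hv
              have h1 := hc v
              rw [zero_smul] at h1
              have h2 : ρ a⁻¹ (ρ a v) = v := by
                rw [← Module.End.mul_apply, ← map_mul, inv_mul_cancel, map_one,
                  Module.End.one_apply]
              rw [← h2, h1, map_zero]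
            refine ⟨c⁻¹, fun v => ?_⟩
            have h2 : ρ a⁻¹ (ρ a v) = v := by
              rw [← Module.End.mul_apply, ← map_mul, inv_mul_cancel, map_one,
                Module.End.one_apply]
            rw [hc, map_smul] at h2
            rw [← h2, smul_smul, inv_mul_cancel₀ hc0, one_smul, h2] }
      have hNs : ∀ g, g ∈ Ns ↔ ∃ c : ℂ, ∀ v, ρ g v = c • v := fun g => Iff.rfl
      have hNn : Ns.Normal := by
        refine ⟨fun a ha g => ?_⟩
        obtain ⟨c, hc⟩ := ha
        refine ⟨c, fun v => ?_⟩
        rw [map_mul, map_mul, Module.End.mul_apply, Module.End.mul_apply, hc, map_smul,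
          ← Module.End.mul_apply, ← map_mul, mul_inv_cancel, map_one, Module.End.one_apply]
      have hNcomm : ∀ a ∈ Ns, ∀ g : U, ρ a * ρ g = ρ g * ρ a := by
        rintro a ⟨c, hc⟩ g
        refine LinearMap.ext fun v => ?_
        rw [Module.End.mul_apply, Module.End.mul_apply, hc, hc, map_smul]
      have key : ∃ A : Subgroup U, ∃ _ : A.Normal, (∀ a b : A, ρ a * ρ b = ρ b * ρ a) ∧
          ¬ ∀ a : A, ∃ c : ℂ, ∀ v, ρ a v = c • v := by
        obtain ⟨A, hA, hab, hn⟩ := hAN
        by_cases hAs : A ≤ Ns
        · have h1 : Group.IsNilpotent (U ⧸ Ns) := by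
            let F : U ⧸ A →* U ⧸ Ns := QuotientGroup.map A Ns (MonoidHom.id U) hAs
            have hF : Function.Surjective F := by
              intro y
              induction y using QuotientGroup.induction_on with
              | H y => exact ⟨(y : U ⧸ A), rfl⟩
            exact Group.nilpotent_of_surjective F hF
          have h2 : Nontrivial (U ⧸ Ns) := by
            push Not at hall
            obtain ⟨g, hg⟩ := hall
            refine ⟨⟨(g : U ⧸ Ns), 1, fun h => ?_⟩⟩
            rw [QuotientGroup.eq_one_iff] at h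
            obtain ⟨c, hc⟩ := h
            obtain ⟨v, hv⟩ := hg c
            exact hv (hc v)
          have h3 := Group.IsNilpotent.center_ne_bot (G := U ⧸ Ns)
          obtain ⟨x', hx1'⟩ := Subgroup.ne_bot_iff_exists_ne_one.mp h3
          have hx' := x'.2
          have hx1 : (x' : U ⧸ Ns) ≠ 1 := fun h => hx1' (Subtype.ext h)
          obtain ⟨x, hx⟩ := QuotientGroup.mk_surjective (x' : U ⧸ Ns)
          have hxN : x ∉ Ns := by
            intro h
            apply hx1
            rw [← hx]
            exact (QuotientGroup.eq_one_iff x).mpr h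
          have hxc : ∀ g : U, x⁻¹ * (g * x * g⁻¹) ∈ Ns := by
            intro g
            rw [← QuotientGroup.eq_one_iff]
            have h4 := Subgroup.mem_center_iff.mp hx' (g : U ⧸ Ns)
            rw [← hx] at h4
            rw [QuotientGroup.mk_mul, QuotientGroup.mk_mul, QuotientGroup.mk_mul, h4,
              QuotientGroup.mk_inv, QuotientGroup.mk_inv, mul_inv_cancel_right, inv_mul_cancel]
          have hmem : ∀ y, y ∈ Subgroup.zpowers x ⊔ Ns ↔ ∃ k : ℤ, ∃ s ∈ Ns, x ^ k * s = y := by
            intro y
            rw [Subgroup.mem_sup_of_normal_right]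
            constructor
            · rintro ⟨a, ⟨k, rfl⟩, s, hs, rfl⟩
              exact ⟨k, s, hs, rfl⟩
            · rintro ⟨k, s, hs, rfl⟩
              exact ⟨x ^ k, ⟨k, rfl⟩, s, hs, rfl⟩
          refine ⟨Subgroup.zpowers x ⊔ Ns, ?_, ?_, ?_⟩
          · refine ⟨fun y hy g => ?_⟩
            obtain ⟨k, s, hs, rfl⟩ := (hmem y).mp hy
            have e1 : g * (x ^ k * s) * g⁻¹ = (g * x * g⁻¹) ^ k * (g * s * g⁻¹) := by
              rw [conj_zpow]
              group
            rw [e1]
            refine mul_mem (zpow_mem ?_ k) (Subgroup.mem_sup_right (hNn.conj_mem s hs g))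
            have e2 : g * x * g⁻¹ = x * (x⁻¹ * (g * x * g⁻¹)) := by group
            rw [e2]
            exact mul_mem (Subgroup.mem_sup_left (Subgroup.mem_zpowers x))
              (Subgroup.mem_sup_right (hxc g))
          · rintro ⟨a, ha⟩ ⟨b, hb⟩
            obtain ⟨k, s, hs, rfl⟩ := (hmem a).mp ha
            obtain ⟨l, t, ht, rfl⟩ := (hmem b).mp hb
            change ρ (x ^ k * s) * ρ (x ^ l * t) = ρ (x ^ l * t) * ρ (x ^ k * s)
            rw [map_mul, map_mul]
            have e1 := hNcomm s hs (x ^ l * t)
            have e2 := hNcomm t ht (x ^ k * s)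
            have e3 : ρ (x ^ k) * ρ (x ^ l) = ρ (x ^ l) * ρ (x ^ k) := by
              rw [← map_mul, ← map_mul, ← zpow_add, ← zpow_add, add_comm]
            have e4 := hNcomm s hs (x ^ l)
            have e5 := hNcomm t ht (x ^ k)
            have e6 := hNcomm s hs t
            calc ρ (x ^ k) * ρ s * (ρ (x ^ l) * ρ t) = ρ (x ^ k) * (ρ s * ρ (x ^ l)) * ρ t := by
                  simp only [mul_assoc]
              _ = (ρ (x ^ k) * ρ (x ^ l)) * (ρ s * ρ t) := by rw [e4]; simp only [mul_assoc]
              _ = ρ (x ^ l) * (ρ (x ^ k) * ρ t) * ρ s := by rw [e3, e6]; simp only [mul_assoc]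
              _ = ρ (x ^ l) * ρ t * (ρ (x ^ k) * ρ s) := by rw [← e5]; simp only [mul_assoc]
          · intro h
            obtain ⟨c, hc⟩ := h ⟨x, Subgroup.mem_sup_left (Subgroup.mem_zpowers x)⟩
            exact hxN ⟨c, hc⟩
        · refine ⟨A, hA, ?_, ?_⟩
          · intro a b
            rw [← map_mul, ← map_mul, hab _ a.2 _ b.2]
          · intro h
            apply hAs
            intro a ha
            exact h ⟨a, ha⟩
      obtain ⟨A, hAn, hA1, hA2⟩ := key
      obtain ⟨H, hHt, hHc, ψ, hψ, hψθ⟩ := cliff hρ A hA1 hA2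
      have hlt : Nat.card H < m := by
        rw [← hm]
        exact lt_of_le_of_ne (Subgroup.card_le_card_group H)
          (fun h => hHt (Subgroup.eq_top_of_card_eq H h))
      obtain ⟨K, i1, i2, κ, ψ', hκ, hκc, hκθ⟩ := ih _ hlt H rfl
        (AN.inj H.subtype (Subgroup.subtype_injective H) hAN) ψ hψ
      refine ⟨K, i1, i2, H.subtype.comp κ, ψ', (Subgroup.subtype_injective H).comp hκ, ?_, ?_⟩
      · intro z hz
        have h1 : (⟨z, hHc hz⟩ : H) ∈ Subgroup.center H := by
          rw [Subgroup.mem_center_iff]
          intro g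
          apply Subtype.ext
          exact Subgroup.mem_center_iff.mp hz g
        obtain ⟨k, hk⟩ := hκc h1
        exact ⟨k, by rw [MonoidHom.comp_apply, hk]; rfl⟩
      · intro θ hθ
        rw [hψθ θ hθ, hκθ (fun h : H => θ h) (fun g x => hθ g x)]
        rfl

end Pool.Agent.Q7.DC
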