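import Mathlib
import Pool.Agent.Q7.DC.Mon

/-!
# Additive functionals on virtual characters
-/

set_option autoImplicit false
set_option linter.unusedSectionVars false

namespace Pool.Agent.Q7.DC

open Pool.Agent.H302R2 Pool.Agent.H541R3.ART Pool.Agent.W446.AS Pool.Agent.Q7.SZ

/-- the function attached to a linear character -/
abbrev lc {K : Type} [Group K] (ψ : K →* ℂˣ) : K → ℂ := fun k => ((ψ k : ℂˣ) : ℂ)

/-- rounding -/
noncomputable def fl (z : ℂ) : ℤ := ⌊z.re⌋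

lemma fl_int (k : ℤ) : fl (k : ℂ) = k := by
  unfold fl
  rw [Complex.intCast_re, Int.floor_intCast]

lemma fl_eq {z : ℂ} {k : ℤ} (h : z = k) : fl z = k := by rw [h, fl_int]

section

variable {G : Type} [Group G] [Finite G]

lemma pr_add_right (a b c : G → ℂ) : pr a (b + c) = pr a b + pr a c := by
  rw [pr_comm, pr_add, pr_comm b, pr_comm c]

lemma pr_neg_right (a b : G → ℂ) : pr a (-b) = - pr a b := by
  rw [pr_comm, pr_neg, pr_comm b]

lemma pr_zero_right (a : G → ℂ) : pr a 0 = 0 := by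
  rw [pr_comm, pr_zero_left]

lemma vpr_int {a b : G → ℂ} (ha : Virt a) (hb : Virt b) : ∃ k : ℤ, pr a b = k := by
  unfold Virt at hb
  induction hb using AddSubgroup.closure_induction with
  | mem χ hχ => exact ha.pr_int hχ
  | zero => exact ⟨0, by rw [pr_zero_right]; simp⟩
  | add x y _ _ hx hy =>
    obtain ⟨k, hk⟩ := hx
    obtain ⟨l, hl⟩ := hy
    exact ⟨k + l, by rw [pr_add_right, hk, hl]; push_cast; rfl⟩
  | neg x _ hx =>
    obtain ⟨k, hk⟩ := hx
    exact ⟨-k, by rw [pr_neg_right, hk]; push_cast; rfl⟩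

lemma fl_coe {a b : G → ℂ} (ha : Virt a) (hb : Virt b) : (fl (pr a b) : ℂ) = pr a b := by
  obtain ⟨k, hk⟩ := vpr_int ha hb
  rw [hk, fl_int]

lemma virt_irr {χ : G → ℂ} (h : χ ∈ Irr G) : Virt χ := AddSubgroup.subset_closure h

lemma virt_lc (ψ : G →* ℂˣ) : Virt (lc ψ) := virt_irr (lin_irr ψ)

lemma virt_add {a b : G → ℂ} (ha : Virt a) (hb : Virt b) : Virt (a + b) :=
  AddSubgroup.add_mem _ ha hb

lemma virt_sub {a b : G → ℂ} (ha : Virt a) (hb : Virt b) : Virt (a - b) :=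
  AddSubgroup.sub_mem _ ha hb

lemma virt_mul {a b : G → ℂ} (ha : Virt a) (hb : Virt b) : Virt (a * b) := by
  unfold Virt at ha hb ⊢
  induction ha using AddSubgroup.closure_induction with
  | mem x hx =>
    induction hb using AddSubgroup.closure_induction with
    | mem y hy =>
      obtain ⟨n, ρ, -, rfl⟩ := hx
      obtain ⟨m, σ, -, rfl⟩ := hy
      rw [← Representation.char_tensor]
      exact char_mem _ _ rfl
    | zero => rw [mul_zero]; exact AddSubgroup.zero_mem _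
    | add y z _ _ hy hz => rw [mul_add]; exact AddSubgroup.add_mem _ hy hz
    | neg y _ hy => rw [mul_neg]; exact AddSubgroup.neg_mem _ hy
  | zero => rw [zero_mul]; exact AddSubgroup.zero_mem _
  | add x y _ _ hx hy => rw [add_mul]; exact AddSubgroup.add_mem _ hx hy
  | neg x _ hx => rw [neg_mul]; exact AddSubgroup.neg_mem _ hx

lemma virt_const (t : ℤ) : Virt (fun _ : G => (t : ℂ)) := by
  have h1 : Virt (lc (1 : G →* ℂˣ)) := virt_lc 1
  have h2 : (fun _ : G => (t : ℂ)) = t • (lc (1 : G →* ℂˣ)) := by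
    funext g
    rw [Pi.smul_apply, zsmul_eq_mul]
    change (t : ℂ) = t * (((1 : G →* ℂˣ) g : ℂˣ) : ℂ)
    rw [MonoidHom.one_apply, Units.val_one, mul_one]
  rw [h2]
  exact AddSubgroup.zsmul_mem _ h1 t

lemma pr_lc_self (ψ : G →* ℂˣ) : pr (lc ψ) (lc ψ) = 1 := pr_self (lin_irr ψ)

lemma lc_ne {μ ν : G →* ℂˣ} (h : μ ≠ ν) : lc μ ≠ lc ν := by
  intro h2
  apply h
  ext g
  exact congrFun h2 g

lemma pr_lc_ne {μ ν : G →* ℂˣ} (h : μ ≠ ν) : pr (lc μ) (lc ν) = 0 :=
  pr_ne (lin_irr μ) (lin_irr ν) (lc_ne h)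

lemma pr_sum_left {ι : Type*} (s : Finset ι) (f : ι → G → ℂ) (b : G → ℂ) :
    pr (∑ i ∈ s, f i) b = ∑ i ∈ s, pr (f i) b := by
  classical
  induction s using Finset.induction_on with
  | empty => rw [Finset.sum_empty, Finset.sum_empty, pr_zero_left]
  | insert i s hi ih => rw [Finset.sum_insert hi, Finset.sum_insert hi, pr_add, ih]

lemma pr_smul_left (c : ℂ) (a b : G → ℂ) : pr (c • a) b = c * pr a b := by
  classical
  have : Fintype G := Fintype.ofFinite G
  have h1 : ∑ g : G, (c • a) g * b g⁻¹ = c * ∑ g : G, a g * b g⁻¹ := by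
    rw [Finset.mul_sum]
    refine Finset.sum_congr rfl fun g _ => ?_
    rw [Pi.smul_apply, smul_eq_mul, mul_assoc]
  rw [pr_eq, pr_eq, h1]
  ring

/-- Parseval -/
lemma pr_expand {y : G → ℂ} (hy : Virt y) (z : G → ℂ) :
    pr y z = ∑ φ ∈ irrF G, pr y φ * pr φ z := by
  have h1 : y = ∑ φ ∈ irrF G, (pr y φ • φ : G → ℂ) := by
    funext g
    rw [Finset.sum_apply (a := g) (s := irrF G) (g := fun φ => (pr y φ • φ : G → ℂ))]
    simp only [Pi.smul_apply, smul_eq_mul]
    exact hy.expand g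
  have h2 : pr y z = pr (∑ φ ∈ irrF G, (pr y φ • φ : G → ℂ)) z := congrArg (fun f => pr f z) h1
  rw [h2, pr_sum_left]
  refine Finset.sum_congr rfl fun φ _ => ?_
  rw [pr_smul_left]

lemma pr_equiv {K : Type} [Group K] [Finite K] (e : K ≃* G) (a b : G → ℂ) :
    pr (fun k => a (e k)) (fun k => b (e k)) = pr a b := by
  classical
  have : Fintype G := Fintype.ofFinite G
  have : Fintype K := Fintype.ofFinite K
  rw [pr_eq, pr_eq, Nat.card_congr e.toEquiv]
  congr 1
  rw [← Equiv.sum_comp e.toEquiv]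
  refine Finset.sum_congr rfl fun k _ => ?_
  change a (e k) * b (e k⁻¹) = a (e k) * b (e k)⁻¹
  rw [map_inv]

/-- the additive functional `δ` on the virtual characters, composed with induction along `ι` -/
noncomputable def DD {B : Type} [AddCommGroup B] (δ : (G → ℂ) → B) {K : Type} [Group K]
    (ι : K →* G) (y : K → ℂ) : B :=
  ∑ χ ∈ irrF G, fl (pr y (fun k => χ (ι k))) • δ χ

variable {B : Type} [AddCommGroup B] {δ : (G → ℂ) → B} {K : Type} [Group K] [Finite K]

lemma DD_add (ι : K →* G) {y z : K → ℂ} (hy : Virt y) (hz : Virt z) :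
    DD δ ι (y + z) = DD δ ι y + DD δ ι z := by
  unfold DD
  rw [← Finset.sum_add_distrib]
  refine Finset.sum_congr rfl fun χ hχ => ?_
  rw [← add_smul]
  congr 1
  have hv : Virt (fun k => χ (ι k)) := (virt_irr (mem_irrF.mp hχ)).comp ι
  apply fl_eq
  rw [pr_add]
  push_cast
  rw [fl_coe hy hv, fl_coe hz hv]

lemma DD_sub (ι : K →* G) {y z : K → ℂ} (hy : Virt y) (hz : Virt z) :
    DD δ ι (y - z) = DD δ ι y - DD δ ι z := by
  have h := DD_add (δ := δ) ι (virt_sub hy hz) hz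
  rw [sub_add_cancel] at h
  rw [h, add_sub_cancel_right]

lemma DD_zsmul (ι : K →* G) {y : K → ℂ} (hy : Virt y) (t : ℤ) :
    DD δ ι (fun k => (t : ℂ) * y k) = t • DD δ ι y := by
  unfold DD
  rw [Finset.smul_sum]
  refine Finset.sum_congr rfl fun χ hχ => ?_
  rw [smul_smul]
  congr 1
  have hv : Virt (fun k => χ (ι k)) := (virt_irr (mem_irrF.mp hχ)).comp ι
  apply fl_eq
  have h1 : (fun k => (t : ℂ) * y k) = (t : ℂ) • y := by
    funext k
    rfl
  rw [h1, pr_smul_left]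
  push_cast
  rw [fl_coe hy hv]

lemma DD_expand (ι : K →* G) {y : K → ℂ} (hy : Virt y) :
    DD δ ι y = ∑ φ ∈ irrF K, fl (pr y φ) • DD δ ι φ := by
  unfold DD
  simp_rw [Finset.smul_sum]
  rw [Finset.sum_comm]
  refine Finset.sum_congr rfl fun χ hχ => ?_
  simp_rw [smul_smul]
  rw [← Finset.sum_smul]
  congr 1
  have hv : Virt (fun k => χ (ι k)) := (virt_irr (mem_irrF.mp hχ)).comp ι
  apply fl_eq
  rw [pr_expand hy]
  push_cast
  refine Finset.sum_congr rfl fun φ hφ => ?_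
  rw [fl_coe hy (virt_irr (mem_irrF.mp hφ)), fl_coe (virt_irr (mem_irrF.mp hφ)) hv]

lemma DD_ind {L : Type} [Group L] [Finite L] (ι : L →* G) (κ : K →* L) {y : L → ℂ} {ψ : K → ℂ}
    (h : ∀ θ : L → ℂ, (∀ g x, θ (x * g * x⁻¹) = θ g) → pr y θ = pr ψ (fun k => θ (κ k))) :
    DD δ ι y = DD δ (ι.comp κ) ψ := by
  unfold DD
  refine Finset.sum_congr rfl fun χ hχ => ?_
  rw [h (fun k => χ (ι k)) (fun g x => by
    simp only [map_mul, map_inv]
    exact Irr.conj (mem_irrF.mp hχ) _ _)]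
  rfl

lemma DD_conj (ι : K →* G) (g : G) (y : K → ℂ) :
    DD δ ((MulAut.conj g).toMonoidHom.comp ι) y = DD δ ι y := by
  unfold DD
  refine Finset.sum_congr rfl fun χ hχ => ?_
  congr 3
  funext k
  exact Irr.conj (mem_irrF.mp hχ) _ _

lemma DD_equiv {L : Type} [Group L] [Finite L] (e : L ≃* K) (ι : K →* G) (y : K → ℂ) :
    DD δ (ι.comp e.toMonoidHom) (fun l => y (e l)) = DD δ ι y := by
  unfold DD
  refine Finset.sum_congr rfl fun χ hχ => ?_
  congr 2
  exact pr_equiv e y (fun k => χ (ι k))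

lemma DD_id {χ : G → ℂ} (hχ : χ ∈ Irr G) : DD δ (MonoidHom.id G) χ = δ χ := by
  classical
  unfold DD
  rw [Finset.sum_eq_single χ]
  · have h1 : fl (pr χ (fun k => χ ((MonoidHom.id G) k))) = 1 := by
      apply fl_eq
      have : pr χ (fun k => χ ((MonoidHom.id G) k)) = pr χ χ := rfl
      rw [this, pr_self hχ]
      norm_num
    rw [h1, one_smul]
  · intro ψ hψ hne
    have h1 : fl (pr χ (fun k => ψ ((MonoidHom.id G) k))) = 0 := by
      apply fl_eq
      have : pr χ (fun k => ψ ((MonoidHom.id G) k)) = pr χ ψ := rfl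
      rw [this, pr_ne hχ (mem_irrF.mp hψ) hne.symm]
      norm_num
    rw [h1, zero_smul]
  · intro h
    exact absurd (mem_irrF.mpr hχ) h

/-- `δ` vanishes on the characters induced from linear characters of solvable subgroups containing
`Z`, if they are orthogonal to `S`. -/
def Kills (Z : Subgroup G) (S : Set (G → ℂ)) (δ : (G → ℂ) → B) : Prop :=
  ∀ H : Subgroup G, Z ≤ H → Group.IsSolvable H → ∀ ψ : H →* ℂˣ,
    (∀ ζ ∈ S, pr (lc ψ) (fun h : H => ζ h) = 0) → DD δ H.subtype (lc ψ) = 0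

lemma Kills.hom {Z : Subgroup G} {S : Set (G → ℂ)} (h : Kills Z S δ) (ι : K →* G)
    (hι : Function.Injective ι) (hZ : Z ≤ ι.range) (hs : Group.IsSolvable K) (ψ : K →* ℂˣ)
    (hψ : ∀ ζ ∈ S, pr (lc ψ) (fun k => ζ (ι k)) = 0) : DD δ ι (lc ψ) = 0 := by
  let e : K ≃* ι.range := MonoidHom.ofInjective hι
  have he : ∀ k, ((e k : ι.range) : G) = ι k := fun k => rfl
  have hs' : Group.IsSolvable ι.range := Group.isSolvable_of_surjective (f := e.toMonoidHom) e.surjective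
  have h1 := h ι.range hZ hs' (ψ.comp e.symm.toMonoidHom) (by
    intro ζ hζ
    rw [← pr_equiv e]
    rw [← hψ ζ hζ]
    congr 1
    funext k
    change ((ψ (e.symm (e k)) : ℂˣ) : ℂ) = _
    rw [e.symm_apply_apply])
  rw [← DD_equiv e] at h1
  rw [← h1]
  have e1 : ι.range.subtype.comp e.toMonoidHom = ι := by
    ext k
    rfl
  rw [e1]
  congr 1
  funext k
  change _ = ((ψ (e.symm (e k)) : ℂˣ) : ℂ)
  rw [e.symm_apply_apply]

/-- good irreducible characters are killed -/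
lemma Kills.star {Z : Subgroup G} {S : Set (G → ℂ)} (h : Kills Z S δ) (hZc : Z ≤ Subgroup.center G)
    (hS : S ⊆ Irr G) (ι : K →* G) (hι : Function.Injective ι) (hZ : Z ≤ ι.range) (hK : AN K)
    {φ : K → ℂ} (hφ : φ ∈ Irr K) (hg : ∀ ζ ∈ S, pr φ (fun k => ζ (ι k)) = 0) : DD δ ι φ = 0 := by
  obtain ⟨L, i1, i2, κ, ψ, hκ, hκc, hκθ⟩ := mono _ K rfl hK φ hφ
  rw [DD_ind (δ := δ) ι κ hκθ]
  refine h.hom (ι.comp κ) (hι.comp hκ) ?_ ?_ ψ ?_
  · intro z hz
    obtain ⟨k, hk⟩ := hZ hz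
    have h1 : k ∈ Subgroup.center K := by
      rw [Subgroup.mem_center_iff]
      intro g
      apply hι
      rw [map_mul, map_mul, hk]
      exact Subgroup.mem_center_iff.mp (hZc hz) _
    obtain ⟨l, hl⟩ := hκc h1
    exact ⟨l, by rw [MonoidHom.comp_apply, hl, hk]⟩
  · exact (AN.inj κ hκ hK).solvable
  · intro ζ hζ
    have h1 := hκθ (fun k => ζ (ι k)) (fun g x => by
      simp only [map_mul, map_inv]
      exact Irr.conj (hS hζ) _ _)
    rw [hg ζ hζ] at h1
    exact h1.symm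

/-- the value of the functional in terms of the bad characters -/
lemma Kills.bad {Z : Subgroup G} {S : Set (G → ℂ)} (h : Kills Z S δ) (hZc : Z ≤ Subgroup.center G)
    (hS : S ⊆ Irr G) (ι : K →* G) (hι : Function.Injective ι) (hZ : Z ≤ ι.range) (hK : AN K)
    (T : Finset (K → ℂ)) (hT : T ⊆ irrF K)
    (hb : ∀ φ ∈ Irr K, φ ∉ T → ∀ ζ ∈ S, pr φ (fun k => ζ (ι k)) = 0)
    {y : K → ℂ} (hy : Virt y) : DD δ ι y = ∑ φ ∈ T, fl (pr y φ) • DD δ ι φ := by
  rw [DD_expand ι hy]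
  symm
  refine Finset.sum_subset hT ?_
  intro φ hφ hn
  rw [h.star hZc hS ι hι hZ hK (mem_irrF.mp hφ) (hb φ (mem_irrF.mp hφ) hn), smul_zero]

end

end Pool.Agent.Q7.DC
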