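import Mathlib
import Pool.Agent.Q7.DC.Fun

/-!
# Induction theorem relative to a central subgroup
-/

set_option autoImplicit false
set_option linter.unusedSectionVars false

namespace Pool.Agent.Q7.DC

open Pool.Agent.H302R2 Pool.Agent.H302R3 Pool.Agent.H541R3.ART Pool.Agent.W446.AS
  Pool.Agent.Q7.SZ MulAction

section perm

variable {G : Type} [Group G] [Finite G] {X : Type} [MulAction G X] [Finite X]

/-- permutation characters are characters -/
lemma virt_perm : Virt (fun g : G => (Nat.card {s : X // g • s = s} : ℂ)) := by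
  classical
  have : Fintype X := Fintype.ofFinite X
  let ρ : Representation ℂ G (X → ℂ) :=
    { toFun := fun g => LinearMap.funLeft ℂ ℂ (fun s : X => g⁻¹ • s)
      map_one' := by
        ext f s
        simp [LinearMap.funLeft_apply]
      map_mul' := by
        intro a b
        refine LinearMap.ext fun f => ?_
        funext s
        change f ((a * b)⁻¹ • s) = f (b⁻¹ • a⁻¹ • s)
        rw [mul_inv_rev, mul_smul] }
  have h1 : (fun g : G => (Nat.card {s : X // g • s = s} : ℂ)) = ρ.character := by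
    funext g
    change _ = LinearMap.trace ℂ (X → ℂ) (LinearMap.funLeft ℂ ℂ (fun s : X => g⁻¹ • s))
    rw [LinearMap.trace_eq_matrix_trace ℂ (Pi.basisFun ℂ X), Matrix.trace]
    have h2 : ∀ s : X, Matrix.diag (LinearMap.toMatrix (Pi.basisFun ℂ X) (Pi.basisFun ℂ X)
        (LinearMap.funLeft ℂ ℂ (fun s : X => g⁻¹ • s))) s = if g • s = s then 1 else 0 := by
      intro s
      rw [Matrix.diag_apply, LinearMap.toMatrix_apply, Pi.basisFun_apply, Pi.basisFun_repr,
        LinearMap.funLeft_apply, Pi.single_apply]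
      by_cases h : g • s = s
      · rw [if_pos h, if_pos]
        rw [inv_smul_eq_iff]; exact h.symm
      · rw [if_neg h, if_neg]
        intro h3
        rw [inv_smul_eq_iff] at h3
        exact h h3.symm
    rw [Finset.sum_congr rfl (fun s _ => h2 s), Finset.sum_boole, Nat.card_eq_fintype_card,
      Fintype.card_subtype]
  rw [h1]
  exact char_mem _ ρ rfl

/-- the pairing of a function times a permutation character -/
lemma pr_perm {a c : G → ℂ} (ha : ∀ g x : G, a (x * g * x⁻¹) = a g)
    (hc : ∀ g x : G, c (x * g * x⁻¹) = c g) :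
    pr (fun g : G => a g * (Nat.card {s : X // g • s = s} : ℂ)) c =
      ∑ᶠ ω : Quotient (orbitRel G X), pr (fun h : stabilizer G ω.out => a h) (fun h => c h) := by
  classical
  have : Fintype G := Fintype.ofFinite _
  have : Fintype X := Fintype.ofFinite _
  let F : X → ℂ := fun x => ∑ g : G, if g • x = x then a g * c g⁻¹ else 0
  have hstab : ∀ x : X, F x = Nat.card (stabilizer G x) *
      pr (fun h : stabilizer G x => a h) (fun h => c h) := by
    intro x
    have : Fintype (stabilizer G x) := Fintype.ofFinite _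
    rw [pr_eq, ← mul_assoc, mul_inv_cancel₀ card_ne, one_mul]
    change (∑ g : G, if g • x = x then a g * c g⁻¹ else 0) = _
    rw [← Finset.sum_filter]
    exact Finset.sum_subtype _ (by simp) (fun g => a g * c g⁻¹)
  have hinv : ∀ (h : G) (x : X), F (h • x) = F x := by
    intro h x
    change ∑ g : G, (if g • h • x = h • x then a g * c g⁻¹ else 0) =
      ∑ g : G, if g • x = x then a g * c g⁻¹ else 0
    rw [← Equiv.sum_comp (MulAut.conj h).toEquiv
      (fun g => if g • h • x = h • x then a g * c g⁻¹ else 0)]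
    refine Finset.sum_congr rfl fun g _ => ?_
    have e1 : (MulAut.conj h).toEquiv g = h * g * h⁻¹ := rfl
    have e0 : (h * g * h⁻¹)⁻¹ = h * g⁻¹ * h⁻¹ := by group
    rw [e1, e0, ha, hc]
    have e2 : ((h * g * h⁻¹) • h • x = h • x) ↔ (g • x = x) := by
      rw [smul_smul, inv_mul_cancel_right, mul_smul]
      exact smul_left_cancel_iff h
    by_cases hgx : g • x = x
    · rw [if_pos hgx, if_pos (e2.mpr hgx)]
    · rw [if_neg hgx, if_neg (fun h => hgx (e2.mp h))]
  have hsum : ∑ g : G, a g * (Nat.card {s : X // g • s = s} : ℂ) * c g⁻¹ = ∑ x : X, F x := by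
    rw [Finset.sum_comm]
    refine Finset.sum_congr rfl fun g _ => ?_
    rw [← Finset.sum_filter, Finset.sum_const, nsmul_eq_mul,
      Nat.card_eq_fintype_card, Fintype.card_subtype]
    ring
  let mk : X → Quotient (orbitRel G X) := Quotient.mk _
  rw [pr_eq, hsum, finsum_eq_sum_of_fintype,
    ← Finset.sum_fiberwise_of_maps_to (s := Finset.univ) (t := Finset.univ)
    (g := mk) (fun _ _ => Finset.mem_univ _), Finset.mul_sum]
  refine Finset.sum_congr rfl fun ω _ => ?_
  have hconst : ∀ x ∈ Finset.univ.filter (fun x => mk x = ω), F x = F ω.out := by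
    intro x hx
    have h2 := (Finset.mem_filter.mp hx).2
    have h3 : mk x = mk ω.out := by
      rw [h2]; exact (Quotient.out_eq ω).symm
    have h4 := Quotient.exact h3
    obtain ⟨h, hh⟩ := orbitRel_apply.mp h4
    rw [← hh, hinv]
  rw [Finset.sum_congr rfl hconst, Finset.sum_const, nsmul_eq_mul, hstab]
  have hcard : (Finset.univ.filter (fun x => mk x = ω)).card
      * Nat.card (stabilizer G ω.out) = Nat.card G := by
    have : Fintype (orbit G ω.out) := Fintype.ofFinite _
    have : Fintype (stabilizer G ω.out) := Fintype.ofFinite _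
    have h5 := card_orbit_mul_card_stabilizer_eq_card_group G ω.out
    rw [Nat.card_eq_fintype_card, Nat.card_eq_fintype_card, ← h5]
    congr 1
    rw [← Fintype.card_subtype]
    refine Fintype.card_congr (Equiv.subtypeEquivRight fun x => ?_)
    constructor
    · intro h2
      have h3 : mk x = mk ω.out := by
        rw [h2]; exact (Quotient.out_eq ω).symm
      exact orbitRel_apply.mp (Quotient.exact h3)
    · intro h2
      have h3 : mk x = mk ω.out := Quotient.sound (orbitRel_apply.mpr h2)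
      rw [h3]; exact Quotient.out_eq ω
  have hcG : (Nat.card G : ℂ) ≠ 0 := card_ne
  rw [← mul_assoc ((Finset.univ.filter (fun x => mk x = ω)).card : ℂ), ← Nat.cast_mul, hcard,
    ← mul_assoc, inv_mul_cancel₀ hcG, one_mul]

variable {B : Type} [AddCommGroup B] {δ : (G → ℂ) → B}

lemma DD_perm {x : G → ℂ} (hx : Virt x)
    (hloc : ∀ s : X, DD δ (stabilizer G s).subtype (fun l => x l) = 0) :
    DD δ (MonoidHom.id G) (fun g => x g * (Nat.card {s : X // g • s = s} : ℂ)) = 0 := by
  classical
  have : Fintype (Quotient (orbitRel G X)) := Fintype.ofFinite _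
  have h1 : DD δ (MonoidHom.id G) (fun g => x g * (Nat.card {s : X // g • s = s} : ℂ)) =
      ∑ ω : Quotient (orbitRel G X), DD δ (stabilizer G ω.out).subtype (fun l => x l) := by
    unfold DD
    rw [Finset.sum_comm]
    refine Finset.sum_congr rfl fun χ hχ => ?_
    rw [← Finset.sum_smul]
    congr 1
    apply fl_eq
    have h2 : (fun k => χ ((MonoidHom.id G) k)) = χ := rfl
    rw [h2, pr_perm (fun g y => hx.conj g y) (fun g y => (virt_irr (mem_irrF.mp hχ)).conj g y),
      finsum_eq_sum_of_fintype]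
    push_cast
    refine Finset.sum_congr rfl fun ω _ => ?_
    have h3 : Virt (fun l : stabilizer G ω.out => x l) := hx.comp (stabilizer G ω.out).subtype
    have h4 : Virt (fun l : stabilizer G ω.out => χ ((stabilizer G ω.out).subtype l)) :=
      (virt_irr (mem_irrF.mp hχ)).comp (stabilizer G ω.out).subtype
    rw [fl_coe h3 h4]
    rfl
  rw [h1]
  exact Finset.sum_eq_zero fun ω _ => hloc _

end perm

section ring

variable {G : Type} [Group G] [Finite G] {B : Type} [AddCommGroup B] {δ : (G → ℂ) → B}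

/-- if the functional kills all multiples of `f`, it is multiplied by `∏ (-t)` -/
lemma DD_prod {f : G → ℂ} (hf : Virt f)
    (h0 : ∀ x : G → ℂ, Virt x → DD δ (MonoidHom.id G) (x * f) = 0) (T : Finset ℤ) :
    ∀ x : G → ℂ, Virt x → Virt (fun g => x g * ∏ t ∈ T, (f g - t)) ∧
      DD δ (MonoidHom.id G) (fun g => x g * ∏ t ∈ T, (f g - t)) =
        (∏ t ∈ T, (-t)) • DD δ (MonoidHom.id G) x := by
  classical
  induction T using Finset.induction_on with
  | empty =>
    intro x hx
    simp only [Finset.prod_empty, mul_one, one_smul, and_true]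
    exact hx
  | insert t T ht ih =>
    intro x hx
    obtain ⟨i1, i2⟩ := ih x hx
    have e1 : (fun g => x g * ∏ t ∈ insert t T, (f g - t)) =
        (fun g => x g * ∏ t ∈ T, (f g - t)) * f -
          (fun g => (t : ℂ) * (x g * ∏ t ∈ T, (f g - t))) := by
      funext g
      rw [Finset.prod_insert ht, Pi.sub_apply, Pi.mul_apply]
      ring
    have v1 : Virt ((fun g => x g * ∏ t ∈ T, (f g - t)) * f) := virt_mul i1 hf
    have v2 : Virt (fun g => (t : ℂ) * (x g * ∏ t ∈ T, (f g - t))) := by
      have := virt_mul (virt_const (G := G) t) i1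
      exact this
    refine ⟨by rw [e1]; exact virt_sub v1 v2, ?_⟩
    rw [e1, DD_sub _ v1 v2, h0 _ i1, DD_zsmul _ i1, i2, Finset.prod_insert ht, smul_smul, zero_sub,
      ← neg_smul, neg_mul]

/-- an element killed by an integer prime to `p`, for each `p` -/
lemma zero_of_primes {b : B} (h : ∀ p : ℕ, p.Prime → ∃ N : ℤ, ¬ (p : ℤ) ∣ N ∧ N • b = 0) :
    b = 0 := by
  by_contra hb
  have h1 : addOrderOf b ≠ 1 := fun h1 => hb (AddMonoid.addOrderOf_eq_one_iff.mp h1)
  obtain ⟨p, hp, hd⟩ := Nat.exists_prime_and_dvd h1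
  obtain ⟨N, hN, hNb⟩ := h p hp
  apply hN
  have h2 : (addOrderOf b : ℤ) ∣ N := addOrderOf_dvd_iff_zsmul_eq_zero.mpr hNb
  exact (Int.natCast_dvd_natCast.mpr hd).trans h2

end ring

section solomon

variable {G : Type} [Group G] [Finite G]

/-- extensions of hyperelementary groups by central subgroups -/
lemma an_of_central {Z : Subgroup G} [Z.Normal] (hZ : Z ≤ Subgroup.center G) {p : ℕ}
    (hp : p.Prime) (S : Subgroup (G ⧸ Z)) (hS : HypP p S) :
    AN (S.comap (QuotientGroup.mk' Z)) := by
  obtain ⟨c, -, hn, hpw⟩ := hS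
  obtain ⟨g₀, hg₀⟩ := QuotientGroup.mk_surjective (c : G ⧸ Z)
  let U := S.comap (QuotientGroup.mk' Z)
  have hU : ∀ u : U, ((u : G) : G ⧸ Z) ∈ S := fun u => u.2
  let π : U →* G ⧸ Z := (QuotientGroup.mk' Z).comp U.subtype
  let A : Subgroup U := (Subgroup.zpowers (c : G ⧸ Z)).comap π
  have hA : ∀ u : U, u ∈ A ↔ ∃ k : ℤ, (c : G ⧸ Z) ^ k = ((u : G) : G ⧸ Z) := by
    intro u
    change π u ∈ Subgroup.zpowers (c : G ⧸ Z) ↔ _
    rw [Subgroup.mem_zpowers_iff]
    rfl
  have hform : ∀ u : U, u ∈ A → ∃ (k : ℤ) (z : G), z ∈ Z ∧ (u : G) = g₀ ^ k * z := by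
    intro u hu
    obtain ⟨k, hk⟩ := (hA u).mp hu
    refine ⟨k, (g₀ ^ k)⁻¹ * u, ?_, by group⟩
    rw [← QuotientGroup.eq_one_iff, QuotientGroup.mk_mul, QuotientGroup.mk_inv,
      QuotientGroup.mk_zpow, hg₀, hk, inv_mul_cancel]
  have hAn : A.Normal := by
    refine ⟨fun a ha u => ?_⟩
    obtain ⟨k, hk⟩ := (hA a).mp ha
    obtain ⟨l, hl⟩ := hn ⟨((u : G) : G ⧸ Z), hU u⟩
    rw [hA]
    refine ⟨l * k, ?_⟩
    have h1 : (c : G ⧸ Z) ^ l = ((u : G) : G ⧸ Z) * c * (((u : G) : G ⧸ Z))⁻¹ := by
      have := congrArg Subtype.val hl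
      simpa using this
    rw [zpow_mul, h1, conj_zpow, hk]
    rfl
  refine ⟨A, hAn, ?_, ?_⟩
  · intro a ha b hb
    obtain ⟨k, z, hz, e1⟩ := hform a ha
    obtain ⟨l, w, hw, e2⟩ := hform b hb
    apply Subtype.ext
    rw [Subgroup.coe_mul, Subgroup.coe_mul, e1, e2]
    have c1 := fun g => Subgroup.mem_center_iff.mp (hZ hz) g
    have c2 := fun g => Subgroup.mem_center_iff.mp (hZ hw) g
    calc g₀ ^ k * z * (g₀ ^ l * w) = g₀ ^ k * (z * (g₀ ^ l * w)) := by rw [mul_assoc]
      _ = g₀ ^ k * (g₀ ^ l * w * z) := by rw [c1]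
      _ = g₀ ^ k * g₀ ^ l * (w * z) := by simp only [mul_assoc]
      _ = g₀ ^ l * g₀ ^ k * (z * w) := by rw [c2 z, ← zpow_add, ← zpow_add, add_comm]
      _ = g₀ ^ l * (g₀ ^ k * z * w) := by simp only [mul_assoc]
      _ = g₀ ^ l * (w * (g₀ ^ k * z)) := by rw [c2]
      _ = g₀ ^ l * w * (g₀ ^ k * z) := by simp only [mul_assoc]
  · have : Fact p.Prime := ⟨hp⟩
    have hP : IsPGroup p (U ⧸ A) := by
      intro q
      induction q using QuotientGroup.induction_on with
      | H u =>
        obtain ⟨k, hk⟩ := hpw ⟨((u : G) : G ⧸ Z), hU u⟩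
        refine ⟨k, ?_⟩
        rw [← QuotientGroup.mk_pow]
        refine (QuotientGroup.eq_one_iff _).mpr ?_
        rw [hA]
        obtain ⟨l, hl⟩ := hk
        refine ⟨l, ?_⟩
        have := congrArg Subtype.val hl
        simpa using this
    exact hP.isNilpotent

variable {B : Type} [AddCommGroup B] {δ : (G → ℂ) → B}

/-- **Induction theorem.** A functional on the virtual characters of `G` vanishes if it vanishes on
all characters induced from virtual characters, restricted from `G`, of the abelian-by-nilpotent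
subgroups containing the central subgroup `Z`. -/
theorem solomon {Z : Subgroup G} (hZ : Z ≤ Subgroup.center G)
    (hloc : ∀ L : Subgroup G, Z ≤ L → AN L → ∀ x : G → ℂ, Virt x →
      DD δ L.subtype (fun l => x l) = 0) : ∀ χ ∈ Irr G, δ χ = 0 := by
  classical
  have : Fintype G := Fintype.ofFinite G
  have hZn : Z.Normal := ⟨fun z hz g => by
    rw [Subgroup.mem_center_iff.mp (hZ hz) g, mul_inv_cancel_right]
    exact hz⟩
  intro χ hχ
  rw [← DD_id (δ := δ) hχ]
  apply zero_of_primes
  intro p hp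
  obtain ⟨F, ⟨X, _, _, hX, hF⟩, hFp⟩ := exists_all_prime_to (G := G ⧸ Z) hp
  let _ : MulAction G X := MulAction.compHom X (QuotientGroup.mk' Z)
  have hact : ∀ (g : G) (s : X), g • s = (g : G ⧸ Z) • s := fun g s => rfl
  have hst : ∀ s : X, stabilizer G s = (stabilizer (G ⧸ Z) s).comap (QuotientGroup.mk' Z) := by
    intro s
    ext g
    rw [Subgroup.mem_comap, mem_stabilizer_iff, mem_stabilizer_iff, hact]
    rfl
  have hZst : ∀ s : X, Z ≤ stabilizer G s := by
    intro s z hz
    rw [mem_stabilizer_iff, hact, (QuotientGroup.eq_one_iff z).mpr hz, one_smul]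
  have hANst : ∀ s : X, AN (stabilizer G s) := by
    intro s
    rw [hst]
    exact an_of_central hZ hp _ (hX s)
  let f : G → ℂ := fun g => (Nat.card {s : X // g • s = s} : ℂ)
  have hf : Virt f := virt_perm
  have hfF : ∀ g : G, f g = ((F (g : G ⧸ Z) : ℤ) : ℂ) := by
    intro g
    rw [hF]
    push_cast
    rfl
  have h0 : ∀ x : G → ℂ, Virt x → DD δ (MonoidHom.id G) (x * f) = 0 := by
    intro x hx
    exact DD_perm hx (fun s => hloc _ (hZst s) (hANst s) x hx)
  let T : Finset ℤ := Finset.univ.image (fun g : G => (F (g : G ⧸ Z) : ℤ))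
  refine ⟨∏ t ∈ T, (-t), ?_, ?_⟩
  · intro hd
    rw [Prime.dvd_finsetProd_iff (Nat.prime_iff_prime_int.mp hp)] at hd
    obtain ⟨t, ht, hd⟩ := hd
    obtain ⟨g, -, rfl⟩ := Finset.mem_image.mp ht
    rw [dvd_neg] at hd
    exact hFp _ (Int.natCast_dvd_natCast.mp hd)
  · have h1 := (DD_prod hf h0 T χ (virt_irr hχ)).2
    rw [← h1]
    have h2 : (fun g => χ g * ∏ t ∈ T, (f g - t)) = 0 := by
      funext g
      have h3 : ∏ t ∈ T, (f g - t) = 0 := by
        refine Finset.prod_eq_zero (Finset.mem_image_of_mem _ (Finset.mem_univ g)) ?_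
        rw [hfF, sub_self]
      rw [h3, mul_zero]
      rfl
    rw [h2]
    unfold DD
    refine Finset.sum_eq_zero fun φ _ => ?_
    rw [pr_zero_left]
    have : fl 0 = 0 := by
      have := fl_int 0
      simpa using this
    rw [this, zero_smul]

end solomon

end Pool.Agent.Q7.DC
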