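import Mathlib
import Pool.Agent.Q7.DC.Slm

/-!
# Avoiding a set of irreducible characters: tools
-/

set_option autoImplicit false
set_option linter.unusedSectionVars false

namespace Pool.Agent.Q7.DC

open Pool.Agent.H302R2 Pool.Agent.H302R3 Pool.Agent.H541R3.ART Pool.Agent.W446.AS
  Pool.Agent.Q7.SZ MulAction

variable {G : Type} [Group G] [Finite G] {B : Type} [AddCommGroup B] {δ : (G → ℂ) → B}
  {K L : Type} [Group K] [Finite K] [Group L] [Finite L]

/-- the virtual character with the multiplicities of an induced character -/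
noncomputable def up (κ : K →* L) (ψ : K → ℂ) : L → ℂ :=
  ∑ φ ∈ irrF L, (pr ψ (fun k => φ (κ k)) • φ : L → ℂ)

lemma virt_up (κ : K →* L) {ψ : K → ℂ} (hψ : Virt ψ) : Virt (up κ ψ) := by
  unfold up Virt
  refine AddSubgroup.sum_mem _ fun φ hφ => ?_
  obtain ⟨k, hk⟩ := vpr_int hψ ((virt_irr (mem_irrF.mp hφ)).comp κ)
  rw [hk]
  have h1 : ((k : ℂ) • φ : L → ℂ) = k • φ := by
    funext l
    rw [Pi.smul_apply, Pi.smul_apply, smul_eq_mul, zsmul_eq_mul]
  rw [h1]
  exact AddSubgroup.zsmul_mem _ (virt_irr (mem_irrF.mp hφ)) k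

lemma pr_up (κ : K →* L) {ψ : K → ℂ} {θ : L → ℂ} (hθ : Virt θ) :
    pr (up κ ψ) θ = pr ψ (fun k => θ (κ k)) := by
  unfold up
  rw [pr_sum_left]
  have h1 : (fun k => θ (κ k)) = ∑ φ ∈ irrF L, (pr θ φ • (fun k => φ (κ k)) : K → ℂ) := by
    funext k
    rw [Finset.sum_apply (a := k) (s := irrF L) (g := fun φ => (pr θ φ • (fun k => φ (κ k)) : K → ℂ))]
    simp only [Pi.smul_apply, smul_eq_mul]
    exact hθ.expand (κ k)
  rw [h1, pr_comm ψ, pr_sum_left]
  refine Finset.sum_congr rfl fun φ _ => ?_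
  rw [pr_smul_left, pr_smul_left, pr_comm φ θ, pr_comm ψ]
  ring

lemma DD_up (ι : L →* G) (κ : K →* L) {ψ : K → ℂ} :
    DD δ ι (up κ ψ) = DD δ (ι.comp κ) ψ := by
  unfold DD
  refine Finset.sum_congr rfl fun χ hχ => ?_
  rw [pr_up κ ((virt_irr (mem_irrF.mp hχ)).comp ι)]
  rfl

/-- the functional `χ ↦ ⟨χ, z⟩ c` -/
lemma DD_lin (ι : K →* G) {z : G → ℂ} (hz : Virt z) (c : B) {y : K → ℂ} (hy : Virt y) :
    DD (fun χ => fl (pr χ z) • c) ι y = fl (pr y (fun k => z (ι k))) • c := by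
  unfold DD
  simp_rw [smul_smul]
  rw [← Finset.sum_smul]
  congr 1
  symm
  apply fl_eq
  rw [← pr_up ι (ψ := y) hz, pr_expand (virt_up ι hy)]
  push_cast
  refine Finset.sum_congr rfl fun χ hχ => ?_
  rw [fl_coe hy ((virt_irr (mem_irrF.mp hχ)).comp ι), fl_coe (virt_irr (mem_irrF.mp hχ)) hz,
    pr_up ι (virt_irr (mem_irrF.mp hχ))]

lemma DD_sub_left (δ' : (G → ℂ) → B) (ι : K →* G) (y : K → ℂ) :
    DD (fun χ => δ χ - δ' χ) ι y = DD δ ι y - DD δ' ι y := by
  unfold DD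
  rw [← Finset.sum_sub_distrib]
  refine Finset.sum_congr rfl fun χ _ => ?_
  rw [smul_sub]

/-- the values on a larger group determine those on a smaller one -/
lemma Kills.step {Z : Subgroup G} {S : Set (G → ℂ)} (h : Kills Z S δ) (hZc : Z ≤ Subgroup.center G)
    (hS : S ⊆ Irr G) (ι : L →* G) (hι : Function.Injective ι) (hZ : Z ≤ ι.range) (hL : AN L)
    (T : Finset (L → ℂ)) (hT : T ⊆ irrF L)
    (hb : ∀ φ ∈ Irr L, φ ∉ T → ∀ ζ ∈ S, pr φ (fun k => ζ (ι k)) = 0)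
    (κ : K →* L) {ψ : K → ℂ} (hψ : Virt ψ) :
    DD δ (ι.comp κ) ψ = ∑ φ ∈ T, fl (pr ψ (fun k => φ (κ k))) • DD δ ι φ := by
  rw [← DD_up, h.bad hZc hS ι hι hZ hL T hT hb (virt_up κ hψ)]
  refine Finset.sum_congr rfl fun φ hφ => ?_
  rw [pr_up κ (virt_irr (mem_irrF.mp (hT hφ)))]

/-- `δ` may be changed on `S` -/
lemma Kills.congr {Z : Subgroup G} {S : Set (G → ℂ)} {δ' : (G → ℂ) → B} (h : Kills Z S δ)
    (hd : ∀ χ ∈ Irr G, χ ∉ S → δ' χ = δ χ) : Kills Z S δ' := by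
  intro H hZ hs ψ hψ
  rw [← h H hZ hs ψ hψ]
  unfold DD
  refine Finset.sum_congr rfl fun χ hχ => ?_
  by_cases hχS : χ ∈ S
  · have h1 := hψ χ hχS
    have h2 : (fun k : H => χ (H.subtype k)) = fun k : H => χ k := rfl
    have h3 : fl (pr (lc ψ) (fun k : H => χ (H.subtype k))) = 0 := by
      apply fl_eq
      rw [h2, h1]
      norm_num
    rw [h3, zero_smul, zero_smul]
  · rw [hd χ (mem_irrF.mp hχ) hχS]

/-- Every irreducible character outside `S` is an integral combination of characters induced from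
linear characters, orthogonal to `S`, of solvable subgroups containing `Z`. -/
def Avoid (Z : Subgroup G) (S : Set (G → ℂ)) : Prop :=
  ∀ (B : Type) [AddCommGroup B] (δ : (G → ℂ) → B), Kills Z S δ →
    ∀ χ ∈ Irr G, χ ∉ S → δ χ = 0

/-- `p`-groups times a central subgroup -/
lemma an_sup_p {Z : Subgroup G} (hZ : Z ≤ Subgroup.center G) {p : ℕ} [hp : Fact p.Prime]
    (P : Subgroup G) (hP : IsPGroup p P) : AN (P ⊔ Z : Subgroup G) := by
  have hZn : Z.Normal := ⟨fun z hz g => by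
    rw [Subgroup.mem_center_iff.mp (hZ hz) g, mul_inv_cancel_right]
    exact hz⟩
  let R : Subgroup G := P ⊔ Z
  let A : Subgroup R := Z.subgroupOf R
  have hA : ∀ a : R, a ∈ A ↔ (a : G) ∈ Z := fun a => Subgroup.mem_subgroupOf
  refine ⟨A, ?_, ?_, ?_⟩
  · exact inferInstance
  · intro a ha b _
    apply Subtype.ext
    exact (Subgroup.mem_center_iff.mp (hZ ((hA a).mp ha)) b).symm
  · have hP' : IsPGroup p (R ⧸ A) := by
      intro q
      induction q using QuotientGroup.induction_on with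
      | H u =>
        obtain ⟨x, hx, z, hz, hxz⟩ := Subgroup.mem_sup_of_normal_right.mp u.2
        obtain ⟨k, hk⟩ := hP ⟨x, hx⟩
        refine ⟨k, ?_⟩
        rw [← QuotientGroup.mk_pow]
        refine (QuotientGroup.eq_one_iff _).mpr ?_
        rw [hA, Subgroup.coe_pow, ← hxz]
        have hc : Commute x z := Subgroup.mem_center_iff.mp (hZ hz) x
        rw [hc.mul_pow]
        have h1 : x ^ p ^ k = 1 := by
          have := congrArg Subtype.val hk
          simpa using this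
        rw [h1, one_mul]
        exact pow_mem hz _
    exact hP'.isNilpotent

/-- cyclic groups times a central subgroup -/
lemma an_sup_z {Z : Subgroup G} (hZ : Z ≤ Subgroup.center G) (g : G) :
    AN (Subgroup.zpowers g ⊔ Z : Subgroup G) := by
  have hZn : Z.Normal := ⟨fun z hz g => by
    rw [Subgroup.mem_center_iff.mp (hZ hz) g, mul_inv_cancel_right]
    exact hz⟩
  apply AN.of_comm
  rintro ⟨a, ha⟩ ⟨b, hb⟩
  obtain ⟨x, ⟨k, rfl⟩, z, hz, rfl⟩ := Subgroup.mem_sup_of_normal_right.mp ha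
  obtain ⟨y, ⟨l, rfl⟩, w, hw, rfl⟩ := Subgroup.mem_sup_of_normal_right.mp hb
  apply Subtype.ext
  change g ^ k * z * (g ^ l * w) = g ^ l * w * (g ^ k * z)
  have c1 := fun g => Subgroup.mem_center_iff.mp (hZ hz) g
  have c2 := fun g => Subgroup.mem_center_iff.mp (hZ hw) g
  calc g ^ k * z * (g ^ l * w) = g ^ k * (z * (g ^ l * w)) := by rw [mul_assoc]
    _ = g ^ k * (g ^ l * w * z) := by rw [c1]
    _ = g ^ k * g ^ l * (w * z) := by simp only [mul_assoc]
    _ = g ^ l * g ^ k * (z * w) := by rw [c2 z, ← zpow_add, ← zpow_add, add_comm]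
    _ = g ^ l * (g ^ k * z * w) := by simp only [mul_assoc]
    _ = g ^ l * (w * (g ^ k * z)) := by rw [c2]
    _ = g ^ l * w * (g ^ k * z) := by simp only [mul_assoc]

/-- the `q`-part of an element outside the kernel of a linear character -/
lemma exists_qpart (l : G →* ℂˣ) (x : G) {q : ℕ} (hq : q.Prime) (hd : q ∣ orderOf (l x)) :
    ∃ m : ℕ, (∃ k : ℕ, (x ^ m) ^ q ^ k = 1) ∧ l (x ^ m) ≠ 1 := by
  have hpos : 0 < orderOf x := orderOf_pos x
  obtain ⟨a, m, hm, ham⟩ := Nat.exists_eq_pow_mul_and_not_dvd hpos.ne' q hq.ne_one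
  refine ⟨m, ⟨a, ?_⟩, ?_⟩
  · rw [← pow_mul, mul_comm m, ← ham, pow_orderOf_eq_one]
  · intro h
    rw [map_pow] at h
    exact hm (hd.trans (orderOf_dvd_of_pow_eq_one h))

/-- an element of `q`-power order in a Sylow subgroup -/
lemma exists_sylow_mem {q : ℕ} [hq : Fact q.Prime] {x : G} (hx : ∃ k : ℕ, x ^ q ^ k = 1) :
    ∃ P : Sylow q G, x ∈ P := by
  obtain ⟨k, hk⟩ := hx
  have h1 : IsPGroup q (Subgroup.zpowers x) := by
    rintro ⟨y, l, rfl⟩
    refine ⟨k, ?_⟩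
    apply Subtype.ext
    change (x ^ l) ^ q ^ k = 1
    rw [← zpow_natCast, ← zpow_mul, mul_comm, zpow_mul, zpow_natCast, hk, one_zpow]
  obtain ⟨P, hP⟩ := h1.exists_le_sylow
  exact ⟨P, hP (Subgroup.mem_zpowers x)⟩

/-- elements of `q`-power order are conjugate into a given Sylow subgroup -/
lemma exists_conj_mem {q : ℕ} [Fact q.Prime] (P : Sylow q G) {x : G}
    (hx : ∃ k : ℕ, x ^ q ^ k = 1) : ∃ g : G, g * x * g⁻¹ ∈ P := by
  obtain ⟨Q, hQ⟩ := exists_sylow_mem hx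
  obtain ⟨g, hg⟩ := MulAction.exists_smul_eq G Q P
  refine ⟨g, ?_⟩
  rw [← hg]
  have h1 : g • (Q : Sylow q G) = g • Q := rfl
  change g * x * g⁻¹ ∈ ((g • Q : Sylow q G) : Subgroup G)
  rw [Sylow.coe_subgroup_smul]
  exact ⟨x, hQ, rfl⟩

end Pool.Agent.Q7.DC
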