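import Mathlib

/-!
# Elements inverted by a 2-element
-/

set_option autoImplicit false
set_option linter.unusedSectionVars false

namespace Pool.Agent.Q7.DC

/-- coprime action: if a `2`-power automorphism of a `q`-group, `q` odd, inverts a linear character,
some element outside its kernel is inverted -/
lemma exists_inverted {Q : Type} [Group Q] [Finite Q] {q : ℕ} [hqf : Fact q.Prime] (hq2 : q ≠ 2)
    (hQ : IsPGroup q Q) (τ : MulAut Q) (hτ : ∃ k : ℕ, τ ^ 2 ^ k = 1) (f : Q →* ℂˣ)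
    (hf : ∀ y, f (τ y) = (f y)⁻¹) {x : Q} (hx : f x ≠ 1) :
    ∃ y : Q, τ y = y⁻¹ ∧ f y ^ 2 ≠ 1 := by
  classical
  -- `f x` has odd order
  have hodd : ∀ n : ℕ, f x ^ 2 ^ n ≠ 1 := by
    intro n h
    apply hx
    obtain ⟨k, hk⟩ := hQ x
    have h1 : f x ^ q ^ k = 1 := by rw [← map_pow, hk, map_one]
    have h2 : orderOf (f x) ∣ 2 ^ n := orderOf_dvd_of_pow_eq_one h
    have h3 : orderOf (f x) ∣ q ^ k := orderOf_dvd_of_pow_eq_one h1
    have h4 : Nat.Coprime (2 ^ n) (q ^ k) := by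
      apply Nat.Coprime.pow
      rw [Nat.coprime_primes Nat.prime_two hqf.out]
      exact hq2.symm
    have h5 : orderOf (f x) ∣ 1 := by
      rw [← h4]
      exact Nat.dvd_gcd h2 h3
    exact orderOf_eq_one_iff.mp (Nat.dvd_one.mp h5)
  let Inv : Subgroup (MulAut Q) :=
    { carrier := {σ | ∀ y, f (σ y) = f y}
      mul_mem' := by
        intro a b ha hb y
        rw [MulAut.mul_apply, ha, hb]
      one_mem' := fun y => rfl
      inv_mem' := by
        intro a ha y
        rw [← ha (a⁻¹ y), MulAut.apply_inv_self] }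
  have hτ2 : τ ^ 2 ∈ Inv := by
    intro y
    rw [pow_two, MulAut.mul_apply, hf, hf, inv_inv]
  let C : Subgroup (MulAut Q) := Subgroup.zpowers (τ ^ 2)
  have hC : C ≤ Inv := by
    rw [Subgroup.zpowers_le]
    exact hτ2
  let Ω := {y : Q // f y = f x}
  let _ : MulAction C Ω :=
    { smul := fun c y => ⟨(c : MulAut Q) y.1, by rw [hC c.2]; exact y.2⟩
      one_smul := fun y => Subtype.ext rfl
      mul_smul := fun a b y => Subtype.ext rfl }
  have hact : ∀ (c : C) (y : Ω), ((c • y : Ω) : Q) = (c : MulAut Q) y.1 := fun c y => rfl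
  have hC2 : IsPGroup 2 C := by
    obtain ⟨k, hk⟩ := hτ
    rintro ⟨c, n, rfl⟩
    refine ⟨k, Subtype.ext ?_⟩
    change ((τ ^ 2) ^ n) ^ 2 ^ k = 1
    rw [← zpow_natCast ((τ ^ 2) ^ n), ← zpow_mul, mul_comm, zpow_mul, zpow_natCast, ← pow_mul,
      mul_comm 2, pow_mul, hk, one_pow, one_zpow]
  have hcard : ¬ 2 ∣ Nat.card Ω := by
    have e : Ω ≃ f.ker :=
      { toFun := fun y => ⟨x⁻¹ * y.1, by
          rw [MonoidHom.mem_ker, map_mul, map_inv, y.2, inv_mul_cancel]⟩
        invFun := fun z => ⟨x * z.1, by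
          have := z.2
          rw [MonoidHom.mem_ker] at this
          rw [map_mul, this, mul_one]⟩
        left_inv := fun y => Subtype.ext (by simp)
        right_inv := fun z => Subtype.ext (by simp) }
    rw [Nat.card_congr e]
    obtain ⟨n, hn⟩ := (hQ.to_subgroup f.ker).exists_card_eq
    rw [hn]
    intro hd
    have := Nat.Prime.dvd_of_dvd_pow Nat.prime_two hd
    exact hq2 ((Nat.prime_dvd_prime_iff_eq Nat.prime_two hqf.out).mp this).symm
  obtain ⟨y, hy⟩ := hC2.nonempty_fixed_point_of_prime_not_dvd_card Ω hcard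
  have h1 : τ (τ y.1) = y.1 := by
    have h2 := hy ⟨τ ^ 2, Subgroup.mem_zpowers _⟩
    have h3 : (τ ^ 2) y.1 = y.1 := congrArg Subtype.val h2
    rw [pow_two, MulAut.mul_apply] at h3
    exact h3
  refine ⟨y.1⁻¹ * τ y.1, ?_, ?_⟩
  · rw [map_mul, map_inv, h1, mul_inv_rev, inv_inv]
  · have h2 : f (y.1⁻¹ * τ y.1) = (f x ^ 2)⁻¹ := by
      rw [map_mul, hf, map_inv, y.2, pow_two, mul_inv]
    rw [h2, inv_pow, ← pow_mul]
    intro h
    rw [inv_eq_one] at h
    exact hodd 2 h

end Pool.Agent.Q7.DC
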