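import Mathlib
import Pool.Agent.Q7.DC.Avd

/-!
# Avoiding two linear characters
-/

set_option autoImplicit false
set_option linter.unusedSectionVars false

namespace Pool.Agent.Q7.DC

open Pool.Agent.H302R2 Pool.Agent.H302R3 Pool.Agent.H541R3.ART Pool.Agent.W446.AS
  Pool.Agent.Q7.SZ MulAction

section two

variable {G : Type} [Group G] [Finite G] {B : Type} [AddCommGroup B] {δ : (G → ℂ) → B}
  {Z : Subgroup G} {μ ν : G →* ℂˣ}
  {K L : Type} [Group K] [Finite K] [Group L] [Finite L]

/-- the value at the restriction of `μ` -/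
noncomputable def bt (δ : (G → ℂ) → B) (μ : G →* ℂˣ) (ι : K →* G) : B := DD δ ι (lc (μ.comp ι))

lemma bt_conj (ι : K →* G) (g : G) : bt δ μ ((MulAut.conj g).toMonoidHom.comp ι) = bt δ μ ι := by
  unfold bt
  rw [DD_conj]
  congr 1
  funext k
  change ((μ (g * ι k * g⁻¹) : ℂˣ) : ℂ) = ((μ (ι k) : ℂˣ) : ℂ)
  rw [map_mul, map_mul, mul_right_comm, ← map_mul, mul_inv_cancel, map_one, one_mul]

lemma pair_sub : ({lc μ, lc ν} : Set (G → ℂ)) ⊆ Irr G := by
  intro ζ hζ
  rcases hζ with rfl | hζ
  · exact lin_irr μ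
  · rw [Set.mem_singleton_iff.mp hζ]
    exact lin_irr ν

open Classical in
lemma pair_bad (ι : L →* G) : ∀ φ ∈ Irr L,
    φ ∉ ({lc (μ.comp ι), lc (ν.comp ι)} : Finset (L → ℂ)) →
    ∀ ζ ∈ ({lc μ, lc ν} : Set (G → ℂ)), pr φ (fun k => ζ (ι k)) = 0 := by
  intro φ hφ hn ζ hζ
  rw [Finset.mem_insert, Finset.mem_singleton, not_or] at hn
  rcases hζ with rfl | hζ
  · exact pr_ne hφ (lin_irr (μ.comp ι)) hn.1
  · rw [Set.mem_singleton_iff.mp hζ]
    exact pr_ne hφ (lin_irr (ν.comp ι)) hn.2

open Classical in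
lemma pair_irr (ι : L →* G) : ({lc (μ.comp ι), lc (ν.comp ι)} : Finset (L → ℂ)) ⊆ irrF L := by
  intro φ hφ
  rw [Finset.mem_insert, Finset.mem_singleton] at hφ
  rw [mem_irrF]
  rcases hφ with rfl | rfl
  · exact lin_irr _
  · exact lin_irr _

/-- the functional on a good subgroup where the characters differ -/
lemma val_ne (hk : Kills Z {lc μ, lc ν} δ) (hZ : Z ≤ Subgroup.center G) (ι : L →* G)
    (hι : Function.Injective ι) (hr : Z ≤ ι.range) (hL : AN L) (hne : μ.comp ι ≠ ν.comp ι)
    {y : L → ℂ} (hy : Virt y) : DD δ ι y =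
      fl (pr y (lc (μ.comp ι))) • bt δ μ ι + fl (pr y (lc (ν.comp ι))) • bt δ ν ι := by
  classical
  rw [hk.bad hZ pair_sub ι hι hr hL _ (pair_irr ι) (pair_bad ι) hy, Finset.sum_pair (lc_ne hne)]
  rfl

/-- the functional on a good subgroup where the characters agree -/
lemma val_eq (hk : Kills Z {lc μ, lc ν} δ) (hZ : Z ≤ Subgroup.center G) (ι : L →* G)
    (hι : Function.Injective ι) (hr : Z ≤ ι.range) (hL : AN L) (he : μ.comp ι = ν.comp ι)
    {y : L → ℂ} (hy : Virt y) : DD δ ι y = fl (pr y (lc (μ.comp ι))) • bt δ μ ι := by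
  classical
  rw [hk.bad hZ pair_sub ι hι hr hL _ (pair_irr ι) (pair_bad ι) hy, he, Finset.pair_eq_singleton,
    Finset.sum_singleton]
  unfold bt
  rw [he]

lemma step_ne (hk : Kills Z {lc μ, lc ν} δ) (hZ : Z ≤ Subgroup.center G) (ι : L →* G)
    (hι : Function.Injective ι) (hr : Z ≤ ι.range) (hL : AN L) (κ : K →* L)
    (hne : μ.comp (ι.comp κ) ≠ ν.comp (ι.comp κ)) :
    bt δ μ (ι.comp κ) = bt δ μ ι ∧ bt δ ν (ι.comp κ) = bt δ ν ι := by
  have hne' : μ.comp ι ≠ ν.comp ι := by
    intro h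
    apply hne
    rw [← MonoidHom.comp_assoc, ← MonoidHom.comp_assoc, h]
  have key : ∀ ψ : K → ℂ, Virt ψ → DD δ (ι.comp κ) ψ =
      fl (pr ψ (lc (μ.comp (ι.comp κ)))) • bt δ μ ι +
        fl (pr ψ (lc (ν.comp (ι.comp κ)))) • bt δ ν ι := by
    intro ψ hψ
    rw [← DD_up, val_ne hk hZ ι hι hr hL hne' (virt_up κ hψ), pr_up κ (virt_lc _),
      pr_up κ (virt_lc _)]
    rfl
  have e1 : fl (1 : ℂ) = 1 := by have := fl_int 1; simpa using this
  have e0 : fl (0 : ℂ) = 0 := by have := fl_int 0; simpa using this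
  constructor
  · have h := key _ (virt_lc (μ.comp (ι.comp κ)))
    rw [pr_lc_self, pr_lc_ne hne, e1, e0, one_smul, zero_smul, add_zero] at h
    exact h
  · have h := key _ (virt_lc (ν.comp (ι.comp κ)))
    rw [pr_lc_self, pr_lc_ne hne.symm, e1, e0, one_smul, zero_smul, zero_add] at h
    exact h

lemma step_add (hk : Kills Z {lc μ, lc ν} δ) (hZ : Z ≤ Subgroup.center G) (ι : L →* G)
    (hι : Function.Injective ι) (hr : Z ≤ ι.range) (hL : AN L) (κ : K →* L)
    (hne : μ.comp ι ≠ ν.comp ι) (he : μ.comp (ι.comp κ) = ν.comp (ι.comp κ)) :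
    bt δ μ (ι.comp κ) = bt δ μ ι + bt δ ν ι := by
  have e1 : fl (1 : ℂ) = 1 := by have := fl_int 1; simpa using this
  unfold bt
  rw [← DD_up, val_ne hk hZ ι hι hr hL hne (virt_up κ (virt_lc _)), pr_up κ (virt_lc _),
    pr_up κ (virt_lc _)]
  have h1 : (fun k => lc (μ.comp ι) (κ k)) = lc (μ.comp (ι.comp κ)) := rfl
  have h2 : (fun k => lc (ν.comp ι) (κ k)) = lc (ν.comp (ι.comp κ)) := rfl
  rw [h1, h2, ← he, pr_lc_self, e1, one_smul, one_smul]
  rfl

lemma step_eq (hk : Kills Z {lc μ, lc ν} δ) (hZ : Z ≤ Subgroup.center G) (ι : L →* G)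
    (hι : Function.Injective ι) (hr : Z ≤ ι.range) (hL : AN L) (κ : K →* L)
    (he : μ.comp ι = ν.comp ι) :
    bt δ μ (ι.comp κ) = bt δ μ ι := by
  have e1 : fl (1 : ℂ) = 1 := by have := fl_int 1; simpa using this
  unfold bt
  rw [← DD_up, val_eq hk hZ ι hι hr hL he (virt_up κ (virt_lc _)), pr_up κ (virt_lc _)]
  have h1 : (fun k => lc (μ.comp ι) (κ k)) = lc (μ.comp (ι.comp κ)) := rfl
  rw [h1, pr_lc_self, e1, one_smul]
  rfl

lemma comp_sub_ne {H : Subgroup G} {x : G} (hx : x ∈ H) (h : μ x ≠ ν x) :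
    μ.comp H.subtype ≠ ν.comp H.subtype := by
  intro h2
  apply h
  have := congrArg (fun f : H →* ℂˣ => f ⟨x, hx⟩) h2
  exact this

/-- **Local theorem** for two linear characters. -/
theorem local_two (hk : Kills Z {lc μ, lc ν} δ) (hZ : Z ≤ Subgroup.center G) :
    ∃ c d : B, ∀ L : Subgroup G, Z ≤ L → AN L → ∀ y : L → ℂ, Virt y →
      DD δ L.subtype y = fl (pr y (lc (μ.comp L.subtype))) • c +
        fl (pr y (lc (ν.comp L.subtype))) • d := by
  classical
  have hrange : ∀ L : Subgroup G, Z ≤ L → Z ≤ L.subtype.range := by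
    intro L hL
    rw [Subgroup.range_subtype]
    exact hL
  have hinj : ∀ L : Subgroup G, Function.Injective L.subtype := fun L =>
    Subgroup.subtype_injective L
  have hsub : ∀ {U L : Subgroup G} (h : U ≤ L), U.subtype = L.subtype.comp (Subgroup.inclusion h) :=
    fun h => rfl
  have hZan : AN Z := AN.of_comm (fun a b => Subtype.ext
    (Subgroup.mem_center_iff.mp (hZ b.2) a))
  by_cases hμν : μ = ν
  · -- equal characters
    subst hμν
    refine ⟨bt δ μ Z.subtype, 0, fun L hL hAN y hy => ?_⟩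
    rw [smul_zero, add_zero, val_eq hk hZ L.subtype (hinj L) (hrange L hL) hAN rfl hy]
    rw [hsub hL, step_eq hk hZ L.subtype (hinj L) (hrange L hL) hAN _ rfl]
  by_cases hZne : μ.comp Z.subtype = ν.comp Z.subtype
  swap
  · -- different on the central subgroup
    refine ⟨bt δ μ Z.subtype, bt δ ν Z.subtype, fun L hL hAN y hy => ?_⟩
    have h1 := step_ne hk hZ L.subtype (hinj L) (hrange L hL) hAN (Subgroup.inclusion hL)
      (by rw [← hsub hL]; exact hZne)
    have h2 : μ.comp L.subtype ≠ ν.comp L.subtype := by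
      intro h
      apply hZne
      rw [hsub hL, ← MonoidHom.comp_assoc, ← MonoidHom.comp_assoc, h]
    rw [val_ne hk hZ L.subtype (hinj L) (hrange L hL) hAN h2 hy, hsub hL, h1.1, h1.2]
  · -- the main case
    let l : G →* ℂˣ := μ * ν⁻¹
    have hl : ∀ x, l x ≠ 1 ↔ μ x ≠ ν x := by
      intro x
      change μ x * (ν x)⁻¹ ≠ 1 ↔ _
      rw [Ne, mul_inv_eq_one]
    have hfin : Finite l.range := Finite.of_surjective l.rangeRestrict l.rangeRestrict_surjective
    obtain ⟨⟨_, ⟨g₀, rfl⟩⟩, hgen⟩ := IsCyclic.exists_generator (α := l.range)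
    have hgen' : ∀ x : G, ∃ k : ℤ, l g₀ ^ k = l x := by
      intro x
      obtain ⟨k, hk⟩ := hgen ⟨l x, ⟨x, rfl⟩⟩
      exact ⟨k, congrArg Subtype.val hk⟩
    have hord : ∀ x : G, orderOf (l x) ∣ orderOf (l g₀) := by
      intro x
      obtain ⟨k, hk⟩ := hgen' x
      exact orderOf_dvd_of_mem_zpowers ⟨k, hk⟩
    have hg₀ : l g₀ ≠ 1 := by
      intro h
      apply hμν
      ext x
      obtain ⟨k, hk⟩ := hgen' x
      rw [h, one_zpow] at hk
      by_contra hcon
      exact (hl x).mpr (fun h => hcon (by rw [h])) hk.symm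
    let W : Subgroup G := Subgroup.zpowers g₀ ⊔ Z
    have hWan : AN W := an_sup_z hZ g₀
    have hWne : μ.comp W.subtype ≠ ν.comp W.subtype :=
      comp_sub_ne (Subgroup.mem_sup_left (Subgroup.mem_zpowers g₀)) ((hl g₀).mp hg₀)
    have hWZ : Z ≤ W := le_sup_right
    -- the values on the subgroups where the characters differ
    have type1 : ∀ L : Subgroup G, Z ≤ L → AN L → μ.comp L.subtype ≠ ν.comp L.subtype →
        bt δ μ L.subtype = bt δ μ W.subtype ∧ bt δ ν L.subtype = bt δ ν W.subtype := by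
      intro L hL hAN hne
      have hx : ∃ x ∈ L, l x ≠ 1 := by
        by_contra hcon
        push Not at hcon
        apply hne
        ext x
        by_contra h2
        exact (hl x).mpr (fun h => h2 (congrArg Units.val h)) (hcon x x.2)
      obtain ⟨x, hxL, hx⟩ := hx
      have ho : orderOf (l x) ≠ 1 := fun h => hx (orderOf_eq_one_iff.mp h)
      obtain ⟨q, hq, hqd⟩ := Nat.exists_prime_and_dvd ho
      have hqf : Fact q.Prime := ⟨hq⟩
      obtain ⟨m, hm1, hm2⟩ := exists_qpart l x hq hqd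
      obtain ⟨m', hm1', hm2'⟩ := exists_qpart l g₀ hq (hqd.trans (hord x))
      obtain ⟨P, hP⟩ := exists_sylow_mem hm1'
      obtain ⟨g, hg⟩ := exists_conj_mem P hm1
      let R : Subgroup G := (P : Subgroup G) ⊔ Z
      have hRan : AN R := an_sup_p hZ _ P.isPGroup'
      have hRZ : Z ≤ R := le_sup_right
      -- the small subgroups
      let U : Subgroup G := Subgroup.zpowers (x ^ m) ⊔ Z
      let U' : Subgroup G := Subgroup.zpowers (g₀ ^ m') ⊔ Z
      have hUZ : Z ≤ U := le_sup_right
      have hUne : μ.comp U.subtype ≠ ν.comp U.subtype :=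
        comp_sub_ne (Subgroup.mem_sup_left (Subgroup.mem_zpowers _)) ((hl _).mp hm2)
      have hUne' : μ.comp U'.subtype ≠ ν.comp U'.subtype :=
        comp_sub_ne (Subgroup.mem_sup_left (Subgroup.mem_zpowers _)) ((hl _).mp hm2')
      have hUL : U ≤ L := sup_le (by
        rw [Subgroup.zpowers_le]; exact pow_mem hxL m) hL
      have hUW : U' ≤ W := sup_le (by
        rw [Subgroup.zpowers_le]
        exact Subgroup.mem_sup_left (pow_mem (Subgroup.mem_zpowers g₀) m')) hWZ
      have hUR : U' ≤ R := sup_le (by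
        rw [Subgroup.zpowers_le]
        exact Subgroup.mem_sup_left hP) hRZ
      have s1 := step_ne hk hZ L.subtype (hinj L) (hrange L hL) hAN (Subgroup.inclusion hUL)
        (by rw [← hsub hUL]; exact hUne)
      have s2 := step_ne hk hZ W.subtype (hinj W) (hrange W hWZ) hWan (Subgroup.inclusion hUW)
        (by rw [← hsub hUW]; exact hUne')
      have s3 := step_ne hk hZ R.subtype (hinj R) (hrange R hRZ) hRan (Subgroup.inclusion hUR)
        (by rw [← hsub hUR]; exact hUne')
      rw [← hsub hUL] at s1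
      rw [← hsub hUW] at s2
      rw [← hsub hUR] at s3
      -- conjugation into `R`
      have hconj : ∀ u : U, g * (u : G) * g⁻¹ ∈ R := by
        intro u
        have h1 : (U.map (MulAut.conj g).toMonoidHom) ≤ R := by
          rw [Subgroup.map_sup]
          refine sup_le ?_ ?_
          · rw [MonoidHom.map_zpowers, Subgroup.zpowers_le]
            exact Subgroup.mem_sup_left hg
          · rintro _ ⟨z, hz, rfl⟩
            have h2 : (MulAut.conj g).toMonoidHom z = z := by
              change g * z * g⁻¹ = z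
              rw [Subgroup.mem_center_iff.mp (hZ hz) g, mul_inv_cancel_right]
            rw [h2]
            exact hRZ hz
        exact h1 ⟨u, u.2, rfl⟩
      let κ : U →* R :=
        { toFun := fun u => ⟨g * (u : G) * g⁻¹, hconj u⟩
          map_one' := by
            apply Subtype.ext
            simp
          map_mul' := by
            intro a b
            apply Subtype.ext
            change g * ((a : G) * b) * g⁻¹ = (g * a * g⁻¹) * (g * b * g⁻¹)
            group }
      have hκ : R.subtype.comp κ = (MulAut.conj g).toMonoidHom.comp U.subtype := by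
        ext u
        rfl
      have hκne : μ.comp (R.subtype.comp κ) ≠ ν.comp (R.subtype.comp κ) := by
        intro h
        apply hUne
        ext u
        have h2 := congrArg (fun f : U →* ℂˣ => f u) h
        change μ (g * (u : G) * g⁻¹) = ν (g * (u : G) * g⁻¹) at h2
        rw [map_mul, map_mul, map_mul, map_mul, mul_right_comm, ← map_mul, mul_inv_cancel, map_one,
          one_mul, mul_right_comm, ← map_mul ν g, mul_inv_cancel, map_one, one_mul] at h2
        exact congrArg Units.val h2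
      have s4 := step_ne hk hZ R.subtype (hinj R) (hrange R hRZ) hRan κ hκne
      rw [hκ, bt_conj, bt_conj] at s4
      exact ⟨by rw [← s1.1, s4.1, ← s3.1, s2.1], by rw [← s1.2, s4.2, ← s3.2, s2.2]⟩
    refine ⟨bt δ μ W.subtype, bt δ ν W.subtype, fun L hL hAN y hy => ?_⟩
    by_cases hLe : μ.comp L.subtype = ν.comp L.subtype
    · rw [val_eq hk hZ L.subtype (hinj L) (hrange L hL) hAN hLe hy, ← hLe, ← smul_add]
      congr 1
      have h1 := step_eq hk hZ L.subtype (hinj L) (hrange L hL) hAN (Subgroup.inclusion hL) hLe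
      rw [← hsub hL] at h1
      have h2 := step_add hk hZ W.subtype (hinj W) (hrange W hWZ) hWan (Subgroup.inclusion hWZ)
        hWne (by rw [← hsub hWZ]; exact hZne)
      rw [← hsub hWZ] at h2
      rw [← h1, h2]
    · obtain ⟨h1, h2⟩ := type1 L hL hAN hLe
      rw [val_ne hk hZ L.subtype (hinj L) (hrange L hL) hAN hLe hy, h1, h2]

/-- **Avoidance of two linear characters.** -/
theorem avoid_two (hZ : Z ≤ Subgroup.center G) (μ ν : G →* ℂˣ) : Avoid Z {lc μ, lc ν} := by
  intro B _ δ hk χ hχ hχS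
  obtain ⟨c, d, hcd⟩ := local_two hk hZ
  have h1 := solomon (δ := fun χ => δ χ - (fun χ => fl (pr χ (lc μ)) • c) χ -
    (fun χ => fl (pr χ (lc ν)) • d) χ) hZ (by
      intro L hL hAN x hx
      have hx' : Virt (fun l : L => x l) := hx.comp L.subtype
      rw [DD_sub_left, DD_sub_left, DD_lin L.subtype (virt_lc μ) c hx',
        DD_lin L.subtype (virt_lc ν) d hx', hcd L hL hAN _ hx']
      have e1 : (fun k : L => lc μ (L.subtype k)) = lc (μ.comp L.subtype) := rfl
      have e2 : (fun k : L => lc ν (L.subtype k)) = lc (ν.comp L.subtype) := rfl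
      rw [e1, e2]
      abel) χ hχ
  have e0 : fl (0 : ℂ) = 0 := by have := fl_int 0; simpa using this
  have h2 : χ ≠ lc μ := fun h => hχS (Or.inl h)
  have h3 : χ ≠ lc ν := fun h => hχS (Or.inr h)
  simp only [pr_ne hχ (lin_irr μ) h2, pr_ne hχ (lin_irr ν) h3, e0, zero_smul, sub_zero] at h1
  exact h1

end two

end Pool.Agent.Q7.DC
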