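import Mathlib
import Pool.Agent.Q7.DC.Two
import Pool.Agent.Q7.DC.Inv

/-!
# Avoiding a dihedral character of degree two
-/

set_option autoImplicit false
set_option linter.unusedSectionVars false

namespace Pool.Agent.Q7.DC

open Pool.Agent.H302R2 Pool.Agent.H302R3 Pool.Agent.H541R3.ART Pool.Agent.W446.AS
  Pool.Agent.Q7.SZ MulAction

section basics

variable {G : Type} [Group G] [Finite G] {B : Type} [AddCommGroup B] {δ : (G → ℂ) → B}
  {K : Type} [Group K] [Finite K]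

/-- multiplicities of irreducible characters in restrictions -/
lemma pr_nat {χ : G → ℂ} (hχ : χ ∈ Irr G) (ι : K →* G) {φ : K → ℂ} (hφ : φ ∈ Irr K) :
    ∃ m : ℕ, pr (fun k => χ (ι k)) φ = m := by
  classical
  have : Fintype K := Fintype.ofFinite K
  obtain ⟨n, ρ, -, rfl⟩ := hχ
  obtain ⟨n', σ, -, rfl⟩ := hφ
  have hK : (Nat.card K : ℂ) ≠ 0 := card_ne
  have : Invertible (Nat.card K : ℂ) := invertibleOfNonzero hK
  have h := Representation.card_inv_mul_sum_char_mul_char_eq_finrank σ (ρ.comp ι)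
  refine ⟨Module.finrank ℂ (Representation.IntertwiningMap σ (ρ.comp ι)), ?_⟩
  rw [← h, pr_eq]
  rfl

lemma nilp_of_comm {U : Type} [Group U] (h : ∀ a b : U, a * b = b * a) : Group.IsNilpotent U := by
  let f : U →* Unit := 1
  refine Subgroup.isNilpotent_of_ker_le_center f ?_
  intro x _
  rw [Subgroup.mem_center_iff]
  intro g
  exact h g x

/-- abelian group extended by one element -/
def extz (A : Subgroup G) (v : G) (hv : ∀ a, a ∈ A ↔ v * a * v⁻¹ ∈ A) : Subgroup G where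
  carrier := {g | ∃ a ∈ A, ∃ k : ℤ, g = a * v ^ k}
  mul_mem' := by
    have hn : v ∈ Subgroup.normalizer (A : Set G) := Subgroup.mem_normalizer_iff.mpr hv
    rintro _ _ ⟨a, ha, k, rfl⟩ ⟨b, hb, l, rfl⟩
    refine ⟨a * (v ^ k * b * (v ^ k)⁻¹), ?_, k + l, ?_⟩
    · exact A.mul_mem ha ((Subgroup.mem_normalizer_iff.mp (zpow_mem hn k) b).mp hb)
    · rw [zpow_add]
      group
  one_mem' := ⟨1, A.one_mem, 0, by simp⟩
  inv_mem' := by
    have hn : v ∈ Subgroup.normalizer (A : Set G) := Subgroup.mem_normalizer_iff.mpr hv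
    rintro _ ⟨a, ha, k, rfl⟩
    refine ⟨v ^ (-k) * a⁻¹ * (v ^ (-k))⁻¹, ?_, -k, ?_⟩
    · exact (Subgroup.mem_normalizer_iff.mp (zpow_mem hn (-k)) a⁻¹).mp (A.inv_mem ha)
    · group

lemma an_extz (A : Subgroup G) (v : G) (hv : ∀ a, a ∈ A ↔ v * a * v⁻¹ ∈ A)
    (hA : ∀ a ∈ A, ∀ b ∈ A, a * b = b * a) : AN (extz A v hv) := by
  have hn : v ∈ Subgroup.normalizer (A : Set G) := Subgroup.mem_normalizer_iff.mpr hv
  have hAL : A ≤ extz A v hv := fun a ha => ⟨a, ha, 0, by simp⟩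
  have hvL : v ∈ extz A v hv := ⟨1, A.one_mem, 1, by simp⟩
  let A' : Subgroup (extz A v hv) := A.subgroupOf (extz A v hv)
  have hA' : ∀ u : extz A v hv, u ∈ A' ↔ (u : G) ∈ A := fun u => Subgroup.mem_subgroupOf
  have hN : A'.Normal := by
    refine ⟨fun a ha u => ?_⟩
    rw [hA'] at ha ⊢
    obtain ⟨b, hb, k, hu⟩ := u.2
    have h1 : ((u * a * u⁻¹ : extz A v hv) : G) = b * (v ^ k * a * (v ^ k)⁻¹) * b⁻¹ := by
      rw [Subgroup.coe_mul, Subgroup.coe_mul, Subgroup.coe_inv, hu]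
      group
    rw [h1]
    exact A.mul_mem (A.mul_mem hb ((Subgroup.mem_normalizer_iff.mp (zpow_mem hn k) a).mp ha))
      (A.inv_mem hb)
  refine ⟨A', hN, ?_, ?_⟩
  · intro a ha b hb
    apply Subtype.ext
    exact hA _ ((hA' a).mp ha) _ ((hA' b).mp hb)
  · apply nilp_of_comm
    have hform : ∀ x : (extz A v hv) ⧸ A', ∃ k : ℤ,
        x = ((⟨v, hvL⟩ : extz A v hv) : (extz A v hv) ⧸ A') ^ k := by
      intro x
      induction x using QuotientGroup.induction_on with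
      | H u =>
        obtain ⟨b, hb, k, hu⟩ := u.2
        refine ⟨k, ?_⟩
        have h1 : u = (⟨b, hAL hb⟩ : extz A v hv) * (⟨v, hvL⟩ : extz A v hv) ^ k := by
          apply Subtype.ext
          rw [hu]
          rfl
        have h2 : ((⟨b, hAL hb⟩ : extz A v hv) : (extz A v hv) ⧸ A') = 1 :=
          (QuotientGroup.eq_one_iff _).mpr ((hA' _).mpr hb)
        rw [h1, QuotientGroup.mk_mul, h2, one_mul, QuotientGroup.mk_zpow]
    intro x y
    obtain ⟨k, rfl⟩ := hform x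
    obtain ⟨m, rfl⟩ := hform y
    rw [← zpow_add, ← zpow_add, add_comm]

end basics

/-- the data of a dihedral character of degree two -/
structure DihChar {G : Type} [Group G] (χ₀ : G → ℂ) (D : G →* ℂˣ) (l : D.ker →* ℂˣ) : Prop where
  irr : χ₀ ∈ Irr G
  det : ∀ g, ((D g : ℂˣ) : ℂ) = dd χ₀ g
  sq : D * D = 1
  ne : D ≠ 1
  zero : ∀ g, D g ≠ 1 → χ₀ g = 0
  lne : l ≠ l⁻¹
  val : ∀ x : D.ker, χ₀ x = ((l x : ℂˣ) : ℂ) + (((l x)⁻¹ : ℂˣ) : ℂ)

namespace DihChar

variable {G : Type} [Group G] [Finite G] {χ₀ : G → ℂ} {D : G →* ℂˣ} {l : D.ker →* ℂˣ}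
  {Z : Subgroup G} {B : Type} [AddCommGroup B] {δ : (G → ℂ) → B}
  {K : Type} [Group K] [Finite K]

lemma sqker (h : DihChar χ₀ D l) (t : G) : t * t ∈ D.ker := by
  have := congrArg (fun f : G →* ℂˣ => f t) h.sq
  rw [MonoidHom.mem_ker, map_mul]
  exact this

lemma neg_one (h : DihChar χ₀ D l) {t : G} (ht : D t ≠ 1) : ((D t : ℂˣ) : ℂ) = -1 := by
  have h1 := congrArg (fun f : G →* ℂˣ => ((f t : ℂˣ) : ℂ)) h.sq
  have h2 : ((D t : ℂˣ) : ℂ) * ((D t : ℂˣ) : ℂ) = 1 := h1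
  rcases mul_self_eq_one_iff.mp h2 with h3 | h3
  · exact absurd (Units.ext h3) ht
  · exact h3

/-- squares of the elements outside the kernel are killed -/
lemma lsq (h : DihChar χ₀ D l) {t : G} (ht : D t ≠ 1) : l ⟨t * t, h.sqker t⟩ = 1 := by
  have h1 := h.det t
  rw [h.neg_one ht, dd, h.zero t ht, pow_two t] at h1
  set a := l ⟨t * t, h.sqker t⟩ with ha
  have h2 := h.val ⟨t * t, h.sqker t⟩
  rw [← ha] at h2
  change χ₀ (t * t) = _ at h2
  rw [h2] at h1
  have ha0 : ((a : ℂˣ) : ℂ) ≠ 0 := a.ne_zero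
  rw [Units.val_inv_eq_inv_val] at h1
  have h3 : (((a : ℂˣ) : ℂ) - 1) ^ 2 = 0 := by
    have h4 : ((a : ℂˣ) : ℂ) + ((a : ℂˣ) : ℂ)⁻¹ = 2 := by linear_combination 2 * h1
    have h5 : ((a : ℂˣ) : ℂ) * ((a : ℂˣ) : ℂ)⁻¹ = 1 := mul_inv_cancel₀ ha0
    linear_combination ((a : ℂˣ) : ℂ) * h4 - h5
  have h4 := pow_eq_zero_iff (two_ne_zero) |>.mp h3
  exact Units.ext (sub_eq_zero.mp h4)

lemma kconj (t : G) (x : D.ker) : t * x * t⁻¹ ∈ D.ker := by
  rw [MonoidHom.mem_ker, map_mul, map_mul, MonoidHom.mem_ker.mp x.2, mul_one, ← map_mul,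
    mul_inv_cancel, map_one]

/-- conjugation by an element outside the kernel inverts `l` -/
lemma linv (h : DihChar χ₀ D l) {t : G} (ht : D t ≠ 1) (x : D.ker) :
    l ⟨t * x * t⁻¹, kconj t x⟩ = (l x)⁻¹ := by
  have h1 : D (x * t) ≠ 1 := by
    rw [map_mul, MonoidHom.mem_ker.mp x.2, one_mul]
    exact ht
  have h2 := h.lsq h1
  have h3 : (⟨x * t * (x * t), h.sqker (x * t)⟩ : D.ker) =
      x * ⟨t * x * t⁻¹, kconj t x⟩ * ⟨t * t, h.sqker t⟩ := by
    apply Subtype.ext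
    change (x : G) * t * (x * t) = x * (t * x * t⁻¹) * (t * t)
    group
  rw [h3, map_mul, map_mul, h.lsq ht, mul_one] at h2
  exact eq_inv_of_mul_eq_one_right h2

lemma deg (h : DihChar χ₀ D l) : χ₀ 1 = 2 := by
  have := h.val 1
  rw [map_one] at this
  change χ₀ 1 = _ at this
  rw [this, inv_one, Units.val_one]
  norm_num

lemma zle (h : DihChar χ₀ D l) (hZ : Z ≤ Subgroup.center G) : Z ≤ D.ker := by
  intro z hz
  by_contra hcon
  have h1 : D z ≠ 1 := hcon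
  obtain ⟨ω, hω⟩ := irr_central h.irr hZ
  have h2 := hω 1 ⟨z, hz⟩
  rw [one_mul, h.deg] at h2
  change χ₀ z = _ at h2
  rw [h.zero z h1] at h2
  have h3 : ((ω ⟨z, hz⟩ : ℂˣ) : ℂ) ≠ 0 := (ω ⟨z, hz⟩).ne_zero
  apply h3
  linear_combination -h2 / 2

/-- restriction to the kernel of the determinant -/
def res (D : G →* ℂˣ) (ι : K →* G) : (D.comp ι).ker →* D.ker where
  toFun x := ⟨ι (x : K), x.2⟩
  map_one' := Subtype.ext (map_one ι)
  map_mul' a b := Subtype.ext (map_mul ι (a : K) (b : K))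

/-- the pairing with the dihedral character -/
lemma pairing (h : DihChar χ₀ D l) (ι : K →* G) {v : K} (hv : D (ι v) ≠ 1) {θ : K → ℂ}
    (hθ : ∀ g x, θ (x * g * x⁻¹) = θ g) :
    pr (fun k => χ₀ (ι k)) θ = pr (lc (l.comp (res D ι))) (fun k => θ k) ∧
    pr (fun k => χ₀ (ι k)) θ = pr (lc (l⁻¹.comp (res D ι))) (fun k => θ k) := by
  classical
  have : Fintype K := Fintype.ofFinite K
  let K0 := (D.comp ι).ker
  have : Fintype K0 := Fintype.ofFinite K0
  have hc : (Nat.card K : ℂ) = 2 * Nat.card K0 := by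
    have h1 := Subgroup.card_mul_index K0
    have h2 : K0.index = 2 := by
      rw [Subgroup.index_eq_two_iff]
      refine ⟨v, fun b => ?_⟩
      by_cases hb : b ∈ K0
      · right
        refine ⟨hb, fun hcon => hv ?_⟩
        have e1 : D (ι (b * v)) = 1 := hcon
        rw [map_mul, map_mul] at e1
        have e2 : D (ι b) = 1 := hb
        rwa [e2, one_mul] at e1
      · left
        refine ⟨?_, hb⟩
        change D (ι (b * v)) = 1
        apply Units.ext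
        rw [map_mul, map_mul, Units.val_mul, h.neg_one hv, h.neg_one hb]
        norm_num
    rw [h2] at h1
    rw [← h1]
    push_cast
    ring
  have hs : ∑ k : K, χ₀ (ι k) * θ k⁻¹ = ∑ k : K0, χ₀ (ι k) * θ (k : K)⁻¹ := by
    rw [← Finset.sum_subtype (Finset.univ.filter fun k => k ∈ K0) (by simp)
      (fun k => χ₀ (ι k) * θ k⁻¹), Finset.sum_filter]
    refine Finset.sum_congr rfl fun k _ => ?_
    by_cases hk : k ∈ K0
    · rw [if_pos hk]
    · rw [if_neg hk, h.zero _ hk, zero_mul]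
  have hval : ∀ k : K0, χ₀ (ι k) = lc (l.comp (res D ι)) k + lc (l⁻¹.comp (res D ι)) k := by
    intro k
    exact h.val (res D ι k)
  -- conjugation
  let e : K0 ≃ K0 :=
    { toFun := fun k => ⟨v * k * v⁻¹, (MonoidHom.normal_ker (D.comp ι)).conj_mem k k.2 v⟩
      invFun := fun k => ⟨v⁻¹ * k * v, by
        have := (MonoidHom.normal_ker (D.comp ι)).conj_mem k k.2 v⁻¹
        rwa [inv_inv] at this⟩
      left_inv := fun k => Subtype.ext (by simp [mul_assoc])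
      right_inv := fun k => Subtype.ext (by simp [mul_assoc]) }
  have hsw : ∑ k : K0, lc (l⁻¹.comp (res D ι)) k * θ (k : K)⁻¹ =
      ∑ k : K0, lc (l.comp (res D ι)) k * θ (k : K)⁻¹ := by
    rw [← Equiv.sum_comp e (fun k => lc (l.comp (res D ι)) k * θ (k : K)⁻¹)]
    refine Finset.sum_congr rfl fun k _ => ?_
    have e1 : ((e k : K0) : K)⁻¹ = v * (k : K)⁻¹ * v⁻¹ := by
      change (v * (k : K) * v⁻¹)⁻¹ = _
      group
    rw [e1, hθ]
    congr 1
    have e2 := h.linv hv (res D ι k)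
    have e3 : res D ι (e k) = ⟨ι v * (res D ι k : G) * (ι v)⁻¹, kconj (ι v) (res D ι k)⟩ := by
      apply Subtype.ext
      change ι (v * (k : K) * v⁻¹) = ι v * ι k * (ι v)⁻¹
      rw [map_mul, map_mul, map_inv]
    change (((l (res D ι k))⁻¹ : ℂˣ) : ℂ) = ((l (res D ι (e k)) : ℂˣ) : ℂ)
    rw [e3, e2]
  have hK0 : (Nat.card K0 : ℂ) ≠ 0 := card_ne
  have htot : ∑ k : K, χ₀ (ι k) * θ k⁻¹ =
      2 * ∑ k : K0, lc (l.comp (res D ι)) k * θ (k : K)⁻¹ := by
    rw [hs]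
    have e1 : ∀ k : K0, χ₀ (ι k) * θ (k : K)⁻¹ = lc (l.comp (res D ι)) k * θ (k : K)⁻¹ +
        lc (l⁻¹.comp (res D ι)) k * θ (k : K)⁻¹ := by
      intro k
      rw [hval]
      ring
    rw [Finset.sum_congr rfl (fun k _ => e1 k), Finset.sum_add_distrib, hsw]
    ring
  have p1 : pr (fun k => χ₀ (ι k)) θ = pr (lc (l.comp (res D ι))) (fun k => θ k) := by
    rw [pr_eq, pr_eq, htot, hc]
    have e1 : ∑ g : K0, lc (l.comp (res D ι)) g * θ ((g⁻¹ : K0) : K) =
        ∑ k : K0, lc (l.comp (res D ι)) k * θ (k : K)⁻¹ := rfl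
    rw [e1]
    field_simp
    exact (mul_div_cancel_left₀ _ hK0).symm
  refine ⟨p1, ?_⟩
  rw [p1, pr_eq, pr_eq]
  congr 1
  exact hsw.symm

end DihChar

end Pool.Agent.Q7.DC
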