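import Mathlib
import Pool.Agent.Q7.DC.Dhd

/-!
# Avoiding a dihedral character of degree two: the theorem
-/

set_option autoImplicit false
set_option linter.unusedSectionVars false

namespace Pool.Agent.Q7.DC

open Pool.Agent.H302R2 Pool.Agent.H302R3 Pool.Agent.H541R3.ART Pool.Agent.W446.AS
  Pool.Agent.Q7.SZ MulAction

namespace DihChar

variable {G : Type} [Group G] [Finite G] {χ₀ : G → ℂ} {D : G →* ℂˣ} {l : D.ker →* ℂˣ}
  {Z : Subgroup G} {B : Type} [AddCommGroup B] {δ : (G → ℂ) → B}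
  {K : Type} [Group K] [Finite K]

lemma fl_one : fl (1 : ℂ) = 1 := by have := fl_int 1; simpa using this
lemma fl_zero : fl (0 : ℂ) = 0 := by have := fl_int 0; simpa using this

open Classical in
lemma pair_irr_id {L : Type} [Group L] [Finite L] (μ ν : L →* ℂˣ) :
    ({lc μ, lc ν} : Finset (L → ℂ)) ⊆ irrF L := by
  intro φ hφ
  rw [Finset.mem_insert, Finset.mem_singleton] at hφ
  rw [mem_irrF]
  rcases hφ with rfl | rfl
  · exact lin_irr _
  · exact lin_irr _

/-- iterated functionals -/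
lemma DD_DD {L : Type} [Group L] [Finite L] (ι : L →* G) (κ : K →* L) {ψ : K → ℂ} (hψ : Virt ψ) :
    DD (fun φ => DD δ ι φ) κ ψ = DD δ (ι.comp κ) ψ := by
  rw [← DD_up, DD_expand ι (virt_up κ hψ)]
  conv_lhs => unfold DD
  refine Finset.sum_congr rfl fun φ hφ => ?_
  rw [pr_up κ (virt_irr (mem_irrF.mp hφ))]
  rfl

lemma dih_val (h : DihChar χ₀ D l) (ι : K →* G) {v : K} (hv : D (ι v) ≠ 1) :
    DD δ ι (fun k => χ₀ (ι k)) =
      DD δ (ι.comp (D.comp ι).ker.subtype) (lc (l.comp (res D ι))) ∧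
    DD δ ι (fun k => χ₀ (ι k)) =
      DD δ (ι.comp (D.comp ι).ker.subtype) (lc (l⁻¹.comp (res D ι))) := by
  constructor
  · unfold DD
    refine Finset.sum_congr rfl fun χ hχ => ?_
    rw [(h.pairing ι hv (θ := fun k => χ (ι k)) (fun g x => by
      simp only [map_mul, map_inv]
      exact Irr.conj (mem_irrF.mp hχ) _ _)).1]
    rfl
  · unfold DD
    refine Finset.sum_congr rfl fun χ hχ => ?_
    rw [(h.pairing ι hv (θ := fun k => χ (ι k)) (fun g x => by
      simp only [map_mul, map_inv]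
      exact Irr.conj (mem_irrF.mp hχ) _ _)).2]
    rfl

lemma exists_ne_one (h : DihChar χ₀ D l) : ∃ t, D t ≠ 1 := by
  by_contra hcon
  push Not at hcon
  exact h.ne (MonoidHom.ext hcon)

/-- the functional vanishes on the kernel of the determinant -/
lemma zero_on_ker (h : DihChar χ₀ D l) (hZ : Z ≤ Subgroup.center G) (hk : Kills Z {χ₀} δ)
    (h0 : δ χ₀ = 0) {y : D.ker → ℂ} (hy : Virt y) : DD δ D.ker.subtype y = 0 := by
  classical
  obtain ⟨t, ht⟩ := h.exists_ne_one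
  have hZ' : Z.subgroupOf D.ker ≤ Subgroup.center D.ker := by
    intro z hz
    rw [Subgroup.mem_center_iff]
    intro g
    apply Subtype.ext
    exact Subgroup.mem_center_iff.mp (hZ (Subgroup.mem_subgroupOf.mp hz)) g
  have hk' : Kills (Z.subgroupOf D.ker) {lc l, lc l⁻¹} (fun φ => DD δ D.ker.subtype φ) := by
    intro H hZH hs ψ hψ
    rw [DD_DD D.ker.subtype H.subtype (virt_lc ψ)]
    refine hk.hom (D.ker.subtype.comp H.subtype)
      ((Subgroup.subtype_injective _).comp (Subgroup.subtype_injective _)) ?_ hs ψ ?_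
    · intro z hz
      have h1 : (⟨z, h.zle hZ hz⟩ : D.ker) ∈ Z.subgroupOf D.ker := Subgroup.mem_subgroupOf.mpr hz
      exact ⟨⟨⟨z, h.zle hZ hz⟩, hZH h1⟩, rfl⟩
    · intro ζ hζ
      rw [Set.mem_singleton_iff.mp hζ]
      have e1 : (fun k : H => χ₀ ((D.ker.subtype.comp H.subtype) k)) =
          (fun k : H => lc l k) + (fun k : H => lc l⁻¹ k) := by
        funext k
        exact h.val k
      rw [e1, pr_add_right, hψ _ (Or.inl rfl), hψ _ (Or.inr rfl), add_zero]
  have h1 := avoid_two hZ' l l⁻¹ B _ hk'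
  have h2 := h.dih_val (δ := δ) (MonoidHom.id G) ht
  have h3 : DD δ (MonoidHom.id G) (fun k => χ₀ ((MonoidHom.id G) k)) = 0 := by
    have e1 : (fun k => χ₀ ((MonoidHom.id G) k)) = χ₀ := rfl
    rw [e1, DD_id h.irr, h0]
  rw [h3] at h2
  have hl : DD δ D.ker.subtype (lc l) = 0 := h2.1.symm
  have hl' : DD δ D.ker.subtype (lc l⁻¹) = 0 := h2.2.symm
  rw [DD_expand _ hy]
  refine Finset.sum_eq_zero fun φ hφ => ?_
  have h4 : DD δ D.ker.subtype φ = 0 := by
    by_cases e1 : φ = lc l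
    · rw [e1]; exact hl
    by_cases e2 : φ = lc l⁻¹
    · rw [e2]; exact hl'
    exact h1 φ (mem_irrF.mp hφ) (by
      rintro (h5 | h5)
      · exact e1 h5
      · exact e2 h5)
  rw [h4, smul_zero]

/-- the functional vanishes at the restrictions of the dihedral character -/
lemma zero_res (h : DihChar χ₀ D l) (hZ : Z ≤ Subgroup.center G) (hk : Kills Z {χ₀} δ)
    (h0 : δ χ₀ = 0) (ι : K →* G) {v : K} (hv : D (ι v) ≠ 1) :
    DD δ ι (fun k => χ₀ (ι k)) = 0 := by
  rw [(h.dih_val ι hv).1]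
  have e1 : ι.comp (D.comp ι).ker.subtype = D.ker.subtype.comp (res D ι) := rfl
  rw [e1, ← DD_up]
  exact h.zero_on_ker hZ hk h0 (virt_up _ (virt_lc _))

/-- the two possible shapes on a subgroup -/
lemma split (h : DihChar χ₀ D l) (hZ : Z ≤ Subgroup.center G) (hk : Kills Z {χ₀} δ)
    (h0 : δ χ₀ = 0) (L : Subgroup G) (hL : Z ≤ L) (hAN : AN L) {v : G} (hvL : v ∈ L)
    (hv : D v ≠ 1) :
    (∀ y : L → ℂ, Virt y → DD δ L.subtype y = 0) ∨
    ∃ τ τ' : L →* ℂˣ, τ ≠ τ' ∧ (∀ x : L, χ₀ x = lc τ x + lc τ' x) ∧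
      ∀ y : L → ℂ, Virt y → DD δ L.subtype y =
        fl (pr y (lc τ)) • DD δ L.subtype (lc τ) + fl (pr y (lc τ')) • DD δ L.subtype (lc τ') := by
  classical
  have hS : ({χ₀} : Set (G → ℂ)) ⊆ Irr G := by
    intro ζ hζ
    rw [Set.mem_singleton_iff.mp hζ]
    exact h.irr
  have hrange : Z ≤ L.subtype.range := by
    rw [Subgroup.range_subtype]
    exact hL
  have hinj := Subgroup.subtype_injective L
  have hvir : Virt (fun k : L => χ₀ k) := (virt_irr h.irr).comp L.subtype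
  let n : (L → ℂ) → ℤ := fun φ => fl (pr (fun k : L => χ₀ k) φ)
  have hn : ∀ φ ∈ Irr L, (n φ : ℂ) = pr (fun k : L => χ₀ k) φ := fun φ hφ =>
    fl_coe hvir (virt_irr hφ)
  have hth : ∀ x : L, theta n x = χ₀ x := by
    intro x
    rw [hvir.expand x, theta]
    refine Finset.sum_congr rfl fun φ hφ => ?_
    rw [hn φ (mem_irrF.mp hφ)]
  have h1 : (theta n : L → ℂ) 1 = 2 := by
    rw [hth]
    exact h.deg
  have hnn : ∀ φ ∈ Irr L, 0 ≤ n φ := by
    intro φ hφ
    obtain ⟨m, hm⟩ := pr_nat h.irr L.subtype hφ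
    have h2 := hn φ hφ
    have h3 : (n φ : ℂ) = ((m : ℤ) : ℂ) := by
      rw [h2]
      push_cast
      exact hm
    have h4 : n φ = (m : ℤ) := by exact_mod_cast h3
    rw [h4]
    exact Int.natCast_nonneg m
  have hbad : ∀ φ ∈ Irr L, n φ = 0 → ∀ ζ ∈ ({χ₀} : Set (G → ℂ)),
      pr φ (fun k => ζ (L.subtype k)) = 0 := by
    intro φ hφ hn0 ζ hζ
    rw [Set.mem_singleton_iff.mp hζ, pr_comm]
    have := hn φ hφ
    rw [hn0] at this
    rw [Int.cast_zero] at this
    exact this.symm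
  rcases two_split n h1 hnn with ⟨χ, hχ, c1, c2, c3⟩ | ⟨χ, hχ, ψ, hψ, hne, c1, c2, c3, c4, c5⟩ |
    ⟨χ, hχ, c1, c2, c3⟩
  · exfalso
    obtain ⟨μ, rfl⟩ := exists_lin hχ c1
    have h2 := hth ⟨v, hvL⟩
    rw [theta, Finset.sum_eq_single (fun g => ((μ g : ℂˣ) : ℂ)), c2] at h2
    · change _ = χ₀ v at h2
      rw [h.zero v hv] at h2
      have h3 : ((μ ⟨v, hvL⟩ : ℂˣ) : ℂ) ≠ 0 := (μ ⟨v, hvL⟩).ne_zero
      apply h3
      push_cast at h2
      linear_combination h2 / 2
    · intro φ hφ hne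
      rw [c3 φ (mem_irrF.mp hφ) hne, Int.cast_zero, zero_mul]
    · intro h2
      exact absurd (mem_irrF.mpr hχ) h2
  · right
    obtain ⟨μ, rfl⟩ := exists_lin hχ c1
    obtain ⟨ν, rfl⟩ := exists_lin hψ c2
    refine ⟨μ, ν, fun h2 => hne (by rw [h2]), ?_, ?_⟩
    · intro x
      rw [← hth, theta]
      have h2 : ∀ φ ∈ irrF L, φ ∉ ({lc μ, lc ν} : Finset (L → ℂ)) → (n φ : ℂ) * φ x = 0 := by
        intro φ hφ hn2
        rw [Finset.mem_insert, Finset.mem_singleton, not_or] at hn2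
        rw [c5 φ (mem_irrF.mp hφ) hn2.1 hn2.2, Int.cast_zero, zero_mul]
      rw [← Finset.sum_subset (pair_irr_id μ ν) h2, Finset.sum_pair hne]
      change ((n (lc μ) : ℤ) : ℂ) * lc μ x + ((n (lc ν) : ℤ) : ℂ) * lc ν x = _
      have c3' : n (lc μ) = 1 := c3
      have c4' : n (lc ν) = 1 := c4
      rw [c3', c4', Int.cast_one, one_mul, one_mul]
    · intro y hy
      rw [hk.bad hZ hS L.subtype hinj hrange hAN ({lc μ, lc ν} : Finset (L → ℂ)) (pair_irr_id μ ν)
        (fun φ hφ hn2 => hbad φ hφ (by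
          rw [Finset.mem_insert, Finset.mem_singleton, not_or] at hn2
          exact c5 φ hφ hn2.1 hn2.2)) hy, Finset.sum_pair hne]
  · left
    have hχχ : (fun k : L => χ₀ (L.subtype k)) = χ := by
      funext x
      change χ₀ x = χ x
      rw [← hth, theta, Finset.sum_eq_single χ, c2, Int.cast_one, one_mul]
      · intro φ hφ hne
        rw [c3 φ (mem_irrF.mp hφ) hne, Int.cast_zero, zero_mul]
      · intro h2
        exact absurd (mem_irrF.mpr hχ) h2
    intro y hy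
    rw [hk.bad hZ hS L.subtype hinj hrange hAN ({χ} : Finset (L → ℂ)) (by
        intro φ hφ
        rw [Finset.mem_singleton.mp hφ]
        exact mem_irrF.mpr hχ)
      (fun φ hφ hn2 => hbad φ hφ (by
        rw [Finset.mem_singleton] at hn2
        exact c3 φ hφ hn2)) hy, Finset.sum_singleton, ← hχχ,
      h.zero_res hZ hk h0 L.subtype (v := ⟨v, hvL⟩) hv, smul_zero]

end DihChar

end Pool.Agent.Q7.DC
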