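import Mathlib
import Pool.Agent.Q7.DC.Dhe

/-!
# Avoiding a dihedral character of degree two: end of the proof
-/

set_option autoImplicit false
set_option linter.unusedSectionVars false

namespace Pool.Agent.Q7.DC

open Pool.Agent.H302R2 Pool.Agent.H302R3 Pool.Agent.H541R3.ART Pool.Agent.W446.AS
  Pool.Agent.Q7.SZ MulAction

namespace DihChar

variable {G : Type} [Group G] [Finite G] {χ₀ : G → ℂ} {D : G →* ℂˣ} {l : D.ker →* ℂˣ}
  {Z : Subgroup G} {B : Type} [AddCommGroup B] {δ : (G → ℂ) → B}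
  {K : Type} [Group K] [Finite K]

/-- the functional vanishes on the characters of `⟨v⟩ Z` -/
def Qv (δ : (G → ℂ) → B) (Z : Subgroup G) (v : G) : Prop :=
  ∀ ψ : (Subgroup.zpowers v ⊔ Z : Subgroup G) →* ℂˣ,
    DD δ (Subgroup.zpowers v ⊔ Z : Subgroup G).subtype (lc ψ) = 0

/-- the functional vanishes on a subgroup -/
def Az (δ : (G → ℂ) → B) (L : Subgroup G) : Prop := ∀ y : L → ℂ, Virt y → DD δ L.subtype y = 0

lemma az_of_qv (h : DihChar χ₀ D l) (hZ : Z ≤ Subgroup.center G) (hk : Kills Z {χ₀} δ)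
    (h0 : δ χ₀ = 0) (L : Subgroup G) (hL : Z ≤ L) (hAN : AN L) {v : G} (hvL : v ∈ L)
    (hv : D v ≠ 1) (hq : Qv δ Z v) : Az δ L := by
  rcases h.split hZ hk h0 L hL hAN hvL hv with h1 | ⟨τ, τ', hne, hval, h1⟩
  · exact h1
  have hUL : (Subgroup.zpowers v ⊔ Z : Subgroup G) ≤ L := sup_le (by
    rw [Subgroup.zpowers_le]; exact hvL) hL
  let U : Subgroup G := Subgroup.zpowers v ⊔ Z
  have hU : U.subtype = L.subtype.comp (Subgroup.inclusion hUL) := rfl
  have hvU : v ∈ U := Subgroup.mem_sup_left (Subgroup.mem_zpowers v)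
  have hne' : τ.comp (Subgroup.inclusion hUL) ≠ τ'.comp (Subgroup.inclusion hUL) := by
    intro h2
    have h3 := congrArg (fun f : U →* ℂˣ => ((f ⟨v, hvU⟩ : ℂˣ) : ℂ)) h2
    have h4 : lc τ ⟨v, hvL⟩ = lc τ' ⟨v, hvL⟩ := h3
    have h5 := hval ⟨v, hvL⟩
    change χ₀ v = _ at h5
    rw [h.zero v hv, ← h4] at h5
    have h6 : lc τ ⟨v, hvL⟩ ≠ 0 := (τ ⟨v, hvL⟩).ne_zero
    apply h6
    linear_combination -h5 / 2
  have key : ∀ ψ : U → ℂ, Virt ψ → DD δ U.subtype ψ =
      fl (pr ψ (lc (τ.comp (Subgroup.inclusion hUL)))) • DD δ L.subtype (lc τ) +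
        fl (pr ψ (lc (τ'.comp (Subgroup.inclusion hUL)))) • DD δ L.subtype (lc τ') := by
    intro ψ hψ
    rw [hU, ← DD_up, h1 _ (virt_up _ hψ), pr_up _ (virt_lc _), pr_up _ (virt_lc _)]
    rfl
  have z1 : DD δ L.subtype (lc τ) = 0 := by
    have h2 := key _ (virt_lc (τ.comp (Subgroup.inclusion hUL)))
    rw [pr_lc_self, pr_lc_ne hne', fl_one, fl_zero, one_smul, zero_smul, add_zero] at h2
    rw [← h2]
    exact hq _
  have z2 : DD δ L.subtype (lc τ') = 0 := by
    have h2 := key _ (virt_lc (τ'.comp (Subgroup.inclusion hUL)))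
    rw [pr_lc_self, pr_lc_ne hne'.symm, fl_one, fl_zero, one_smul, zero_smul, zero_add] at h2
    rw [← h2]
    exact hq _
  intro y hy
  rw [h1 y hy, z1, z2, smul_zero, smul_zero, add_zero]

/-- from a subgroup to an element conjugate into it -/
lemma qv_of_az (hZ : Z ≤ Subgroup.center G) {L : Subgroup G} (hL : Z ≤ L) (ha : Az δ L)
    {v g : G} (hg : g * v * g⁻¹ ∈ L) : Qv δ Z v := by
  intro ψ
  let U : Subgroup G := Subgroup.zpowers v ⊔ Z
  have hconj : ∀ u : U, g * (u : G) * g⁻¹ ∈ L := by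
    intro u
    have h1 : (U.map (MulAut.conj g).toMonoidHom) ≤ L := by
      rw [Subgroup.map_sup]
      refine sup_le ?_ ?_
      · rw [MonoidHom.map_zpowers, Subgroup.zpowers_le]
        exact hg
      · rintro _ ⟨z, hz, rfl⟩
        have h2 : (MulAut.conj g).toMonoidHom z = z := by
          change g * z * g⁻¹ = z
          rw [Subgroup.mem_center_iff.mp (hZ hz) g, mul_inv_cancel_right]
        rw [h2]
        exact hL hz
    exact h1 ⟨u, u.2, rfl⟩
  let κ : U →* L :=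
    { toFun := fun u => ⟨g * (u : G) * g⁻¹, hconj u⟩
      map_one' := by
        apply Subtype.ext
        simp
      map_mul' := by
        intro a b
        apply Subtype.ext
        change g * ((a : G) * b) * g⁻¹ = (g * a * g⁻¹) * (g * b * g⁻¹)
        group }
  have hκ : L.subtype.comp κ = (MulAut.conj g).toMonoidHom.comp U.subtype := by
    ext u
    rfl
  have h1 := ha (up κ (lc ψ)) (virt_up κ (virt_lc ψ))
  rw [DD_up, hκ, DD_conj] at h1
  exact h1

/-- the linear shape is impossible if `l` is not real -/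
lemma az_of_mem (h : DihChar χ₀ D l) (hZ : Z ≤ Subgroup.center G) (hk : Kills Z {χ₀} δ)
    (h0 : δ χ₀ = 0) (L : Subgroup G) (hL : Z ≤ L) (hAN : AN L) {v : G} (hvL : v ∈ L)
    (hv : D v ≠ 1) (x : D.ker) (hxL : (x : G) ∈ L) (hx : l x ^ 2 ≠ 1) : Az δ L := by
  rcases h.split hZ hk h0 L hL hAN hvL hv with h1 | ⟨τ, τ', hne, hval, h1⟩
  · exact h1
  exfalso
  apply hx
  have e1 := hval ⟨v, hvL⟩
  change χ₀ v = _ at e1
  rw [h.zero v hv] at e1
  have hxv : D ((x : G) * v) ≠ 1 := by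
    rw [map_mul, MonoidHom.mem_ker.mp x.2, one_mul]
    exact hv
  have e2 := hval (⟨(x : G), hxL⟩ * ⟨v, hvL⟩)
  change χ₀ ((x : G) * v) = _ at e2
  rw [h.zero _ hxv] at e2
  have m1 : ∀ (f : L →* ℂˣ) (a b : L), lc f (a * b) = lc f a * lc f b := by
    intro f a b
    change ((f (a * b) : ℂˣ) : ℂ) = _
    rw [map_mul, Units.val_mul]
  rw [m1, m1] at e2
  have hτv : lc τ ⟨v, hvL⟩ ≠ 0 := (τ ⟨v, hvL⟩).ne_zero
  have e3 : lc τ ⟨(x : G), hxL⟩ = lc τ' ⟨(x : G), hxL⟩ := by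
    apply mul_right_cancel₀ hτv
    linear_combination -e2 + (lc τ' ⟨(x : G), hxL⟩) * e1
  have e4 := hval ⟨(x : G), hxL⟩
  have e5 := hval (⟨(x : G), hxL⟩ * ⟨(x : G), hxL⟩)
  change χ₀ (x : G) = _ at e4
  change χ₀ ((x * x : D.ker) : G) = _ at e5
  rw [m1, m1, ← e3] at e5
  rw [← e3] at e4
  rw [h.val] at e4 e5
  rw [map_mul] at e5
  set a := l x with ha
  have ha0 : ((a : ℂˣ) : ℂ) ≠ 0 := a.ne_zero
  rw [Units.val_inv_eq_inv_val] at e4
  rw [Units.val_inv_eq_inv_val, Units.val_mul] at e5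
  set t := lc τ ⟨(x : G), hxL⟩ with ht
  have e6 : (((a : ℂˣ) : ℂ) ^ 2 - 1) ^ 2 = 0 := by
    have i1 : ((a : ℂˣ) : ℂ) * ((a : ℂˣ) : ℂ)⁻¹ = 1 := mul_inv_cancel₀ ha0
    have i2 : (((a : ℂˣ) : ℂ) * ((a : ℂˣ) : ℂ)) * (((a : ℂˣ) : ℂ) * ((a : ℂˣ) : ℂ))⁻¹ = 1 :=
      mul_inv_cancel₀ (mul_ne_zero ha0 ha0)
    have i3 : ((a : ℂˣ) : ℂ) ^ 2 + 1 = 2 * t * ((a : ℂˣ) : ℂ) := by
      linear_combination ((a : ℂˣ) : ℂ) * e4 - i1
    have i4 : ((a : ℂˣ) : ℂ) ^ 4 + 1 = 2 * t ^ 2 * ((a : ℂˣ) : ℂ) ^ 2 := by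
      linear_combination ((a : ℂˣ) : ℂ) ^ 2 * e5 - i2
    linear_combination 2 * i4 - (((a : ℂˣ) : ℂ) ^ 2 + 1 + 2 * t * ((a : ℂˣ) : ℂ)) * i3
  have e7 := pow_eq_zero_iff (two_ne_zero) |>.mp e6
  apply Units.ext
  rw [Units.val_pow_eq_pow_val, Units.val_one]
  exact sub_eq_zero.mp e7

/-- a starting element -/
lemma exists_start (h : DihChar χ₀ D l) (hZ : Z ≤ Subgroup.center G) (hk : Kills Z {χ₀} δ)
    (h0 : δ χ₀ = 0) : ∃ v : G, D v ≠ 1 ∧ (∃ k : ℕ, v ^ 2 ^ k = 1) ∧ Qv δ Z v := by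
  classical
  have h2f : Fact (Nat.Prime 2) := ⟨Nat.prime_two⟩
  -- an element where `l` is not real
  have hx0 : ∃ x : D.ker, (l * l) x ≠ 1 := by
    by_contra hcon
    push Not at hcon
    apply h.lne
    ext x
    have := hcon x
    rw [MonoidHom.mul_apply] at this
    have h2 := eq_inv_of_mul_eq_one_left this
    rw [MonoidHom.inv_apply]
    exact congrArg Units.val h2
  obtain ⟨x0, hx0⟩ := hx0
  have ho : orderOf ((l * l) x0) ≠ 1 := fun h => hx0 (orderOf_eq_one_iff.mp h)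
  obtain ⟨q, hq, hqd⟩ := Nat.exists_prime_and_dvd ho
  have hqf : Fact q.Prime := ⟨hq⟩
  obtain ⟨m, hm1, hm2⟩ := exists_qpart (l * l) x0 hq hqd
  set x := x0 ^ m with hx
  have hlx : l x ^ 2 ≠ 1 := by
    rw [pow_two, ← MonoidHom.mul_apply]
    exact hm2
  have hxq : ∃ k : ℕ, (x : G) ^ q ^ k = 1 := by
    obtain ⟨k, hk⟩ := hm1
    refine ⟨k, ?_⟩
    have := congrArg Subtype.val hk
    simpa using this
  have hord2 : ∀ t : G, D t ≠ 1 → 2 ∣ orderOf (D t) := by
    intro t ht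
    have h1 : D t ^ 2 = 1 := by
      rw [pow_two, ← MonoidHom.mul_apply, h.sq]
      rfl
    rw [orderOf_eq_prime h1 ht]
  obtain ⟨t, ht⟩ := h.exists_ne_one
  by_cases hq2 : q = 2
  · subst hq2
    obtain ⟨P, hP⟩ := exists_sylow_mem hxq
    obtain ⟨m', hm1', hm2'⟩ := exists_qpart D t Nat.prime_two (hord2 t ht)
    obtain ⟨g, hg⟩ := exists_conj_mem P hm1'
    set v := g * t ^ m' * g⁻¹ with hv
    have hDv : D v ≠ 1 := by
      rw [hv, map_mul, map_mul, mul_right_comm, ← map_mul, mul_inv_cancel, map_one, one_mul]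
      exact hm2'
    have hv2 : ∃ k : ℕ, v ^ 2 ^ k = 1 := by
      obtain ⟨k, hk⟩ := hm1'
      refine ⟨k, ?_⟩
      rw [hv, conj_pow, hk]
      group
    refine ⟨v, hDv, hv2, ?_⟩
    have hRZ : Z ≤ ((P : Subgroup G) ⊔ Z : Subgroup G) := le_sup_right
    have h1 := h.az_of_mem hZ hk h0 ((P : Subgroup G) ⊔ Z) hRZ (an_sup_p hZ _ P.isPGroup')
      (Subgroup.mem_sup_left hg) hDv x (Subgroup.mem_sup_left hP) hlx
    refine qv_of_az hZ hRZ h1 (g := 1) ?_
    rw [one_mul, inv_one, mul_one]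
    exact Subgroup.mem_sup_left hg
  · -- odd primes: Frattini
    obtain ⟨Q', hQ'⟩ := exists_sylow_mem (G := D.ker) hm1
    have hfr := Sylow.normalizer_sup_eq_top Q'
    have ht' : t ∈ Subgroup.normalizer ((Q' : Subgroup D.ker).map D.ker.subtype : Set G) ⊔ D.ker := by
      rw [hfr]
      exact Subgroup.mem_top t
    obtain ⟨a, ha, n, hn, han⟩ := Subgroup.mem_sup_of_normal_right.mp ht'
    have hDa : D a ≠ 1 := by
      intro h1
      apply ht
      rw [← han, map_mul, h1, one_mul]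
      exact hn
    obtain ⟨m', hm1', hm2'⟩ := exists_qpart D a Nat.prime_two (hord2 a hDa)
    set v := a ^ m' with hv
    let Q : Subgroup G := (Q' : Subgroup D.ker).map D.ker.subtype
    have hvn : v ∈ Subgroup.normalizer (Q : Set G) := pow_mem ha m'
    have hvQ : ∀ y, y ∈ Q ↔ v * y * v⁻¹ ∈ Q := Subgroup.mem_normalizer_iff.mp hvn
    have hQker : Q ≤ D.ker := by
      rintro _ ⟨y, -, rfl⟩
      exact y.2
    have hQp : IsPGroup q Q := Q'.isPGroup'.map D.ker.subtype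
    let τ : MulAut Q :=
      { toFun := fun y => ⟨v * y * v⁻¹, (hvQ y).mp y.2⟩
        invFun := fun y => ⟨v⁻¹ * y * v, by
          rw [hvQ]
          have : v * (v⁻¹ * (y : G) * v) * v⁻¹ = y := by group
          rw [this]
          exact y.2⟩
        left_inv := fun y => Subtype.ext (by simp [mul_assoc])
        right_inv := fun y => Subtype.ext (by simp [mul_assoc])
        map_mul' := fun y z => Subtype.ext (by
          change v * ((y : G) * z) * v⁻¹ = (v * y * v⁻¹) * (v * z * v⁻¹)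
          group) }
    have hτv : ∀ y : Q, ((τ y : Q) : G) = v * y * v⁻¹ := fun y => rfl
    have hτn : ∀ (n : ℕ) (y : Q), (((τ ^ n) y : Q) : G) = v ^ n * y * (v ^ n)⁻¹ := by
      intro n
      induction n with
      | zero =>
        intro y
        rw [pow_zero, pow_zero]
        simp
      | succ n ih =>
        intro y
        rw [pow_succ, MulAut.mul_apply, ih, hτv, pow_succ]
        group
    have hτ2 : ∃ k : ℕ, τ ^ 2 ^ k = 1 := by
      obtain ⟨k, hk⟩ := hm1'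
      refine ⟨k, ?_⟩
      apply MulEquiv.ext
      intro y
      apply Subtype.ext
      rw [hτn, hk]
      simp
    let f : Q →* ℂˣ := l.comp (Subgroup.inclusion hQker)
    have hf : ∀ y, f (τ y) = (f y)⁻¹ := by
      intro y
      exact h.linv hm2' (Subgroup.inclusion hQker y)
    have hxQ : (x : G) ∈ Q := ⟨x, hQ', rfl⟩
    have hfx : f ⟨(x : G), hxQ⟩ ≠ 1 := by
      intro h1
      apply hlx
      have h2 : l x = 1 := h1
      rw [h2, one_pow]
    obtain ⟨y, hy1, hy2⟩ := exists_inverted hq2 hQp τ hτ2 f hf hfx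
    have hvy : v * (y : G) * v⁻¹ = (y : G)⁻¹ := by
      rw [← hτv, hy1]
      rfl
    -- the subgroup generated by `y`, `v` and `Z`
    let A : Subgroup G := Subgroup.zpowers (y : G) ⊔ Z
    have hAZ : Z ≤ A := le_sup_right
    have hvA1 : ∀ a, a ∈ A → v * a * v⁻¹ ∈ A := by
      intro a ha
      have h1 : (A.map (MulAut.conj v).toMonoidHom) ≤ A := by
        rw [Subgroup.map_sup]
        refine sup_le ?_ ?_
        · rw [MonoidHom.map_zpowers, Subgroup.zpowers_le]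
          change v * (y : G) * v⁻¹ ∈ A
          rw [hvy]
          exact inv_mem (Subgroup.mem_sup_left (Subgroup.mem_zpowers _))
        · rintro _ ⟨z, hz, rfl⟩
          have h2 : (MulAut.conj v).toMonoidHom z = z := by
            change v * z * v⁻¹ = z
            rw [Subgroup.mem_center_iff.mp (hZ hz) v, mul_inv_cancel_right]
          rw [h2]
          exact hAZ hz
      exact h1 ⟨a, ha, rfl⟩
    have hvA : ∀ a, a ∈ A ↔ v * a * v⁻¹ ∈ A := by
      intro a
      refine ⟨hvA1 a, fun h1 => ?_⟩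
      obtain ⟨k, hk⟩ := hm1'
      -- iterate
      have h2 : ∀ n : ℕ, v ^ n * (v * a * v⁻¹) * (v ^ n)⁻¹ ∈ A := by
        intro n
        induction n with
        | zero =>
          rw [pow_zero, one_mul, inv_one, mul_one]
          exact h1
        | succ n ih =>
          have h3 := hvA1 _ ih
          have h4 : v * (v ^ n * (v * a * v⁻¹) * (v ^ n)⁻¹) * v⁻¹ =
              v ^ (n + 1) * (v * a * v⁻¹) * (v ^ (n + 1))⁻¹ := by
            rw [pow_succ']
            group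
          rw [← h4]
          exact h3
      have h3 := h2 (2 ^ k - 1)
      have h4 : v ^ (2 ^ k - 1) = v⁻¹ := by
        apply eq_inv_of_mul_eq_one_left
        rw [← pow_succ, Nat.sub_add_cancel (Nat.one_le_two_pow), hk]
      rw [h4] at h3
      have h5 : v⁻¹ * (v * a * v⁻¹) * v⁻¹⁻¹ = a := by group
      rw [h5] at h3
      exact h3
    have hAc : ∀ a ∈ A, ∀ b ∈ A, a * b = b * a := by
      have hZn : Z.Normal := ⟨fun z hz g => by
        rw [Subgroup.mem_center_iff.mp (hZ hz) g, mul_inv_cancel_right]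
        exact hz⟩
      intro a ha b hb
      obtain ⟨_, ⟨k, rfl⟩, z, hz, rfl⟩ := Subgroup.mem_sup_of_normal_right.mp ha
      obtain ⟨_, ⟨j, rfl⟩, w, hw, rfl⟩ := Subgroup.mem_sup_of_normal_right.mp hb
      have c1 := fun g => Subgroup.mem_center_iff.mp (hZ hz) g
      have c2 := fun g => Subgroup.mem_center_iff.mp (hZ hw) g
      set g := (y : G) with hg
      change g ^ k * z * (g ^ j * w) = g ^ j * w * (g ^ k * z)
      calc g ^ k * z * (g ^ j * w) = g ^ k * (z * (g ^ j * w)) := by rw [mul_assoc]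
        _ = g ^ k * (g ^ j * w * z) := by rw [c1]
        _ = g ^ k * g ^ j * (w * z) := by simp only [mul_assoc]
        _ = g ^ j * g ^ k * (z * w) := by rw [c2 z, ← zpow_add, ← zpow_add, add_comm]
        _ = g ^ j * (g ^ k * z * w) := by simp only [mul_assoc]
        _ = g ^ j * (w * (g ^ k * z)) := by rw [c2]
        _ = g ^ j * w * (g ^ k * z) := by simp only [mul_assoc]
    let L := extz A v hvA
    have hLAN : AN L := an_extz A v hvA hAc
    have hAL : A ≤ L := fun a ha => ⟨a, ha, 0, by simp⟩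
    have hvL : v ∈ L := ⟨1, A.one_mem, 1, by simp⟩
    have hyL : ((Subgroup.inclusion hQker y : D.ker) : G) ∈ L :=
      hAL (Subgroup.mem_sup_left (Subgroup.mem_zpowers _))
    have h1 := h.az_of_mem hZ hk h0 L (hAZ.trans hAL) hLAN hvL hm2'
      (Subgroup.inclusion hQker y) hyL hy2
    refine ⟨v, hm2', hm1', ?_⟩
    refine qv_of_az hZ (hAZ.trans hAL) h1 (g := 1) ?_
    rw [one_mul, inv_one, mul_one]
    exact hvL

/-- **Avoidance of a dihedral character of degree two.** -/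
theorem avoid_dih (h : DihChar χ₀ D l) (hZ : Z ≤ Subgroup.center G) : Avoid Z {χ₀} := by
  classical
  have h2f : Fact (Nat.Prime 2) := ⟨Nat.prime_two⟩
  intro B _ δ' hk' χ hχ hχS
  let δ : (G → ℂ) → B := fun χ => if χ = χ₀ then 0 else δ' χ
  have hk : Kills Z {χ₀} δ := hk'.congr (by
    intro χ _ hn
    have h1 : χ ≠ χ₀ := hn
    change (if χ = χ₀ then 0 else δ' χ) = δ' χ
    rw [if_neg h1])
  have h0 : δ χ₀ = 0 := if_pos rfl
  have hχδ : δ χ = δ' χ := by
    have h1 : χ ≠ χ₀ := hχS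
    change (if χ = χ₀ then 0 else δ' χ) = δ' χ
    rw [if_neg h1]
  rw [← hχδ]
  refine solomon hZ ?_ χ hχ
  obtain ⟨v₀, hv₀, hv₂, hqv₀⟩ := h.exists_start hZ hk h0
  -- all elements of 2-power order outside the kernel
  have hall : ∀ v : G, D v ≠ 1 → (∃ k : ℕ, v ^ 2 ^ k = 1) → Qv δ Z v := by
    intro v _ hv2
    obtain ⟨P, hP⟩ := exists_sylow_mem hv₂
    obtain ⟨g, hg⟩ := exists_conj_mem P hv2
    have hRZ : Z ≤ ((P : Subgroup G) ⊔ Z : Subgroup G) := le_sup_right
    exact qv_of_az hZ hRZ (h.az_of_qv hZ hk h0 _ hRZ (an_sup_p hZ _ P.isPGroup')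
      (Subgroup.mem_sup_left hP) hv₀ hqv₀) (Subgroup.mem_sup_left hg)
  intro L hL hAN x hx
  have hx' : Virt (fun l : L => x l) := hx.comp L.subtype
  by_cases hLD : L ≤ D.ker
  · have e1 : L.subtype = D.ker.subtype.comp (Subgroup.inclusion hLD) := rfl
    rw [e1, ← DD_up]
    exact h.zero_on_ker hZ hk h0 (virt_up _ hx')
  · obtain ⟨t, htL, ht⟩ := Set.not_subset.mp hLD
    have ht' : D t ≠ 1 := ht
    have h1 : D t ^ 2 = 1 := by
      rw [pow_two, ← MonoidHom.mul_apply, h.sq]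
      rfl
    obtain ⟨m, hm1, hm2⟩ := exists_qpart D t Nat.prime_two (by rw [orderOf_eq_prime h1 ht'])
    exact h.az_of_qv hZ hk h0 L hL hAN (pow_mem htL m) hm2 (hall _ hm2 hm1) _ hx'

end DihChar

end Pool.Agent.Q7.DC
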