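import Mathlib
import Pool.Agent.Q7.DC.Dhf
import Pool.Agent.Q7.GR.Gal

/-!
# Values of twisted L-functions and avoidance
-/

set_option autoImplicit false
set_option linter.unusedSectionVars false

namespace Pool.Agent.Q7.DC

open Pool.Agent.H302R2 Pool.Agent.H302R3 Pool.Agent.H541R3.ART Pool.Agent.W446.AS
  Pool.Agent.Q7.SZ Pool.Agent.Q7.GR MulAction Filter Topology

/-- `f` and `f'` have values `v` and `v'` at `s₀`, and `σ (v / c) = v' / c'` -/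
def Agree (σ : ℂ ≃+* ℂ) (s₀ : ℂ) (f : ℂ → ℂ) (c : ℂ) (f' : ℂ → ℂ) (c' : ℂ) : Prop :=
  ∃ v v' : ℂ, Tendsto f (𝓝[≠] s₀) (𝓝 v) ∧ Tendsto f' (𝓝[≠] s₀) (𝓝 v') ∧
    σ (v / c) = v' / c'

/-- periods: `per χ` for `L χ`, and `perLin H ψ`, for `Lin H ψ`, is the product of the
`per χ ^ ⟨χ|_H, ψ⟩` -/
structure Periods {G : Type} [Group G] {s₀ : ℂ} (A : TwistData G s₀) where
  per : (G → ℂ) → ℂ
  perLin : (H : Subgroup G) → (H →* ℂˣ) → ℂ
  per_ne : ∀ χ ∈ Irr G, per χ ≠ 0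
  induce : ∀ (H : Subgroup G) (ψ : H →* ℂˣ) (m : (G → ℂ) → ℕ),
    (∀ χ ∈ Irr G, ∑ᶠ h : H, χ h * (((ψ h)⁻¹ : ℂˣ) : ℂ) = (m χ : ℂ) * (Nat.card H : ℂ)) →
    perLin H ψ = ∏ᶠ χ ∈ Irr G, per χ ^ m χ

section

variable {G : Type} [Group G] [Finite G] {s₀ : ℂ}

/-- the irreducible characters with a zero or pole at `s₀` -/
def supp (A : TwistData G s₀) : Set (G → ℂ) := {χ | χ ∈ Irr G ∧ A.ord χ ≠ 0}

lemma mult_pr (H : Subgroup G) (ψ : H →* ℂˣ) {χ : G → ℂ} {m : ℕ}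
    (hm : ∑ᶠ h : H, χ h * (((ψ h)⁻¹ : ℂˣ) : ℂ) = (m : ℂ) * (Nat.card H : ℂ)) :
    pr (lc ψ) (fun h : H => χ h) = m := by
  classical
  have : Fintype H := Fintype.ofFinite H
  rw [pr_comm, pr_eq]
  rw [finsum_eq_sum_of_fintype] at hm
  have e1 : ∑ h : H, χ h * lc ψ h⁻¹ = ∑ h : H, χ h * (((ψ h)⁻¹ : ℂˣ) : ℂ) := by
    refine Finset.sum_congr rfl fun h _ => ?_
    change _ * ((ψ h⁻¹ : ℂˣ) : ℂ) = _
    rw [map_inv]
  rw [e1, hm, mul_comm, mul_assoc, mul_inv_cancel₀ card_ne, mul_one]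

lemma tendsto_ord (A : TwistData G s₀) {χ : G → ℂ} (hχ : χ ∈ Irr G) (h : A.ord χ = 0) :
    ∃ v : ℂ, v ≠ 0 ∧ Tendsto (A.L χ) (𝓝[≠] s₀) (𝓝 v) := by
  have h1 := A.coe_ord hχ
  rw [h] at h1
  exact (tendsto_ne_zero_iff_meromorphicOrderAt_eq_zero (A.mero χ hχ).1).mpr h1.symm

lemma tendsto_pos (A : TwistData G s₀) {χ : G → ℂ} (hχ : χ ∈ Irr G) (h : 0 < A.ord χ) :
    Tendsto (A.L χ) (𝓝[≠] s₀) (𝓝 0) := by
  have h1 := A.coe_ord hχ
  apply (tendsto_zero_iff_meromorphicOrderAt_pos (A.mero χ hχ).1).mpr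
  rw [← h1]
  exact_mod_cast h

lemma galF_inj (σ : ℂ ≃+* ℂ) : Function.Injective (fun (χ : G → ℂ) (g : G) => σ (χ g)) := by
  intro a b h
  funext g
  exact σ.injective (congrFun h g)

lemma prod_gal (σ : ℂ ≃+* ℂ) (f : (G → ℂ) → ℂ) :
    ∏ χ ∈ irrF G, f (fun g => σ (χ g)) = ∏ χ ∈ irrF G, f χ := by
  classical
  refine Finset.prod_bij (fun χ _ => fun g => σ (χ g)) ?_ ?_ ?_ ?_
  · intro χ hχ
    exact mem_irrF.mpr (irr_gal σ (mem_irrF.mp hχ))
  · intro χ _ χ' _ h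
    exact galF_inj σ h
  · intro χ hχ
    refine ⟨fun g => σ.symm (χ g), mem_irrF.mpr (irr_gal σ.symm (mem_irrF.mp hχ)), ?_⟩
    funext g
    exact σ.apply_symm_apply _
  · intro χ _
    rfl

/-- the multiplicities of a conjugate character -/
lemma mult_conj (σ : ℂ ≃+* ℂ) (H : Subgroup G) (ψ : H →* ℂˣ) {χ : G → ℂ} {m : ℕ}
    (hm : ∑ᶠ h : H, χ h * (((ψ h)⁻¹ : ℂˣ) : ℂ) = (m : ℂ) * (Nat.card H : ℂ)) :
    ∑ᶠ h : H, (fun g => σ (χ g)) (h : G) * (((galL σ ψ h)⁻¹ : ℂˣ) : ℂ) =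
      (m : ℂ) * (Nat.card H : ℂ) := by
  classical
  have : Fintype H := Fintype.ofFinite H
  rw [finsum_eq_sum_of_fintype] at hm ⊢
  have h1 := congrArg σ hm
  rw [map_sum, map_mul, map_natCast, map_natCast] at h1
  rw [← h1]
  refine Finset.sum_congr rfl fun h _ => ?_
  rw [map_mul, Units.val_inv_eq_inv_val, Units.val_inv_eq_inv_val, map_inv₀, galL_val]

/-- the value of the L-function of a linear character orthogonal to the zeros -/
lemma lin_tendsto (A : TwistData G s₀) (v : (G → ℂ) → ℂ)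
    (hv : ∀ χ ∈ Irr G, A.ord χ = 0 → Tendsto (A.L χ) (𝓝[≠] s₀) (𝓝 (v χ)))
    (H : Subgroup G) (ψ : H →* ℂˣ) (m : (G → ℂ) → ℕ)
    (hm : ∀ χ ∈ Irr G, ∑ᶠ h : H, χ h * (((ψ h)⁻¹ : ℂˣ) : ℂ) = (m χ : ℂ) * (Nat.card H : ℂ))
    (hg : ∀ χ ∈ Irr G, A.ord χ ≠ 0 → m χ = 0) :
    Tendsto (A.Lin H ψ) (𝓝[≠] s₀) (𝓝 (∏ χ ∈ irrF G, v χ ^ m χ)) := by
  classical
  refine Tendsto.congr' (A.induce H ψ m hm).symm ?_
  have h1 : (fun s => ∏ᶠ χ ∈ Irr G, A.L χ s ^ m χ) = fun s => ∏ χ ∈ irrF G, A.L χ s ^ m χ := by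
    funext s
    rw [finprod_mem_eq_finite_toFinset_prod _ (irr_finite (G := G))]
    rfl
  rw [h1]
  refine tendsto_finsetProd _ fun χ hχ => ?_
  by_cases h : A.ord χ = 0
  · exact (hv χ (mem_irrF.mp hχ) h).pow _
  · rw [hg χ (mem_irrF.mp hχ) h]
    simp only [pow_zero]
    exact tendsto_const_nhds

/-- **Deligne's equivariance from linear characters.** -/
theorem deligne_of_avoid (A : TwistData G s₀) (P : Periods A) {Z : Subgroup G}
    (hnn : ∀ χ ∈ Irr G, 0 ≤ A.ord χ) (hav : Avoid Z (supp A)) (σ : ℂ ≃+* ℂ)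
    (hgal : ∀ χ ∈ Irr G, A.ord (fun g => σ (χ g)) = 0 ↔ A.ord χ = 0)
    (hlin : ∀ (H : Subgroup G), Z ≤ H → Group.IsSolvable H → ∀ ψ : H →* ℂˣ,
      Agree σ s₀ (A.Lin H ψ) (P.perLin H ψ) (A.Lin H (galL σ ψ)) (P.perLin H (galL σ ψ))) :
    ∀ χ ∈ Irr G, Agree σ s₀ (A.L χ) (P.per χ) (A.L fun g => σ (χ g)) (P.per fun g => σ (χ g)) := by
  classical
  have hv' : ∀ χ : G → ℂ, ∃ v : ℂ, χ ∈ Irr G → A.ord χ = 0 →
      v ≠ 0 ∧ Tendsto (A.L χ) (𝓝[≠] s₀) (𝓝 v) := by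
    intro χ
    by_cases h : χ ∈ Irr G ∧ A.ord χ = 0
    · obtain ⟨v, hv⟩ := tendsto_ord A h.1 h.2
      exact ⟨v, fun _ _ => hv⟩
    · exact ⟨0, fun h1 h2 => absurd ⟨h1, h2⟩ h⟩
  choose v hv using hv'
  have hper := P.per_ne
  -- the quotients
  have hq : ∀ χ : G → ℂ, χ ∈ Irr G → A.ord χ = 0 →
      σ (v χ / P.per χ) / (v (fun g => σ (χ g)) / P.per (fun g => σ (χ g))) ≠ 0 := by
    intro χ h1 h2
    have i1 := irr_gal σ h1
    have i2 := (hgal χ h1).mpr h2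
    refine div_ne_zero ?_ (div_ne_zero (hv _ i1 i2).1 (hper _ i1))
    rw [Ne, EmbeddingLike.map_eq_zero_iff]
    exact div_ne_zero (hv _ h1 h2).1 (hper _ h1)
  let u : (G → ℂ) → ℂˣ := fun χ => if h : χ ∈ Irr G ∧ A.ord χ = 0 then
    Units.mk0 _ (hq χ h.1 h.2) else 1
  have hu : ∀ χ ∈ Irr G, A.ord χ = 0 → ((u χ : ℂˣ) : ℂ) =
      σ (v χ / P.per χ) / (v (fun g => σ (χ g)) / P.per (fun g => σ (χ g))) := by
    intro χ h1 h2
    have : u χ = Units.mk0 _ (hq χ h1 h2) := dif_pos ⟨h1, h2⟩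
    rw [this]
    rfl
  let δ : (G → ℂ) → Additive ℂˣ := fun χ => Additive.ofMul (u χ)
  have hkill : Kills Z (supp A) δ := by
    intro H hZH hs ψ hψ
    choose! m hm using fun χ (hχ : χ ∈ Irr G) => exists_mult hχ H ψ
    have hmp : ∀ χ ∈ Irr G, pr (lc ψ) (fun h : H => χ h) = (m χ : ℂ) := fun χ hχ =>
      mult_pr H ψ (hm χ hχ)
    have hm0 : ∀ χ ∈ Irr G, A.ord χ ≠ 0 → m χ = 0 := by
      intro χ hχ h
      have h1 := hψ χ ⟨hχ, h⟩
      rw [hmp χ hχ] at h1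
      exact_mod_cast h1
    -- multiplicities for the conjugate character
    let m' : (G → ℂ) → ℕ := fun χ => m (fun g => σ.symm (χ g))
    have hm' : ∀ χ ∈ Irr G, ∑ᶠ h : H, χ h * (((galL σ ψ h)⁻¹ : ℂˣ) : ℂ) =
        (m' χ : ℂ) * (Nat.card H : ℂ) := by
      intro χ hχ
      have h1 := mult_conj σ H ψ (hm _ (irr_gal σ.symm hχ))
      have h2 : (fun g => σ ((fun g => σ.symm (χ g)) g)) = χ := by
        funext g
        exact σ.apply_symm_apply _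
      rw [h2] at h1
      exact h1
    have hm'σ : ∀ χ : G → ℂ, m' (fun g => σ (χ g)) = m χ := by
      intro χ
      change m (fun g => σ.symm (σ (χ g))) = m χ
      congr 1
      funext g
      exact σ.symm_apply_apply _
    have hm0' : ∀ χ ∈ Irr G, A.ord χ ≠ 0 → m' χ = 0 := by
      intro χ hχ h
      refine hm0 _ (irr_gal σ.symm hχ) ?_
      intro h1
      apply h
      have h2 := (hgal _ (irr_gal σ.symm hχ)).mpr h1
      have h3 : (fun g => σ ((fun g => σ.symm (χ g)) g)) = χ := by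
        funext g
        exact σ.apply_symm_apply _
      rw [h3] at h2
      exact h2
    obtain ⟨w, w', hw, hw', hww⟩ := hlin H hZH hs ψ
    have t1 := lin_tendsto A v (fun χ h1 h2 => (hv χ h1 h2).2) H ψ m hm hm0
    have t2 := lin_tendsto A v (fun χ h1 h2 => (hv χ h1 h2).2) H (galL σ ψ) m' hm' hm0'
    have e1 := tendsto_nhds_unique hw t1
    have e2 := tendsto_nhds_unique hw' t2
    have p1 : P.perLin H ψ = ∏ χ ∈ irrF G, P.per χ ^ m χ := by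
      rw [P.induce H ψ m hm, finprod_mem_eq_finite_toFinset_prod _ (irr_finite (G := G))]
      rfl
    have p2 : P.perLin H (galL σ ψ) = ∏ χ ∈ irrF G, P.per χ ^ m' χ := by
      rw [P.induce H (galL σ ψ) m' hm', finprod_mem_eq_finite_toFinset_prod _
        (irr_finite (G := G))]
      rfl
    rw [e1, e2, p1, p2, ← Finset.prod_div_distrib, ← Finset.prod_div_distrib,
      ← prod_gal σ (fun χ => v χ ^ m' χ / P.per χ ^ m' χ), map_prod] at hww
    -- the product of the units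
    have hprod : ∏ χ ∈ irrF G, u χ ^ m χ = 1 := by
      apply Units.ext
      rw [Units.coe_prod, Units.val_one]
      have h1 : ∀ χ ∈ irrF G, ((u χ ^ m χ : ℂˣ) : ℂ) = σ (v χ ^ m χ / P.per χ ^ m χ) /
          (v (fun g => σ (χ g)) ^ m' (fun g => σ (χ g)) /
            P.per (fun g => σ (χ g)) ^ m' (fun g => σ (χ g))) := by
        intro χ hχ
        rw [hm'σ]
        by_cases h : A.ord χ = 0
        · rw [Units.val_pow_eq_pow_val, hu χ (mem_irrF.mp hχ) h, div_pow, ← map_pow, div_pow,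
            div_pow]
        · rw [hm0 χ (mem_irrF.mp hχ) h]
          simp
      rw [Finset.prod_congr rfl h1, Finset.prod_div_distrib, ← hww, div_self]
      rw [Finset.prod_ne_zero_iff]
      intro χ hχ
      rw [Ne, EmbeddingLike.map_eq_zero_iff]
      by_cases h : A.ord χ = 0
      · exact div_ne_zero (pow_ne_zero _ (hv χ (mem_irrF.mp hχ) h).1)
          (pow_ne_zero _ (hper χ (mem_irrF.mp hχ)))
      · rw [hm0 χ (mem_irrF.mp hχ) h]
        simp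
    have hDD : DD δ H.subtype (lc ψ) = Additive.ofMul (∏ χ ∈ irrF G, u χ ^ m χ) := by
      rw [ofMul_prod]
      unfold DD
      refine Finset.sum_congr rfl fun χ hχ => ?_
      have h1 : fl (pr (lc ψ) (fun k : H => χ (H.subtype k))) = (m χ : ℤ) := by
        apply fl_eq
        have h2 : pr (lc ψ) (fun k : H => χ (H.subtype k)) = pr (lc ψ) (fun h : H => χ h) := rfl
        rw [h2, hmp χ (mem_irrF.mp hχ)]
        push_cast
        rfl
      rw [h1, ofMul_pow, natCast_zsmul]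
    rw [hDD, hprod, ofMul_one]
  intro χ hχ
  by_cases h : A.ord χ = 0
  · have h1 := hav (Additive ℂˣ) δ hkill χ hχ (fun hcon => hcon.2 h)
    have h2 : u χ = 1 := h1
    have h3 := hu χ hχ h
    rw [h2, Units.val_one] at h3
    have i1 := irr_gal σ hχ
    have i2 := (hgal χ hχ).mpr h
    refine ⟨v χ, v (fun g => σ (χ g)), (hv χ hχ h).2, (hv _ i1 i2).2, ?_⟩
    exact (div_eq_one_iff_eq (div_ne_zero (hv _ i1 i2).1 (hper _ i1))).mp h3.symm
  · have i1 := irr_gal σ hχ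
    have i2 : A.ord (fun g => σ (χ g)) ≠ 0 := fun h' => h ((hgal χ hχ).mp h')
    refine ⟨0, 0, tendsto_pos A hχ (lt_of_le_of_ne (hnn χ hχ) (Ne.symm h)),
      tendsto_pos A i1 (lt_of_le_of_ne (hnn _ i1) (Ne.symm i2)), ?_⟩
    rw [zero_div, zero_div, map_zero]

end

end Pool.Agent.Q7.DC
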