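import Mathlib
import Pool.Agent.Q7.DC.Dlg

/-!
# Product formulas avoiding the zeros
-/

set_option autoImplicit false
set_option linter.unusedSectionVars false

namespace Pool.Agent.Q7.DC

open Pool.Agent.H302R2 Pool.Agent.H302R3 Pool.Agent.H541R3.ART Pool.Agent.W446.AS
  Pool.Agent.Q7.SZ Pool.Agent.Q7.GR MulAction Filter Topology

section

variable {G : Type} [Group G] [Finite G] {s₀ : ℂ}

/-- the vector of multiplicities of an induced character -/
noncomputable def wv (H : Subgroup G) (ψ : H →* ℂˣ) : (G → ℂ) →₀ ℤ :=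
  ∑ χ ∈ irrF G, fl (pr (lc ψ) (fun k : H => χ (H.subtype k))) • Finsupp.single χ (1 : ℤ)

lemma wv_apply (H : Subgroup G) (ψ : H →* ℂˣ) {χ : G → ℂ} (hχ : χ ∈ Irr G) :
    wv H ψ χ = fl (pr (lc ψ) (fun k : H => χ (H.subtype k))) := by
  classical
  unfold wv
  rw [Finsupp.finsetSum_apply, Finset.sum_eq_single χ]
  · rw [Finsupp.smul_apply, Finsupp.single_eq_same, smul_eq_mul, mul_one]
  · intro φ _ hne
    rw [Finsupp.smul_apply, Finsupp.single_eq_of_ne hne.symm, smul_zero]
  · intro h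
    exact absurd (mem_irrF.mpr hχ) h

lemma ev_ne (A : TwistData G s₀) : ∀ᶠ s in 𝓝[≠] s₀, ∀ χ ∈ irrF G, A.L χ s ≠ 0 := by
  rw [Filter.eventually_all_finset]
  intro χ hχ
  have h1 := A.mero χ (mem_irrF.mp hχ)
  exact (meromorphicOrderAt_ne_top_iff_eventually_ne_zero h1.1).mp h1.2

/-- an L-function with neither zero nor pole is a product of powers of such monomial ones -/
theorem expand_of_avoid (A : TwistData G s₀) {Z : Subgroup G}
    (hav : Avoid Z (supp A)) :
    ∀ χ ∈ Irr G, A.ord χ = 0 → ∃ l : List ((Σ H : Subgroup G, (H →* ℂˣ)) × ℤ),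
      (∀ t ∈ l, Z ≤ t.1.1 ∧ Group.IsSolvable t.1.1 ∧
        meromorphicOrderAt (A.Lin t.1.1 t.1.2) s₀ = 0) ∧
      A.L χ =ᶠ[𝓝[≠] s₀] fun s => (l.map fun t => A.Lin t.1.1 t.1.2 s ^ t.2).prod := by
  classical
  intro χ₀ hχ₀ h₀
  let W : Set ((G → ℂ) →₀ ℤ) := {f | ∃ (H : Subgroup G) (ψ : H →* ℂˣ), Z ≤ H ∧
    Group.IsSolvable H ∧ (∀ ζ ∈ supp A, pr (lc ψ) (fun h : H => ζ h) = 0) ∧ f = wv H ψ}
  let N : AddSubgroup ((G → ℂ) →₀ ℤ) := AddSubgroup.closure W
  let δ : (G → ℂ) → ((G → ℂ) →₀ ℤ) ⧸ N := fun χ => QuotientAddGroup.mk' N (Finsupp.single χ 1)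
  have hkill : Kills Z (supp A) δ := by
    intro H hZH hs ψ hψ
    have h1 : DD δ H.subtype (lc ψ) = QuotientAddGroup.mk' N (wv H ψ) := by
      unfold DD wv
      rw [map_sum]
      refine Finset.sum_congr rfl fun χ _ => ?_
      rw [map_zsmul]
    rw [h1]
    exact (QuotientAddGroup.eq_zero_iff _).mpr
      (AddSubgroup.subset_closure ⟨H, ψ, hZH, hs, hψ, rfl⟩)
  have h1 := hav _ δ hkill χ₀ hχ₀ (fun hcon => hcon.2 h₀)
  have h2 : Finsupp.single χ₀ (1 : ℤ) ∈ N := (QuotientAddGroup.eq_zero_iff _).mp h1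
  have hev := ev_ne A
  have key : ∀ f ∈ N, ∃ l : List ((Σ H : Subgroup G, (H →* ℂˣ)) × ℤ),
      (∀ t ∈ l, Z ≤ t.1.1 ∧ Group.IsSolvable t.1.1 ∧
        meromorphicOrderAt (A.Lin t.1.1 t.1.2) s₀ = 0) ∧
      (fun s => ∏ χ ∈ irrF G, A.L χ s ^ f χ) =ᶠ[𝓝[≠] s₀]
        fun s => (l.map fun t => A.Lin t.1.1 t.1.2 s ^ t.2).prod := by
    intro f hf
    induction hf using AddSubgroup.closure_induction with
    | mem f hf =>
      obtain ⟨H, ψ, hZH, hs, hψ, rfl⟩ := hf
      choose! m hm using fun χ (hχ : χ ∈ Irr G) => exists_mult hχ H ψ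
      have hmp : ∀ χ ∈ Irr G, pr (lc ψ) (fun h : H => χ h) = (m χ : ℂ) := fun χ hχ =>
        mult_pr H ψ (hm χ hχ)
      have hw : ∀ χ ∈ Irr G, wv H ψ χ = (m χ : ℤ) := by
        intro χ hχ
        rw [wv_apply H ψ hχ]
        apply fl_eq
        have h2 : pr (lc ψ) (fun k : H => χ (H.subtype k)) = pr (lc ψ) (fun h : H => χ h) := rfl
        rw [h2, hmp χ hχ]
        push_cast
        rfl
      refine ⟨[(⟨H, ψ⟩, 1)], ?_, ?_⟩
      · intro t ht
        rw [List.mem_singleton] at ht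
        subst ht
        refine ⟨hZH, hs, ?_⟩
        rw [A.order_Lin H ψ m hm]
        have h3 : ∑ χ ∈ irrF G, (m χ : ℤ) * A.ord χ = 0 := by
          refine Finset.sum_eq_zero fun χ hχ => ?_
          by_cases h : A.ord χ = 0
          · rw [h, mul_zero]
          · have h4 := hψ χ ⟨mem_irrF.mp hχ, h⟩
            rw [hmp χ (mem_irrF.mp hχ)] at h4
            have h5 : m χ = 0 := by exact_mod_cast h4
            rw [h5]
            simp
        rw [h3]
        rfl
      · refine EventuallyEq.trans ?_ ((A.induce H ψ m hm).symm.trans ?_)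
        · refine Eventually.of_forall fun s => ?_
          simp only
          rw [finprod_mem_eq_finite_toFinset_prod _ (irr_finite (G := G))]
          refine Finset.prod_congr rfl fun χ hχ => ?_
          rw [hw χ (mem_irrF.mp hχ), zpow_natCast]
        · refine Eventually.of_forall fun s => ?_
          simp
    | zero =>
      refine ⟨[], by simp, Eventually.of_forall fun s => ?_⟩
      simp
    | add f g _ _ ihf ihg =>
      obtain ⟨l₁, a1, a2⟩ := ihf
      obtain ⟨l₂, b1, b2⟩ := ihg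
      refine ⟨l₁ ++ l₂, ?_, ?_⟩
      · intro t ht
        rcases List.mem_append.mp ht with h | h
        · exact a1 t h
        · exact b1 t h
      · filter_upwards [a2, b2, hev] with s c1 c2 c3
        rw [List.map_append, List.prod_append, ← c1, ← c2, ← Finset.prod_mul_distrib]
        refine Finset.prod_congr rfl fun χ hχ => ?_
        rw [Finsupp.add_apply, zpow_add₀ (c3 χ hχ)]
    | neg f _ ihf =>
      obtain ⟨l₁, a1, a2⟩ := ihf
      refine ⟨l₁.map fun t => (t.1, -t.2), ?_, ?_⟩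
      · intro t ht
        obtain ⟨t', ht', rfl⟩ := List.mem_map.mp ht
        exact a1 t' ht'
      · filter_upwards [a2] with s c1
        have e1 : ((l₁.map fun t => (t.1, -t.2)).map
            fun t : (Σ H : Subgroup G, (H →* ℂˣ)) × ℤ => A.Lin t.1.1 t.1.2 s ^ t.2).prod =
            ((l₁.map fun t => A.Lin t.1.1 t.1.2 s ^ t.2).prod)⁻¹ := by
          rw [List.map_map, List.prod_inv, List.map_map]
          congr 1
          apply List.map_congr_left
          intro t _
          simp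
        rw [e1, ← c1, ← Finset.prod_inv_distrib]
        refine Finset.prod_congr rfl fun χ _ => ?_
        rw [Finsupp.neg_apply, zpow_neg]
  obtain ⟨l, hl, hl'⟩ := key _ h2
  refine ⟨l, hl, EventuallyEq.trans ?_ hl'⟩
  refine Eventually.of_forall fun s => ?_
  simp only
  rw [Finset.prod_eq_single χ₀]
  · rw [Finsupp.single_eq_same, zpow_one]
  · intro φ _ hne
    rw [Finsupp.single_eq_of_ne hne, zpow_zero]
  · intro h
    exact absurd (mem_irrF.mpr hχ₀) h

end

end Pool.Agent.Q7.DC
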