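import Mathlib
import Pool.Agent.Q7.DC.Exp

/-!
# The zeros at the centre, orders at most two
-/

set_option autoImplicit false
set_option linter.unusedSectionVars false

namespace Pool.Agent.Q7.DC

open Pool.Agent.H302R2 Pool.Agent.H302R3 Pool.Agent.H541R3.ART Pool.Agent.W446.AS
  Pool.Agent.Q7.TZ Pool.Agent.Q7.SZ Pool.Agent.Q7.GR MulAction Filter Topology

section

variable {G : Type} [Group G] [Finite G] {s₀ : ℂ}

/-- if nothing is to be avoided -/
theorem avoid_empty {Z : Subgroup G} (hZ : Z ≤ Subgroup.center G) : Avoid Z (∅ : Set (G → ℂ)) := by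
  intro B _ δ hk χ hχ _
  refine solomon hZ ?_ χ hχ
  intro L hL hAN x hx
  have hx' : Virt (fun l : L => x l) := hx.comp L.subtype
  have hr : Z ≤ L.subtype.range := by
    rw [Subgroup.range_subtype]
    exact hL
  rw [DD_expand _ hx']
  refine Finset.sum_eq_zero fun φ hφ => ?_
  rw [hk.star hZ (Set.empty_subset _) L.subtype (Subgroup.subtype_injective L) hr hAN
    (mem_irrF.mp hφ) (fun ζ hζ => absurd hζ (Set.notMem_empty ζ)), smul_zero]

/-- the shape of the zeros at the centre -/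
theorem supp_shape (A : TwistData G 1) (F : FunEq A) {r : ℕ} (hr2 : r ≤ 2)
    (hr : meromorphicOrderAt (A.Lin ⊥ 1) 1 = (r : WithTop ℤ)) :
    (∀ χ ∈ Irr G, 0 ≤ A.ord χ) ∧ (supp A = ∅ ∨ (∃ μ ν : G →* ℂˣ, supp A = {lc μ, lc ν}) ∨
      ∃ (χ₀ : G → ℂ) (D : G →* ℂˣ) (l : D.ker →* ℂˣ), DihChar χ₀ D l ∧ supp A = {χ₀}) := by
  classical
  have hθ := A.isSol
  have h1 := A.theta_one hr
  have hcases : r = 0 ∨ r = 1 ∨ r = 2 := by omega
  rcases hcases with rfl | rfl | rfl
  · have h0 : (theta A.ord : G → ℂ) = 0 := by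
      funext g
      have h3 := hθ.norm_le g
      rw [h1] at h3
      simpa using h3
    have h2 : ∀ χ ∈ Irr G, A.ord χ = 0 := by
      intro χ hχ
      have h3 := pr_theta A.ord hχ
      rw [h0, pr_zero_left] at h3
      exact_mod_cast h3.symm
    refine ⟨fun χ hχ => by rw [h2 χ hχ], Or.inl ?_⟩
    ext χ
    simp only [supp, Set.mem_ofPred_eq, Set.mem_empty_iff_false, iff_false, not_and, not_not]
    exact h2 χ
  · obtain ⟨μ, hμ⟩ := hθ.deg_one (by rw [h1]; simp)
    have h0 : (theta A.ord : G → ℂ) = lc μ := funext hμ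
    have h2 : ∀ χ ∈ Irr G, χ ≠ lc μ → A.ord χ = 0 := by
      intro χ hχ hne
      have h3 := pr_theta A.ord hχ
      rw [h0, pr_ne (lin_irr μ) hχ hne.symm] at h3
      exact_mod_cast h3.symm
    have h2' : A.ord (lc μ) = 1 := by
      have h3 := pr_theta A.ord (lin_irr μ)
      rw [h0] at h3
      have h4 := pr_self (lin_irr μ)
      rw [h4] at h3
      exact_mod_cast h3.symm
    refine ⟨fun χ hχ => ?_, Or.inr (Or.inl ⟨μ, μ, ?_⟩)⟩
    · by_cases h : χ = lc μ
      · rw [h, h2']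
        norm_num
      · rw [h2 χ hχ h]
    · ext χ
      simp only [supp, Set.mem_ofPred_eq, Set.mem_insert_iff, Set.mem_singleton_iff, or_self]
      constructor
      · rintro ⟨hχ, hne⟩
        by_contra hcon
        exact hne (h2 χ hχ hcon)
      · rintro rfl
        exact ⟨lin_irr μ, by rw [h2']; norm_num⟩
  · have h1' : (theta A.ord : G → ℂ) 1 = 2 := by rw [h1]; simp
    rcases central_shape' A.ord hθ h1' F.theta_real (fun χ hχ hs => F.ord_even hχ hs) with
      ⟨μ, -, e2, e3⟩ | ⟨μ, ν, -, -, e1, e2, e3⟩ | ⟨χ₀, hχ₀, e1, e2, D, d1, d2, d3, d4, l, l1, l2⟩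
    · refine ⟨fun χ hχ => ?_, Or.inr (Or.inl ⟨μ, μ, ?_⟩)⟩
      · by_cases h : χ = fun g => ((μ g : ℂˣ) : ℂ)
        · rw [h, e2]
          norm_num
        · rw [e3 χ hχ h]
      · ext χ
        simp only [supp, Set.mem_ofPred_eq, Set.mem_insert_iff, Set.mem_singleton_iff, or_self]
        constructor
        · rintro ⟨hχ, hne⟩
          by_contra hcon
          exact hne (e3 χ hχ hcon)
        · rintro rfl
          refine ⟨lin_irr μ, ?_⟩
          have : A.ord (lc μ) = 2 := e2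
          rw [this]
          norm_num
    · refine ⟨fun χ hχ => ?_, Or.inr (Or.inl ⟨μ, ν, ?_⟩)⟩
      · by_cases h : χ = fun g => ((μ g : ℂˣ) : ℂ)
        · rw [h, e1]
          norm_num
        by_cases h' : χ = fun g => ((ν g : ℂˣ) : ℂ)
        · rw [h', e2]
          norm_num
        rw [e3 χ hχ h h']
      · ext χ
        simp only [supp, Set.mem_ofPred_eq, Set.mem_insert_iff, Set.mem_singleton_iff]
        constructor
        · rintro ⟨hχ, hne⟩
          by_contra hcon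
          rw [not_or] at hcon
          exact hne (e3 χ hχ hcon.1 hcon.2)
        · rintro (rfl | rfl)
          · refine ⟨lin_irr μ, ?_⟩
            have : A.ord (lc μ) = 1 := e1
            rw [this]
            norm_num
          · refine ⟨lin_irr ν, ?_⟩
            have : A.ord (lc ν) = 1 := e2
            rw [this]
            norm_num
    · refine ⟨fun χ hχ => ?_, Or.inr (Or.inr ⟨χ₀, D, l,
        ⟨hχ₀, d1, d3, d2, d4, l1, l2⟩, ?_⟩)⟩
      · by_cases h : χ = χ₀
        · rw [h, e1]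
          norm_num
        · rw [e2 χ hχ h]
      · ext χ
        simp only [supp, Set.mem_ofPred_eq, Set.mem_singleton_iff]
        constructor
        · rintro ⟨hχ, hne⟩
          by_contra hcon
          exact hne (e2 χ hχ hcon)
        · rintro rfl
          exact ⟨hχ₀, by rw [e1]; norm_num⟩

/-- avoidance of the central zeros -/
theorem avoid_central (A : TwistData G 1) (F : FunEq A) {r : ℕ} (hr2 : r ≤ 2)
    (hr : meromorphicOrderAt (A.Lin ⊥ 1) 1 = (r : WithTop ℤ)) {Z : Subgroup G}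
    (hZ : Z ≤ Subgroup.center G) :
    (∀ χ ∈ Irr G, 0 ≤ A.ord χ) ∧ Avoid Z (supp A) := by
  obtain ⟨h1, h2⟩ := supp_shape A F hr2 hr
  refine ⟨h1, ?_⟩
  rcases h2 with h | ⟨μ, ν, h⟩ | ⟨χ₀, D, l, hd, h⟩
  · rw [h]; exact avoid_empty hZ
  · rw [h]; exact avoid_two hZ μ ν
  · rw [h]; exact hd.avoid_dih hZ

/-- meromorphy of the linear L-functions -/
lemma lin_mero (A : TwistData G s₀) (H : Subgroup G) (ψ : H →* ℂˣ) :
    MeromorphicAt (A.Lin H ψ) s₀ := by
  classical
  choose! m hm using fun χ (hχ : χ ∈ Irr G) => exists_mult hχ H ψ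
  have h1 : (fun s => ∏ᶠ χ ∈ Irr G, A.L χ s ^ m χ) = ∏ χ ∈ irrF G, (A.L χ ^ m χ) := by
    funext s
    rw [finprod_mem_eq_finite_toFinset_prod _ (irr_finite (G := G)), Finset.prod_apply]
    rfl
  have h2 : MeromorphicAt (∏ χ ∈ irrF G, (A.L χ ^ m χ)) s₀ :=
    MeromorphicAt.prod fun χ hχ => ((A.mero χ (mem_irrF.mp hχ)).1).pow _
  rw [← h1] at h2
  exact h2.congr (A.induce H ψ m hm).symm

/-- equivariant values vanish simultaneously -/
lemma Agree.zero_iff {σ : ℂ ≃+* ℂ} {f f' : ℂ → ℂ} {c c' : ℂ} (h : Agree σ s₀ f c f' c')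
    (hc : c ≠ 0) (hc' : c' ≠ 0) (hf : MeromorphicAt f s₀) (hf' : MeromorphicAt f' s₀) :
    meromorphicOrderAt f s₀ = 0 ↔ meromorphicOrderAt f' s₀ = 0 := by
  obtain ⟨v, v', hv, hv', hvv⟩ := h
  have key : ∀ {g : ℂ → ℂ} {w : ℂ}, MeromorphicAt g s₀ → Tendsto g (𝓝[≠] s₀) (𝓝 w) →
      (meromorphicOrderAt g s₀ = 0 ↔ w ≠ 0) := by
    intro g w hg hw
    constructor
    · intro h0
      obtain ⟨u, hu, hu'⟩ := (tendsto_ne_zero_iff_meromorphicOrderAt_eq_zero hg).mpr h0
      rw [tendsto_nhds_unique hw hu']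
      exact hu
    · intro hw0
      exact (tendsto_ne_zero_iff_meromorphicOrderAt_eq_zero hg).mp ⟨w, hw0, hw⟩
  rw [key hf hv, key hf' hv']
  constructor
  · intro h1 h2
    rw [h2, zero_div, EmbeddingLike.map_eq_zero_iff] at hvv
    rcases div_eq_zero_iff.mp hvv with h3 | h3
    · exact h1 h3
    · exact hc h3
  · intro h1 h2
    rw [h2, zero_div, map_zero] at hvv
    rcases div_eq_zero_iff.mp hvv.symm with h3 | h3
    · exact h1 h3
    · exact hc' h3

lemma perLin_ne (A : TwistData G s₀) (P : Periods A) (H : Subgroup G) (ψ : H →* ℂˣ) :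
    P.perLin H ψ ≠ 0 := by
  classical
  choose! m hm using fun χ (hχ : χ ∈ Irr G) => exists_mult hχ H ψ
  rw [P.induce H ψ m hm, finprod_mem_eq_finite_toFinset_prod _ (irr_finite (G := G)),
    Finset.prod_ne_zero_iff]
  intro χ hχ
  exact pow_ne_zero _ (P.per_ne χ (mem_irrF.mp hχ))

/-- Galois invariance of the function of the orders, degree at most two -/
theorem theta_gal2 (A : TwistData G s₀) {Z : Subgroup G} (hZ : Z ≤ Subgroup.center G) {r : ℕ}
    (hr2 : r ≤ 2) (hr : meromorphicOrderAt (A.Lin ⊥ 1) s₀ = (r : WithTop ℤ)) (σ : ℂ ≃+* ℂ)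
    (hsh : ∀ H : Subgroup G, Z ≤ H → Group.IsSolvable H → ∀ ψ : H →* ℂˣ,
      meromorphicOrderAt (A.Lin H ψ) s₀ = 0 ↔ meromorphicOrderAt (A.Lin H (galL σ ψ)) s₀ = 0)
    (g : G) : σ ((theta A.ord : G → ℂ) g) = (theta A.ord : G → ℂ) g := by
  classical
  have hθ := A.isSol
  have h1 := A.theta_one hr
  set C := (Subgroup.zpowers g ⊔ Z : Subgroup G) with hC
  have hgC : g ∈ C := Subgroup.mem_sup_left (Subgroup.mem_zpowers g)
  have hcC : ∀ a b : C, a * b = b * a := by
    have hZn : Z.Normal := ⟨fun z hz g => by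
      rw [Subgroup.mem_center_iff.mp (hZ hz) g, mul_inv_cancel_right]
      exact hz⟩
    rintro ⟨a, ha⟩ ⟨b, hb⟩
    obtain ⟨x, ⟨k, rfl⟩, z, hz, rfl⟩ := Subgroup.mem_sup_of_normal_right.mp ha
    obtain ⟨y, ⟨l, rfl⟩, w, hw, rfl⟩ := Subgroup.mem_sup_of_normal_right.mp hb
    apply Subtype.ext
    change g ^ k * z * (g ^ l * w) = g ^ l * w * (g ^ k * z)
    have c1 := fun g => Subgroup.mem_center_iff.mp (hZ hz) g
    have c2 := fun g => Subgroup.mem_center_iff.mp (hZ hw) g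
    calc g ^ k * z * (g ^ l * w) = g ^ k * (z * (g ^ l * w)) := by rw [mul_assoc]
      _ = g ^ k * (g ^ l * w * z) := by rw [c1]
      _ = g ^ k * g ^ l * (w * z) := by simp only [mul_assoc]
      _ = g ^ l * g ^ k * (z * w) := by rw [c2 z, ← zpow_add, ← zpow_add, add_comm]
      _ = g ^ l * (g ^ k * z * w) := by simp only [mul_assoc]
      _ = g ^ l * (w * (g ^ k * z)) := by rw [c2]
      _ = g ^ l * w * (g ^ k * z) := by simp only [mul_assoc]
  let _ : CommGroup C := { (inferInstance : Group C) with mul_comm := hcC }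
  have := finite_dual C
  have : Fintype (C →* ℂˣ) := Fintype.ofFinite _
  have : Fintype C := Fintype.ofFinite C
  choose a ha1 ha2 using fun ψ : C →* ℂˣ => A.order_mult C ψ
  have hinv := fun c : C => inversion (η := fun c : C => (theta A.ord : G → ℂ) c) ha2 c
  have h0 : ∀ ψ, 0 ≤ a ψ := by
    intro ψ
    have h2 := A.hol C ψ (sol_of_comm hcC)
    rw [ha1] at h2
    exact_mod_cast h2
  have hsum : ∑ ψ : C →* ℂˣ, a ψ ≤ 2 := by
    have h2 := hinv 1
    have h3 : (theta A.ord : G → ℂ) ((1 : C) : G) = r := h1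
    rw [h3] at h2
    have h4 : ((∑ ψ : C →* ℂˣ, a ψ : ℤ) : ℂ) = ((r : ℤ) : ℂ) := by
      push_cast
      rw [h2]
      refine Finset.sum_congr rfl fun ψ _ => ?_
      rw [map_one, Units.val_one, mul_one]
    have h5 : ∑ ψ : C →* ℂˣ, a ψ = (r : ℤ) := by exact_mod_cast h4
    rw [h5]
    exact_mod_cast hr2
  have hsupp : ∀ ψ, a ψ = 0 ↔ a (galL σ ψ) = 0 := by
    intro ψ
    have h2 := hsh C le_sup_right (sol_of_comm hcC) ψ
    rw [ha1, ha1] at h2
    constructor
    · intro h3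
      exact_mod_cast h2.mp (by rw [h3]; rfl)
    · intro h3
      exact_mod_cast h2.mpr (by rw [h3]; rfl)
  have hgal : ∀ ψ, a (galL σ ψ) = a ψ := by
    intro ψ
    by_contra hne
    have e1 : ψ ≠ galL σ ψ := fun h => hne (by rw [← h])
    have p1 : 1 ≤ a ψ := by
      have := h0 ψ
      by_contra h2
      have h3 : a ψ = 0 := by omega
      have h4 := (hsupp ψ).mp h3
      exact hne (by omega)
    have p2 : 1 ≤ a (galL σ ψ) := by
      have := h0 (galL σ ψ)
      by_contra h2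
      have h3 : a (galL σ ψ) = 0 := by omega
      have h4 := (hsupp ψ).mpr h3
      exact hne (by omega)
    have h2 : ∑ χ ∈ ({ψ, galL σ ψ} : Finset (C →* ℂˣ)), a χ ≤ ∑ χ : C →* ℂˣ, a χ :=
      Finset.sum_le_sum_of_subset_of_nonneg (Finset.subset_univ _) fun χ _ _ => h0 χ
    rw [Finset.sum_pair e1] at h2
    omega
  have h2 := hinv ⟨g, hgC⟩
  have h3 : (theta A.ord : G → ℂ) g =
      ∑ ψ : C →* ℂˣ, (a ψ : ℂ) * ((ψ ⟨g, hgC⟩ : ℂˣ) : ℂ) := h2
  rw [h3, map_sum]
  have hbij : Function.Bijective (galL σ : (C →* ℂˣ) → (C →* ℂˣ)) := by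
    rw [Fintype.bijective_iff_injective_and_card]
    refine ⟨?_, rfl⟩
    intro α β h
    ext x
    have h1 := congrArg (fun f : C →* ℂˣ => ((f x : ℂˣ) : ℂ)) h
    simp only [galL_val] at h1
    exact σ.injective h1
  rw [← (Equiv.ofBijective _ hbij).sum_comp (fun ψ : C →* ℂˣ =>
    (a ψ : ℂ) * ((ψ ⟨g, hgC⟩ : ℂˣ) : ℂ))]
  refine Finset.sum_congr rfl fun ψ _ => ?_
  rw [map_mul, map_intCast, Equiv.ofBijective_apply, hgal, galL_val]

end

end Pool.Agent.Q7.DC
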