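import Mathlib
import Pool.Agent.Q7.DC.Shp

/-!
# Equivariance of the values for all linear characters
-/

set_option autoImplicit false
set_option linter.unusedSectionVars false

namespace Pool.Agent.Q7.DC

open Pool.Agent.H302R2 Pool.Agent.H302R3 Pool.Agent.H541R3.ART Pool.Agent.W446.AS
  Pool.Agent.Q7.TZ Pool.Agent.Q7.SZ Pool.Agent.Q7.GR MulAction Filter Topology

section

variable {G : Type} [Group G] [Finite G] {s₀ : ℂ}

/-- equivariance for the irreducible characters implies equivariance for the linear characters of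
all subgroups -/
theorem agree_lin (A : TwistData G s₀) (P : Periods A) (σ : ℂ ≃+* ℂ)
    (h : ∀ χ ∈ Irr G, Agree σ s₀ (A.L χ) (P.per χ) (A.L fun g => σ (χ g))
      (P.per fun g => σ (χ g))) (H : Subgroup G) (ψ : H →* ℂˣ) :
    Agree σ s₀ (A.Lin H ψ) (P.perLin H ψ) (A.Lin H (galL σ ψ)) (P.perLin H (galL σ ψ)) := by
  classical
  choose! v v' hv hv' hvv using h
  choose! m hm using fun χ (hχ : χ ∈ Irr G) => exists_mult hχ H ψ
  let m' : (G → ℂ) → ℕ := fun χ => m (fun g => σ.symm (χ g))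
  have hm' : ∀ χ ∈ Irr G, ∑ᶠ h : H, χ h * (((galL σ ψ h)⁻¹ : ℂˣ) : ℂ) =
      (m' χ : ℂ) * (Nat.card H : ℂ) := by
    intro χ hχ
    have h1 := mult_conj σ H ψ (hm _ (irr_gal σ.symm hχ))
    have h2 : (fun g => σ ((fun g => σ.symm (χ g)) g)) = χ := by
      funext g
      exact σ.apply_symm_apply _
    rw [h2] at h1
    exact h1
  have hm'σ : ∀ χ : G → ℂ, m' (fun g => σ (χ g)) = m χ := by
    intro χ
    change m (fun g => σ.symm (σ (χ g))) = m χ
    congr 1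
    funext g
    exact σ.symm_apply_apply _
  have t1 : Tendsto (A.Lin H ψ) (𝓝[≠] s₀) (𝓝 (∏ χ ∈ irrF G, v χ ^ m χ)) := by
    refine Tendsto.congr' (A.induce H ψ m hm).symm ?_
    have h1 : (fun s => ∏ᶠ χ ∈ Irr G, A.L χ s ^ m χ) = fun s => ∏ χ ∈ irrF G, A.L χ s ^ m χ := by
      funext s
      rw [finprod_mem_eq_finite_toFinset_prod _ (irr_finite (G := G))]
      rfl
    rw [h1]
    exact tendsto_finsetProd _ fun χ hχ => (hv χ (mem_irrF.mp hχ)).pow _
  have t2 : Tendsto (A.Lin H (galL σ ψ)) (𝓝[≠] s₀) (𝓝 (∏ χ ∈ irrF G, v' χ ^ m χ)) := by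
    refine Tendsto.congr' (A.induce H (galL σ ψ) m' hm').symm ?_
    have h1 : (fun s => ∏ᶠ χ ∈ Irr G, A.L χ s ^ m' χ) =
        fun s => ∏ χ ∈ irrF G, A.L (fun g => σ (χ g)) s ^ m χ := by
      funext s
      rw [finprod_mem_eq_finite_toFinset_prod _ (irr_finite (G := G))]
      change ∏ χ ∈ irrF G, A.L χ s ^ m' χ = _
      rw [← prod_gal σ (fun χ => A.L χ s ^ m' χ)]
      refine Finset.prod_congr rfl fun χ _ => ?_
      rw [hm'σ]
    rw [h1]
    exact tendsto_finsetProd _ fun χ hχ => (hv' χ (mem_irrF.mp hχ)).pow _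
  refine ⟨_, _, t1, t2, ?_⟩
  rw [P.induce H ψ m hm, P.induce H (galL σ ψ) m' hm',
    finprod_mem_eq_finite_toFinset_prod _ (irr_finite (G := G)),
    finprod_mem_eq_finite_toFinset_prod _ (irr_finite (G := G))]
  change σ ((∏ χ ∈ irrF G, v χ ^ m χ) / ∏ χ ∈ irrF G, P.per χ ^ m χ) =
    (∏ χ ∈ irrF G, v' χ ^ m χ) / ∏ χ ∈ irrF G, P.per χ ^ m' χ
  rw [← prod_gal σ (fun χ => P.per χ ^ m' χ), ← Finset.prod_div_distrib,
    ← Finset.prod_div_distrib, map_prod]
  refine Finset.prod_congr rfl fun χ hχ => ?_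
  rw [hm'σ, ← div_pow, ← div_pow, map_pow, hvv χ (mem_irrF.mp hχ)]

/-- **The equivariance of all central values from totally real fields**, order at most two. -/
theorem deligne_two (A : TwistData G 1) (F : FunEq A) (P : Periods A) {Z : Subgroup G}
    (hZ : Z ≤ Subgroup.center G) {r : ℕ} (hr2 : r ≤ 2)
    (hr : meromorphicOrderAt (A.Lin ⊥ 1) 1 = (r : WithTop ℤ)) (σ : ℂ ≃+* ℂ)
    (hlin : ∀ (H : Subgroup G), Z ≤ H → Group.IsSolvable H → ∀ ψ : H →* ℂˣ,
      Agree σ 1 (A.Lin H ψ) (P.perLin H ψ) (A.Lin H (galL σ ψ)) (P.perLin H (galL σ ψ))) :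
    ∀ χ ∈ Irr G, Agree σ 1 (A.L χ) (P.per χ) (A.L fun g => σ (χ g)) (P.per fun g => σ (χ g)) := by
  obtain ⟨hnn, hav⟩ := avoid_central A F hr2 hr hZ
  have hg := theta_gal2 A hZ hr2 hr σ fun H hZH hs ψ =>
    (hlin H hZH hs ψ).zero_iff (perLin_ne A P H ψ) (perLin_ne A P H (galL σ ψ))
      (lin_mero A H ψ) (lin_mero A H (galL σ ψ))
  exact deligne_of_avoid A P hnn hav σ (fun χ hχ => by rw [ord_gal hg hχ]) hlin

end

end Pool.Agent.Q7.DC
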