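import Mathlib
import Pool.Agent.Q7.DC.Fin

/-!
# Expansions with prescribed central character and their Galois conjugates
-/

set_option autoImplicit false
set_option linter.unusedSectionVars false

namespace Pool.Agent.Q7.DC

open Pool.Agent.H302R2 Pool.Agent.H302R3 Pool.Agent.H541R3.ART Pool.Agent.W446.AS
  Pool.Agent.Q7.TZ Pool.Agent.Q7.SZ Pool.Agent.Q7.GR MulAction Filter Topology

section

variable {G : Type} [Group G] [Finite G]

lemma irr_one_ne {χ : G → ℂ} (hχ : χ ∈ Irr G) : χ 1 ≠ 0 := by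
  obtain ⟨d, hd, h⟩ := irr_deg_pos hχ
  rw [h]
  exact_mod_cast hd.ne'

/-- central characters match -/
lemma central_match {Z : Subgroup G} (hZ : Z ≤ Subgroup.center G) {χ : G → ℂ} (hχ : χ ∈ Irr G)
    {H : Subgroup G} (ψ : H →* ℂˣ) (h : pr (lc ψ) (fun k : H => χ k) ≠ 0) {z : G} (hz : z ∈ Z)
    (hz' : z ∈ H) (g : G) : χ (g * z) = ((ψ ⟨z, hz'⟩ : ℂˣ) : ℂ) * χ g := by
  classical
  have : Fintype H := Fintype.ofFinite H
  obtain ⟨ω, hω⟩ := irr_central hχ hZ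
  have h1 := hω g ⟨z, hz⟩
  change χ (g * z) = _ at h1
  rw [h1]
  congr 1
  have h2 : ∑ k : H, lc ψ k * χ ((k⁻¹ : H) : G) =
      ((ψ ⟨z, hz'⟩ : ℂˣ) : ℂ) * (((ω ⟨z, hz⟩)⁻¹ : ℂˣ) : ℂ) * ∑ k : H, lc ψ k * χ ((k⁻¹ : H) : G) := by
    rw [Finset.mul_sum]
    rw [← Equiv.sum_comp (Equiv.mulRight (⟨z, hz'⟩ : H))
      (fun k : H => lc ψ k * χ ((k⁻¹ : H) : G))]
    refine Finset.sum_congr rfl fun k _ => ?_
    simp only [Equiv.coe_mulRight]
    have e1 : (((k * ⟨z, hz'⟩ : H)⁻¹ : H) : G) = ((k⁻¹ : H) : G) * (((⟨z, hz⟩ : Z)⁻¹ : Z) : G) := by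
      have e2 : (((k * ⟨z, hz'⟩ : H)⁻¹ : H) : G) = z⁻¹ * (k : G)⁻¹ := by
        rw [mul_inv_rev]
        rfl
      have e3 := Subgroup.mem_center_iff.mp (hZ (inv_mem hz)) ((k : G)⁻¹)
      rw [e2, ← e3]
      rfl
    rw [e1, hω, map_inv]
    change ((ψ (k * ⟨z, hz'⟩) : ℂˣ) : ℂ) * _ = _
    rw [map_mul, Units.val_mul]
    ring
  rw [pr_eq] at h
  have h3 : ∑ k : H, lc ψ k * χ ((k⁻¹ : H) : G) ≠ 0 := by
    intro h4
    apply h
    rw [h4, mul_zero]
  have h5 : ((ψ ⟨z, hz'⟩ : ℂˣ) : ℂ) * (((ω ⟨z, hz⟩)⁻¹ : ℂˣ) : ℂ) = 1 := by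
    have h6 : (((ψ ⟨z, hz'⟩ : ℂˣ) : ℂ) * (((ω ⟨z, hz⟩)⁻¹ : ℂˣ) : ℂ) - 1) *
        ∑ k : H, lc ψ k * χ ((k⁻¹ : H) : G) = 0 := by
      rw [sub_mul, one_mul, ← h2, sub_self]
    rcases mul_eq_zero.mp h6 with h7 | h7
    · exact sub_eq_zero.mp h7
    · exact absurd h7 h3
  have h6 : ψ ⟨z, hz'⟩ * (ω ⟨z, hz⟩)⁻¹ = 1 := Units.ext h5
  rw [mul_inv_eq_one.mp h6]

/-- the expansion, with matching central characters -/
theorem expand_vec {Z : Subgroup G} (hZ : Z ≤ Subgroup.center G) {S : Set (G → ℂ)}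
    (hav : Avoid Z S) {χ₀ : G → ℂ} (hχ₀ : χ₀ ∈ Irr G) (h₀ : χ₀ ∉ S) :
    ∃ l : List ((Σ H : Subgroup G, (H →* ℂˣ)) × ℤ),
      (∀ t ∈ l, Z ≤ t.1.1 ∧ Group.IsSolvable t.1.1 ∧
        (∀ ζ ∈ S, pr (lc t.1.2) (fun h : t.1.1 => ζ h) = 0) ∧
        ∀ z ∈ Z, ∀ hz' : z ∈ t.1.1, χ₀ z = ((t.1.2 ⟨z, hz'⟩ : ℂˣ) : ℂ) * χ₀ 1) ∧
      Finsupp.single χ₀ (1 : ℤ) = (l.map fun t => t.2 • wv t.1.1 t.1.2).sum := by
  classical
  obtain ⟨ω, hω⟩ := irr_central hχ₀ hZ
  let W : Set ((G → ℂ) →₀ ℤ) := {f | ∃ (H : Subgroup G) (ψ : H →* ℂˣ), Z ≤ H ∧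
    Group.IsSolvable H ∧ (∀ ζ ∈ S, pr (lc ψ) (fun h : H => ζ h) = 0) ∧
    (∀ z (hz : z ∈ Z) (hz' : z ∈ H), ψ ⟨z, hz'⟩ = ω ⟨z, hz⟩) ∧ f = wv H ψ}
  let N : AddSubgroup ((G → ℂ) →₀ ℤ) := AddSubgroup.closure W
  let good : (G → ℂ) → Prop := fun χ => ∀ (g : G) (z : Z), χ (g * z) = ((ω z : ℂˣ) : ℂ) * χ g
  let δ : (G → ℂ) → ((G → ℂ) →₀ ℤ) ⧸ N := fun χ =>
    if good χ then QuotientAddGroup.mk' N (Finsupp.single χ 1) else 0
  have hkill : Kills Z S δ := by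
    intro H hZH hs ψ hψ
    by_cases hψω : ∀ z (hz : z ∈ Z) (hz' : z ∈ H), ψ ⟨z, hz'⟩ = ω ⟨z, hz⟩
    · have h1 : DD δ H.subtype (lc ψ) = QuotientAddGroup.mk' N (wv H ψ) := by
        unfold DD wv
        rw [map_sum]
        refine Finset.sum_congr rfl fun χ hχ => ?_
        rw [map_zsmul]
        by_cases h0 : pr (lc ψ) (fun k : H => χ (H.subtype k)) = 0
        · have : fl (pr (lc ψ) (fun k : H => χ (H.subtype k))) = 0 := by
            apply fl_eq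
            rw [h0]
            norm_num
          rw [this, zero_zsmul, zero_zsmul]
        · have hg : good χ := by
            intro g z
            have h2 := central_match hZ (mem_irrF.mp hχ) ψ h0 z.2 (hZH z.2) g
            rw [h2, hψω z z.2 (hZH z.2)]
          change _ • (if good χ then QuotientAddGroup.mk' N (Finsupp.single χ 1) else 0) = _
          rw [if_pos hg]
      rw [h1]
      exact (QuotientAddGroup.eq_zero_iff _).mpr
        (AddSubgroup.subset_closure ⟨H, ψ, hZH, hs, hψ, hψω, rfl⟩)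
    · unfold DD
      refine Finset.sum_eq_zero fun χ hχ => ?_
      by_cases h0 : pr (lc ψ) (fun k : H => χ (H.subtype k)) = 0
      · have : fl (pr (lc ψ) (fun k : H => χ (H.subtype k))) = 0 := by
          apply fl_eq
          rw [h0]
          norm_num
        rw [this, zero_zsmul]
      · have hg : ¬ good χ := by
          intro hg
          apply hψω
          intro z hz hz'
          have h2 := central_match hZ (mem_irrF.mp hχ) ψ h0 hz hz' 1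
          have h3 := hg 1 ⟨z, hz⟩
          change χ (1 * z) = _ at h3
          rw [h3] at h2
          exact (Units.ext (mul_right_cancel₀ (irr_one_ne (mem_irrF.mp hχ)) h2)).symm
        change _ • (if good χ then QuotientAddGroup.mk' N (Finsupp.single χ 1) else 0) = _
        rw [if_neg hg, smul_zero]
  have h1 := hav _ δ hkill χ₀ hχ₀ h₀
  have hg₀ : good χ₀ := hω
  change (if good χ₀ then QuotientAddGroup.mk' N (Finsupp.single χ₀ 1) else 0) = 0 at h1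
  rw [if_pos hg₀] at h1
  have h2 : Finsupp.single χ₀ (1 : ℤ) ∈ N := (QuotientAddGroup.eq_zero_iff _).mp h1
  have key : ∀ f ∈ N, ∃ l : List ((Σ H : Subgroup G, (H →* ℂˣ)) × ℤ),
      (∀ t ∈ l, Z ≤ t.1.1 ∧ Group.IsSolvable t.1.1 ∧
        (∀ ζ ∈ S, pr (lc t.1.2) (fun h : t.1.1 => ζ h) = 0) ∧
        ∀ z ∈ Z, ∀ hz' : z ∈ t.1.1, χ₀ z = ((t.1.2 ⟨z, hz'⟩ : ℂˣ) : ℂ) * χ₀ 1) ∧
      f = (l.map fun t => t.2 • wv t.1.1 t.1.2).sum := by
    intro f hf
    induction hf using AddSubgroup.closure_induction with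
    | mem f hf =>
      obtain ⟨H, ψ, hZH, hs, hψ, hψω, rfl⟩ := hf
      refine ⟨[(⟨H, ψ⟩, 1)], ?_, by simp⟩
      intro t ht
      rw [List.mem_singleton] at ht
      subst ht
      refine ⟨hZH, hs, hψ, ?_⟩
      intro z hz hz'
      rw [hψω z hz hz']
      have := hω 1 ⟨z, hz⟩
      rw [one_mul] at this
      exact this
    | zero => exact ⟨[], by simp, by simp⟩
    | add f g _ _ ihf ihg =>
      obtain ⟨l₁, a1, a2⟩ := ihf
      obtain ⟨l₂, b1, b2⟩ := ihg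
      refine ⟨l₁ ++ l₂, ?_, ?_⟩
      · intro t ht
        rcases List.mem_append.mp ht with h | h
        · exact a1 t h
        · exact b1 t h
      · rw [List.map_append, List.sum_append, ← a2, ← b2]
    | neg f _ ihf =>
      obtain ⟨l₁, a1, a2⟩ := ihf
      refine ⟨l₁.map fun t => (t.1, -t.2), ?_, ?_⟩
      · intro t ht
        obtain ⟨t', ht', rfl⟩ := List.mem_map.mp ht
        exact a1 t' ht'
      · have e1 : ((l₁.map fun t => (t.1, -t.2)).map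
            fun t : (Σ H : Subgroup G, (H →* ℂˣ)) × ℤ => t.2 • wv t.1.1 t.1.2) =
            (l₁.map fun t => -(t.2 • wv t.1.1 t.1.2)) := by
          rw [List.map_map]
          apply List.map_congr_left
          intro t _
          simp
        rw [e1, a2, List.sum_neg, List.map_map]
        rfl
  exact key _ h2

end

end Pool.Agent.Q7.DC
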