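import Mathlib
import Pool.Agent.Q7.DC.Cen

/-!
# Values and Galois conjugates from an expansion
-/

set_option autoImplicit false
set_option linter.unusedSectionVars false

namespace Pool.Agent.Q7.DC

open Pool.Agent.H302R2 Pool.Agent.H302R3 Pool.Agent.H541R3.ART Pool.Agent.W446.AS
  Pool.Agent.Q7.TZ Pool.Agent.Q7.SZ Pool.Agent.Q7.GR MulAction Filter Topology

section

variable {G : Type} [Group G] [Finite G] {s₀ : ℂ}

lemma wv_nat (H : Subgroup G) (ψ : H →* ℂˣ) {m : (G → ℂ) → ℕ}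
    (hm : ∀ χ ∈ Irr G, ∑ᶠ h : H, χ h * (((ψ h)⁻¹ : ℂˣ) : ℂ) = (m χ : ℂ) * (Nat.card H : ℂ))
    {χ : G → ℂ} (hχ : χ ∈ Irr G) : wv H ψ χ = (m χ : ℤ) := by
  rw [wv_apply H ψ hχ]
  apply fl_eq
  have h2 : pr (lc ψ) (fun k : H => χ (H.subtype k)) = pr (lc ψ) (fun h : H => χ h) := rfl
  rw [h2, mult_pr H ψ (hm χ hχ)]
  push_cast
  rfl

/-- products of conjugates with the multiplicities of an induced character -/
lemma prod_wv_gal (σ : ℂ ≃+* ℂ) (H : Subgroup G) (ψ : H →* ℂˣ) : ∃ m' : (G → ℂ) → ℕ,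
    (∀ χ ∈ Irr G, ∑ᶠ h : H, χ h * (((galL σ ψ h)⁻¹ : ℂˣ) : ℂ) =
      (m' χ : ℂ) * (Nat.card H : ℂ)) ∧
    ∀ F : (G → ℂ) → ℂ, ∏ χ ∈ irrF G, F (fun g => σ (χ g)) ^ wv H ψ χ =
      ∏ᶠ χ ∈ Irr G, F χ ^ m' χ := by
  classical
  choose! m hm using fun χ (hχ : χ ∈ Irr G) => exists_mult hχ H ψ
  let m' : (G → ℂ) → ℕ := fun χ => m (fun g => σ.symm (χ g))
  have hm' : ∀ χ ∈ Irr G, ∑ᶠ h : H, χ h * (((galL σ ψ h)⁻¹ : ℂˣ) : ℂ) =
      (m' χ : ℂ) * (Nat.card H : ℂ) := by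
    intro χ hχ
    have h1 := mult_conj σ H ψ (hm _ (irr_gal σ.symm hχ))
    have h2 : (fun g => σ ((fun g => σ.symm (χ g)) g)) = χ := by
      funext g
      exact σ.apply_symm_apply _
    rw [h2] at h1
    exact h1
  have hm'σ : ∀ χ : G → ℂ, m' (fun g => σ (χ g)) = m χ := by
    intro χ
    change m (fun g => σ.symm (σ (χ g))) = m χ
    congr 1
    funext g
    exact σ.symm_apply_apply _
  refine ⟨m', hm', fun F => ?_⟩
  rw [finprod_mem_eq_finite_toFinset_prod _ (irr_finite (G := G))]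
  change _ = ∏ χ ∈ irrF G, F χ ^ m' χ
  rw [← prod_gal σ (fun χ => F χ ^ m' χ)]
  refine Finset.prod_congr rfl fun χ hχ => ?_
  rw [hm'σ, wv_nat H ψ hm (mem_irrF.mp hχ), zpow_natCast]

/-- products over an expansion -/
lemma list_expand {l : List ((Σ H : Subgroup G, (H →* ℂˣ)) × ℤ)} {χ₀ : G → ℂ}
    (hχ₀ : χ₀ ∈ Irr G)
    (h : Finsupp.single χ₀ (1 : ℤ) = (l.map fun t => t.2 • wv t.1.1 t.1.2).sum)
    (F : (G → ℂ) → ℂ) (hF : ∀ χ ∈ irrF G, F χ ≠ 0) :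
    F χ₀ = (l.map fun t => (∏ χ ∈ irrF G, F χ ^ wv t.1.1 t.1.2 χ) ^ t.2).prod := by
  classical
  have key : ∀ l : List ((Σ H : Subgroup G, (H →* ℂˣ)) × ℤ),
      ∏ χ ∈ irrF G, F χ ^ ((l.map fun t => t.2 • wv t.1.1 t.1.2).sum χ) =
        (l.map fun t => (∏ χ ∈ irrF G, F χ ^ wv t.1.1 t.1.2 χ) ^ t.2).prod := by
    intro l
    induction l with
    | nil => simp
    | cons t l ih =>
      rw [List.map_cons, List.sum_cons, List.map_cons, List.prod_cons, ← ih, ← Finset.prod_zpow,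
        ← Finset.prod_mul_distrib]
      refine Finset.prod_congr rfl fun χ hχ => ?_
      rw [Finsupp.add_apply, zpow_add₀ (hF χ hχ), ← zpow_mul, Finsupp.smul_apply, smul_eq_mul,
        mul_comm t.2]
  rw [← key l, ← h, Finset.prod_eq_single χ₀]
  · rw [Finsupp.single_eq_same, zpow_one]
  · intro φ _ hne
    rw [Finsupp.single_eq_of_ne hne, zpow_zero]
  · intro h
    exact absurd (mem_irrF.mpr hχ₀) h

/-- the conjugate product formulas -/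
theorem L_expand_gal (A : TwistData G s₀) {l : List ((Σ H : Subgroup G, (H →* ℂˣ)) × ℤ)}
    {χ₀ : G → ℂ} (hχ₀ : χ₀ ∈ Irr G)
    (h : Finsupp.single χ₀ (1 : ℤ) = (l.map fun t => t.2 • wv t.1.1 t.1.2).sum) (σ : ℂ ≃+* ℂ) :
    A.L (fun g => σ (χ₀ g)) =ᶠ[𝓝[≠] s₀]
      fun s => (l.map fun t => A.Lin t.1.1 (galL σ t.1.2) s ^ t.2).prod := by
  classical
  choose m' hm' hF using fun t : (Σ H : Subgroup G, (H →* ℂˣ)) × ℤ =>
    prod_wv_gal σ t.1.1 t.1.2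
  have hind : ∀ᶠ s in 𝓝[≠] s₀, ∀ t ∈ {t | t ∈ l}, A.Lin t.1.1 (galL σ t.1.2) s =
      ∏ᶠ χ ∈ Irr G, A.L χ s ^ m' t χ := by
    rw [Filter.eventually_all_finite (List.finite_toSet l)]
    intro t _
    exact A.induce t.1.1 (galL σ t.1.2) (m' t) (hm' t)
  filter_upwards [ev_ne A, hind] with s h1 h2
  have h3 := list_expand hχ₀ h (fun χ => A.L (fun g => σ (χ g)) s) (fun χ hχ =>
    h1 _ (mem_irrF.mpr (irr_gal σ (mem_irrF.mp hχ))))
  rw [h3]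
  congr 1
  apply List.map_congr_left
  intro t ht
  rw [h2 t ht, hF t (fun χ => A.L χ s)]

/-- the period of a character is the product of those of its expansion -/
theorem per_expand_gal {A : TwistData G s₀} (P : Periods A)
    {l : List ((Σ H : Subgroup G, (H →* ℂˣ)) × ℤ)} {χ₀ : G → ℂ} (hχ₀ : χ₀ ∈ Irr G)
    (h : Finsupp.single χ₀ (1 : ℤ) = (l.map fun t => t.2 • wv t.1.1 t.1.2).sum) (σ : ℂ ≃+* ℂ) :
    P.per (fun g => σ (χ₀ g)) = (l.map fun t => P.perLin t.1.1 (galL σ t.1.2) ^ t.2).prod := by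
  classical
  choose m' hm' hF using fun t : (Σ H : Subgroup G, (H →* ℂˣ)) × ℤ =>
    prod_wv_gal σ t.1.1 t.1.2
  have h3 := list_expand hχ₀ h (fun χ => P.per (fun g => σ (χ g))) (fun χ hχ =>
    P.per_ne _ (irr_gal σ (mem_irrF.mp hχ)))
  rw [h3]
  congr 1
  apply List.map_congr_left
  intro t ht
  rw [P.induce t.1.1 (galL σ t.1.2) (m' t) (hm' t), hF t (fun χ => P.per χ)]

lemma galL_refl {H : Type} [Group H] (ψ : H →* ℂˣ) : galL (RingEquiv.refl ℂ) ψ = ψ := by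
  ext h
  rw [galL_val]
  rfl

/-- products of equivariant values -/
lemma agree_list {ι : Type} {σ : ℂ ≃+* ℂ} (l : List ι) (f f' : ι → ℂ → ℂ) (c c' : ι → ℂ)
    (a : ι → ℤ) (h : ∀ t ∈ l, ∃ v v' : ℂ, v ≠ 0 ∧ v' ≠ 0 ∧ Tendsto (f t) (𝓝[≠] s₀) (𝓝 v) ∧
      Tendsto (f' t) (𝓝[≠] s₀) (𝓝 v') ∧ σ (v / c t) = v' / c' t) :
    Agree σ s₀ (fun s => (l.map fun t => f t s ^ a t).prod) ((l.map fun t => c t ^ a t).prod)
      (fun s => (l.map fun t => f' t s ^ a t).prod) ((l.map fun t => c' t ^ a t).prod) := by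
  induction l with
  | nil =>
    refine ⟨1, 1, ?_, ?_, ?_⟩
    · simp only [List.map_nil, List.prod_nil]
      exact tendsto_const_nhds
    · simp only [List.map_nil, List.prod_nil]
      exact tendsto_const_nhds
    · simp
  | cons t l ih =>
    obtain ⟨w, w', i1, i2, i3⟩ := ih fun t ht => h t (List.mem_cons_of_mem _ ht)
    obtain ⟨v, v', hv, hv', j1, j2, j3⟩ := h t List.mem_cons_self
    refine ⟨v ^ a t * w, v' ^ a t * w', ?_, ?_, ?_⟩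
    · simp only [List.map_cons, List.prod_cons]
      exact (j1.zpow₀ _ (Or.inl hv)).mul i1
    · simp only [List.map_cons, List.prod_cons]
      exact (j2.zpow₀ _ (Or.inl hv')).mul i2
    · rw [List.map_cons, List.prod_cons, List.map_cons, List.prod_cons, mul_div_mul_comm,
        mul_div_mul_comm, map_mul, i3, ← div_zpow, ← div_zpow, map_zpow₀, j3]

/-- equivariant nonvanishing values -/
lemma Agree.nonzero {σ : ℂ ≃+* ℂ} {f f' : ℂ → ℂ} {c c' : ℂ} (h : Agree σ s₀ f c f' c')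
    (hc : c ≠ 0) (hf : MeromorphicAt f s₀) (h0 : meromorphicOrderAt f s₀ = 0) :
    ∃ v v' : ℂ, v ≠ 0 ∧ v' ≠ 0 ∧ Tendsto f (𝓝[≠] s₀) (𝓝 v) ∧
      Tendsto f' (𝓝[≠] s₀) (𝓝 v') ∧ σ (v / c) = v' / c' := by
  obtain ⟨v, v', h1, h2, h3⟩ := h
  have hv : v ≠ 0 := by
    obtain ⟨w, hw, hw'⟩ := (tendsto_ne_zero_iff_meromorphicOrderAt_eq_zero hf).mpr h0
    rw [tendsto_nhds_unique h1 hw']
    exact hw
  refine ⟨v, v', hv, ?_, h1, h2, h3⟩
  rintro rfl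
  rw [zero_div, EmbeddingLike.map_eq_zero_iff] at h3
  rcases div_eq_zero_iff.mp h3 with h4 | h4
  · exact hv h4
  · exact hc h4

/-- **Equivariance with the periods of the totally real fields**, for a character with an expansion
into characters with non-vanishing values -/
theorem agree_of_expand (A : TwistData G s₀) (P : Periods A) (σ : ℂ ≃+* ℂ)
    {l : List ((Σ H : Subgroup G, (H →* ℂˣ)) × ℤ)} {χ₀ : G → ℂ} (hχ₀ : χ₀ ∈ Irr G)
    (h : Finsupp.single χ₀ (1 : ℤ) = (l.map fun t => t.2 • wv t.1.1 t.1.2).sum)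
    (h0 : ∀ t ∈ l, meromorphicOrderAt (A.Lin t.1.1 t.1.2) s₀ = 0)
    (u : (Σ H : Subgroup G, (H →* ℂˣ)) × ℤ → ℂˣ)
    (hu : ∀ t ∈ l, Agree σ s₀ (A.Lin t.1.1 t.1.2) (P.perLin t.1.1 t.1.2 * (u t : ℂ))
      (A.Lin t.1.1 (galL σ t.1.2)) (P.perLin t.1.1 (galL σ t.1.2) * (u t : ℂ))) :
    Agree σ s₀ (A.L χ₀) (P.per χ₀ * ((l.map fun t => u t ^ t.2).prod : ℂˣ))
      (A.L fun g => σ (χ₀ g)) (P.per (fun g => σ (χ₀ g)) * ((l.map fun t => u t ^ t.2).prod : ℂˣ)) := by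
  have h1 := agree_list (s₀ := s₀) (σ := σ) l (fun t => A.Lin t.1.1 t.1.2)
    (fun t => A.Lin t.1.1 (galL σ t.1.2)) (fun t => P.perLin t.1.1 t.1.2 * (u t : ℂ))
    (fun t => P.perLin t.1.1 (galL σ t.1.2) * (u t : ℂ)) (fun t => t.2) (fun t ht =>
      (hu t ht).nonzero (mul_ne_zero (perLin_ne A P _ _) (u t).ne_zero) (lin_mero A _ _)
        (h0 t ht))
  obtain ⟨v, v', i1, i2, i3⟩ := h1
  have e1 := L_expand_gal A hχ₀ h (RingEquiv.refl ℂ)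
  have e2 := L_expand_gal A hχ₀ h σ
  have p1 := per_expand_gal P hχ₀ h (RingEquiv.refl ℂ)
  have p2 := per_expand_gal P hχ₀ h σ
  simp only [galL_refl] at e1 p1
  have hid : (fun g => (RingEquiv.refl ℂ) (χ₀ g)) = χ₀ := rfl
  rw [hid] at e1 p1
  have hprod : ∀ q : (Σ H : Subgroup G, (H →* ℂˣ)) × ℤ → ℂ,
      (l.map fun t => (q t * (u t : ℂ)) ^ t.2).prod =
        (l.map fun t => q t ^ t.2).prod * ((l.map fun t => u t ^ t.2).prod : ℂˣ) := by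
    intro q
    clear h h0 hu i1 i2 i3 e1 e2 p1 p2
    induction l with
    | nil => simp
    | cons t l ih =>
      rw [List.map_cons, List.prod_cons, ih, List.map_cons, List.prod_cons, List.map_cons,
        List.prod_cons, Units.val_mul, Units.val_zpow_eq_zpow_val, mul_zpow]
      ring
  refine ⟨v, v', i1.congr' e1.symm, i2.congr' e2.symm, ?_⟩
  rw [hprod, hprod, ← p1, ← p2] at i3
  exact i3

end

section

variable {G : Type} [Group G] [Finite G]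

/-- the expansions of the characters with nonvanishing central value -/
theorem expand_central (A : TwistData G 1) (F : FunEq A) {Z : Subgroup G}
    (hZ : Z ≤ Subgroup.center G) {r : ℕ} (hr2 : r ≤ 2)
    (hr : meromorphicOrderAt (A.Lin ⊥ 1) 1 = (r : WithTop ℤ)) {χ : G → ℂ} (hχ : χ ∈ Irr G)
    (h0 : A.ord χ = 0) : ∃ l : List ((Σ H : Subgroup G, (H →* ℂˣ)) × ℤ),
      (∀ t ∈ l, Z ≤ t.1.1 ∧ Group.IsSolvable t.1.1 ∧
        meromorphicOrderAt (A.Lin t.1.1 t.1.2) 1 = 0 ∧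
        ∀ z ∈ Z, ∀ hz' : z ∈ t.1.1, χ z = ((t.1.2 ⟨z, hz'⟩ : ℂˣ) : ℂ) * χ 1) ∧
      Finsupp.single χ (1 : ℤ) = (l.map fun t => t.2 • wv t.1.1 t.1.2).sum := by
  classical
  obtain ⟨-, hav⟩ := avoid_central A F hr2 hr hZ
  obtain ⟨l, h1, h2⟩ := expand_vec hZ hav hχ (fun hcon => hcon.2 h0)
  refine ⟨l, fun t ht => ?_, h2⟩
  obtain ⟨i1, i2, i3, i4⟩ := h1 t ht
  refine ⟨i1, i2, ?_, i4⟩
  choose! m hm using fun χ (hχ : χ ∈ Irr G) => exists_mult hχ t.1.1 t.1.2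
  rw [A.order_Lin t.1.1 t.1.2 m hm]
  have h3 : ∑ χ ∈ irrF G, (m χ : ℤ) * A.ord χ = 0 := by
    refine Finset.sum_eq_zero fun χ hχ => ?_
    by_cases h : A.ord χ = 0
    · rw [h, mul_zero]
    · have h4 := i3 χ ⟨mem_irrF.mp hχ, h⟩
      rw [mult_pr t.1.1 t.1.2 (hm χ (mem_irrF.mp hχ))] at h4
      have h5 : m χ = 0 := by exact_mod_cast h4
      rw [h5]
      simp
  rw [h3]
  rfl

/-- **Central values and the periods of totally real fields.** -/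
theorem central_values (A : TwistData G 1) (F : FunEq A) (P : Periods A) {Z : Subgroup G}
    (hZ : Z ≤ Subgroup.center G) {r : ℕ} (hr2 : r ≤ 2)
    (hr : meromorphicOrderAt (A.Lin ⊥ 1) 1 = (r : WithTop ℤ)) {c : G} (hc : c ∈ Z)
    (u : Subgroup G → ℂ → ℂˣ)
    (hu : ∀ (σ : ℂ ≃+* ℂ) (H : Subgroup G) (hZH : Z ≤ H), Group.IsSolvable H → ∀ ψ : H →* ℂˣ,
      Agree σ 1 (A.Lin H ψ) (P.perLin H ψ * (u H ((ψ ⟨c, hZH hc⟩ : ℂˣ) : ℂ) : ℂ))
        (A.Lin H (galL σ ψ)) (P.perLin H (galL σ ψ) * (u H ((ψ ⟨c, hZH hc⟩ : ℂˣ) : ℂ) : ℂ))) :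
    ∀ χ ∈ Irr G, ∃ v ∈ Subgroup.closure {x : ℂˣ | ∃ H : Subgroup G, Z ≤ H ∧
      Group.IsSolvable H ∧ x = u H (χ c / χ 1)}, ∀ σ : ℂ ≃+* ℂ,
        Agree σ 1 (A.L χ) (P.per χ * (v : ℂ)) (A.L fun g => σ (χ g))
          (P.per (fun g => σ (χ g)) * (v : ℂ)) := by
  classical
  intro χ hχ
  obtain ⟨hnn, -⟩ := avoid_central A F hr2 hr hZ
  have hord : ∀ σ : ℂ ≃+* ℂ, A.ord (fun g => σ (χ g)) = A.ord χ := by
    intro σ
    refine ord_gal (theta_gal2 A hZ hr2 hr σ fun H hZH hs ψ => ?_) hχ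
    exact (hu σ H hZH hs ψ).zero_iff (mul_ne_zero (perLin_ne A P H ψ) (Units.ne_zero _))
      (mul_ne_zero (perLin_ne A P H (galL σ ψ)) (Units.ne_zero _)) (lin_mero A H ψ)
      (lin_mero A H (galL σ ψ))
  by_cases h0 : A.ord χ = 0
  · obtain ⟨l, h1, h2⟩ := expand_central A F hZ hr2 hr hχ h0
    refine ⟨(l.map fun t => u t.1.1 (χ c / χ 1) ^ t.2).prod, ?_, fun σ => ?_⟩
    · refine Subgroup.list_prod_mem _ ?_
      intro x hx
      obtain ⟨t, ht, rfl⟩ := List.mem_map.mp hx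
      obtain ⟨i1, i2, i3, i4⟩ := h1 t ht
      have hx : u t.1.1 (χ c / χ 1) ∈ {x : ℂˣ | ∃ H : Subgroup G, Z ≤ H ∧
          Group.IsSolvable H ∧ x = u H (χ c / χ 1)} := ⟨t.1.1, i1, i2, rfl⟩
      exact Subgroup.zpow_mem _ (Subgroup.subset_closure hx) _
    · refine agree_of_expand A P σ hχ h2 (fun t ht => (h1 t ht).2.2.1)
        (fun t => u t.1.1 (χ c / χ 1)) ?_
      intro t ht
      obtain ⟨i1, i2, i3, i4⟩ := h1 t ht
      have h3 := hu σ t.1.1 i1 i2 t.1.2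
      have h4 : χ c / χ 1 = ((t.1.2 ⟨c, i1 hc⟩ : ℂˣ) : ℂ) := by
        rw [i4 c hc (i1 hc), mul_div_assoc, div_self (irr_one_ne hχ), mul_one]
      simp only [h4]
      exact h3
  · refine ⟨1, one_mem _, fun σ => ?_⟩
    have i1 := irr_gal σ hχ
    have i2 : A.ord (fun g => σ (χ g)) ≠ 0 := by rw [hord]; exact h0
    refine ⟨0, 0, tendsto_pos A hχ (lt_of_le_of_ne (hnn χ hχ) (Ne.symm h0)),
      tendsto_pos A i1 (lt_of_le_of_ne (hnn _ i1) (Ne.symm i2)), ?_⟩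
    rw [zero_div, zero_div, map_zero]

end

end Pool.Agent.Q7.DC
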