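import Mathlib
import Pool.Agent.Q7.DC.Val

/-!
# The part of a family of L-functions with given central character
-/

set_option autoImplicit false
set_option linter.unusedSectionVars false

namespace Pool.Agent.Q7.DC

open Pool.Agent.H302R2 Pool.Agent.H302R3 Pool.Agent.H541R3.ART Pool.Agent.W446.AS
  Pool.Agent.Q7.TZ Pool.Agent.Q7.SZ Pool.Agent.Q7.GR MulAction Filter Topology

section

variable {G : Type} [Group G] [Finite G] {s₀ : ℂ} {Z : Subgroup G}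

/-- averages along a surjective homomorphism -/
lemma pr_surj {K L : Type} [Group K] [Finite K] [Group L] [Finite L] (π : K →* L)
    (hπ : Function.Surjective π) (a b : L → ℂ) :
    pr (fun k => a (π k)) (fun k => b (π k)) = pr a b := by
  classical
  have : Fintype K := Fintype.ofFinite K
  have : Fintype L := Fintype.ofFinite L
  rw [pr_eq, pr_eq]
  set c := (Finset.univ.filter fun k => π k = 1).card with hc
  have hfib : ∀ l : L, (Finset.univ.filter fun k => π k = l).card = c := fun l =>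
    MonoidHom.card_fiber_eq_of_mem_range π (hπ l) ⟨1, map_one π⟩
  have hcard : Nat.card K = c * Nat.card L := by
    rw [Nat.card_eq_fintype_card, Nat.card_eq_fintype_card, ← Finset.card_univ,
      Finset.card_eq_sum_card_fiberwise (f := π) (t := Finset.univ) (fun _ _ => Finset.mem_univ _),
      Finset.sum_congr rfl (fun l _ => hfib l), Finset.sum_const, Finset.card_univ, smul_eq_mul,
      mul_comm]
  have hc0 : (c : ℂ) ≠ 0 := by
    have h1 : 0 < Nat.card K := Nat.card_pos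
    intro h2
    have h3 : c = 0 := by exact_mod_cast h2
    rw [hcard, h3, zero_mul] at h1
    exact absurd h1 (lt_irrefl _)
  have hsum : ∑ k : K, a (π k) * b (π k⁻¹) = c * ∑ l : L, a l * b l⁻¹ := by
    rw [← Finset.sum_fiberwise_of_maps_to (s := Finset.univ) (t := Finset.univ)
      (g := fun k => π k) (fun _ _ => Finset.mem_univ _), Finset.mul_sum]
    refine Finset.sum_congr rfl fun l _ => ?_
    rw [Finset.sum_congr rfl (g := fun _ => a l * b l⁻¹) (fun k hk => by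
      rw [Finset.mem_filter] at hk
      rw [map_inv, hk.2]), Finset.sum_const, hfib l, nsmul_eq_mul]
  rw [hsum, hcard]
  push_cast
  have h2 : (Nat.card L : ℂ) ≠ 0 := card_ne
  field_simp

/-- `χ` has the central character `ω` on `Z` -/
def HasC (ω : Z →* ℂˣ) (χ : G → ℂ) : Prop := ∀ (g : G) (z : Z), χ (g * z) = ((ω z : ℂˣ) : ℂ) * χ g

lemma hasC_iff (hZ : Z ≤ Subgroup.center G) (ω : Z →* ℂˣ) {χ : G → ℂ} (hχ : χ ∈ Irr G) :
    HasC ω χ ↔ ∀ z : Z, χ z = ((ω z : ℂˣ) : ℂ) * χ 1 := by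
  constructor
  · intro h z
    have := h 1 z
    rwa [one_mul] at this
  · intro h g z
    obtain ⟨ω', hω'⟩ := irr_central hχ hZ
    rw [hω' g z]
    congr 1
    have h1 := hω' 1 z
    rw [one_mul, h z] at h1
    exact (mul_right_cancel₀ (irr_one_ne hχ) h1).symm

open scoped Classical in
/-- the multiplicity of `ψ` in `χ|_H` -/
noncomputable def mt (H : Subgroup G) (ψ : H →* ℂˣ) (χ : G → ℂ) : ℕ :=
  if h : χ ∈ Irr G then (exists_mult h H ψ).choose else 0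

lemma mt_spec (H : Subgroup G) (ψ : H →* ℂˣ) {χ : G → ℂ} (hχ : χ ∈ Irr G) :
    ∑ᶠ h : H, χ h * (((ψ h)⁻¹ : ℂˣ) : ℂ) = (mt H ψ χ : ℂ) * (Nat.card H : ℂ) := by
  unfold mt
  rw [dif_pos hχ]
  exact (exists_mult hχ H ψ).choose_spec

lemma mt_pr (H : Subgroup G) (ψ : H →* ℂˣ) {χ : G → ℂ} (hχ : χ ∈ Irr G) :
    pr (lc ψ) (fun h : H => χ h) = mt H ψ χ := mult_pr H ψ (mt_spec H ψ hχ)

lemma mt_eq (H : Subgroup G) (ψ : H →* ℂˣ) {χ : G → ℂ} (hχ : χ ∈ Irr G) {m : ℕ}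
    (hm : ∑ᶠ h : H, χ h * (((ψ h)⁻¹ : ℂˣ) : ℂ) = (m : ℂ) * (Nat.card H : ℂ)) : mt H ψ χ = m := by
  have h1 := mt_pr H ψ hχ
  rw [mult_pr H ψ hm] at h1
  exact_mod_cast h1.symm

/-- extension of a linear character by a central character -/
lemma exists_ext_char (hZ : Z ≤ Subgroup.center G) (ω : Z →* ℂˣ) (H : Subgroup G) (ψ : H →* ℂˣ)
    (hcomp : ∀ (z : G) (hz : z ∈ Z) (hz' : z ∈ H), ψ ⟨z, hz'⟩ = ω ⟨z, hz⟩) :
    ∃ ψ' : (H ⊔ Z : Subgroup G) →* ℂˣ, (∀ (z : G) (hz : z ∈ Z) (hz' : z ∈ H ⊔ Z),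
      ψ' ⟨z, hz'⟩ = ω ⟨z, hz⟩) ∧ ∀ χ : G → ℂ, HasC ω χ →
      pr (lc ψ') (fun k : (H ⊔ Z : Subgroup G) => χ k) = pr (lc ψ) (fun h : H => χ h) := by
  classical
  have hZn : Z.Normal := ⟨fun z hz g => by
    rw [Subgroup.mem_center_iff.mp (hZ hz) g, mul_inv_cancel_right]
    exact hz⟩
  let π : H × Z →* (H ⊔ Z : Subgroup G) :=
    { toFun := fun x => ⟨(x.1 : G) * x.2, Subgroup.mul_mem_sup x.1.2 x.2.2⟩
      map_one' := Subtype.ext (by simp)
      map_mul' := fun x y => Subtype.ext (by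
        change ((x.1 : G) * y.1) * ((x.2 : G) * y.2) = ((x.1 : G) * x.2) * (y.1 * y.2)
        have h1 := Subgroup.mem_center_iff.mp (hZ x.2.2) (y.1 : G)
        calc ((x.1 : G) * y.1) * ((x.2 : G) * y.2) = (x.1 : G) * (y.1 * x.2) * y.2 := by group
          _ = (x.1 : G) * (x.2 * y.1) * y.2 := by rw [h1]
          _ = _ := by group) }
  have hπ : Function.Surjective π := by
    rintro ⟨k, hk⟩
    obtain ⟨h, hh, z, hz, rfl⟩ := Subgroup.mem_sup_of_normal_right.mp hk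
    exact ⟨(⟨h, hh⟩, ⟨z, hz⟩), rfl⟩
  let g₀ : H × Z →* ℂˣ := ψ.coprod ω
  have hg₀ : ∀ x, g₀ x = ψ x.1 * ω x.2 := fun x => MonoidHom.coprod_apply ψ ω x
  have hle : π.ker ≤ g₀.ker := by
    rintro ⟨⟨h, hh⟩, ⟨z, hz⟩⟩ hx
    rw [MonoidHom.mem_ker] at hx ⊢
    have h1 : h * z = 1 := congrArg Subtype.val hx
    have h2 : h = z⁻¹ := eq_inv_of_mul_eq_one_left h1
    subst h2
    rw [hg₀]
    change ψ ⟨z⁻¹, hh⟩ * ω ⟨z, hz⟩ = 1
    rw [hcomp z⁻¹ (inv_mem hz) hh]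
    have h3 : (⟨z⁻¹, inv_mem hz⟩ : Z) = (⟨z, hz⟩ : Z)⁻¹ := rfl
    rw [h3, map_inv, inv_mul_cancel]
  let ψ' : (H ⊔ Z : Subgroup G) →* ℂˣ := (π.liftOfSurjective hπ) ⟨g₀, hle⟩
  have hψ' : ∀ x, ψ' (π x) = ψ x.1 * ω x.2 := by
    intro x
    rw [← hg₀]
    exact MonoidHom.liftOfRightInverse_comp_apply π _ _ ⟨g₀, hle⟩ x
  refine ⟨ψ', ?_, ?_⟩
  · intro z hz hz'
    have h1 := hψ' (1, ⟨z, hz⟩)
    have h2 : π (1, ⟨z, hz⟩) = ⟨z, hz'⟩ := Subtype.ext (one_mul z)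
    rw [h2, map_one, one_mul] at h1
    exact h1
  · intro χ hχ
    rw [← pr_surj π hπ]
    have : Fintype H := Fintype.ofFinite H
    have : Fintype Z := Fintype.ofFinite Z
    rw [pr_eq, pr_eq, Fintype.sum_prod_type]
    have h1 : ∀ (h : H) (z : Z), lc ψ' (π (h, z)) * χ ((π (h, z)⁻¹ : (H ⊔ Z : Subgroup G)) : G) =
        lc ψ h * χ ((h⁻¹ : H) : G) := by
      intro h z
      have e1 : lc ψ' (π (h, z)) = ((ψ h : ℂˣ) : ℂ) * ((ω z : ℂˣ) : ℂ) := by
        change ((ψ' (π (h, z)) : ℂˣ) : ℂ) = _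
        rw [hψ', Units.val_mul]
      have e2 : ((π (h, z)⁻¹ : (H ⊔ Z : Subgroup G)) : G) = ((h⁻¹ : H) : G) * ((z⁻¹ : Z) : G) := rfl
      rw [e1, e2, hχ, map_inv]
      change _ = ((ψ h : ℂˣ) : ℂ) * _
      have e3 : ((ω z : ℂˣ) : ℂ) * (((ω z)⁻¹ : ℂˣ) : ℂ) = 1 := by
        rw [← Units.val_mul, mul_inv_cancel, Units.val_one]
      linear_combination ((ψ h : ℂˣ) : ℂ) * χ ((h⁻¹ : H) : G) * e3
    rw [Finset.sum_congr rfl (fun h _ => Finset.sum_congr rfl (fun z _ => h1 h z))]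
    simp only [Finset.sum_const, Finset.card_univ, nsmul_eq_mul]
    rw [← Finset.mul_sum, Nat.card_prod, Nat.card_eq_fintype_card (α := Z)]
    have h2 : (Nat.card H : ℂ) ≠ 0 := card_ne
    have h3 : (Fintype.card Z : ℂ) ≠ 0 := by
      rw [← Nat.card_eq_fintype_card]
      exact card_ne
    push_cast
    field_simp

end

end Pool.Agent.Q7.DC
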