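import Mathlib
import Pool.Agent.Q7.DC.Prt

/-!
# The family of L-functions with given central character
-/

set_option autoImplicit false
set_option linter.unusedSectionVars false

namespace Pool.Agent.Q7.DC

open Pool.Agent.H302R2 Pool.Agent.H302R3 Pool.Agent.H541R3.ART Pool.Agent.W446.AS
  Pool.Agent.Q7.TZ Pool.Agent.Q7.SZ Pool.Agent.Q7.GR MulAction Filter Topology

section

variable {G : Type} [Group G] [Finite G] {s₀ : ℂ} {Z : Subgroup G}

/-- orders of products over the irreducible characters -/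
lemma order_prod {L : (G → ℂ) → ℂ → ℂ} (hL : ∀ χ ∈ Irr G, MeromorphicAt (L χ) s₀)
    (m : (G → ℂ) → ℕ) (n : (G → ℂ) → ℤ)
    (hn : ∀ χ ∈ Irr G, meromorphicOrderAt (L χ) s₀ = (n χ : WithTop ℤ)) :
    meromorphicOrderAt (fun s => ∏ᶠ χ ∈ Irr G, L χ s ^ m χ) s₀ =
      ((∑ χ ∈ irrF G, (m χ : ℤ) * n χ : ℤ) : WithTop ℤ) := by
  classical
  have h1 : (fun s => ∏ᶠ χ ∈ Irr G, L χ s ^ m χ)
      = fun s => ∏ χ ∈ irrF G, (L χ ^ m χ) s := by
    funext s
    rw [finprod_mem_eq_finite_toFinset_prod _ (irr_finite (G := G))]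
    rfl
  rw [h1, meromorphicOrderAt_fun_prod (fun χ hχ => (hL χ (mem_irrF.mp hχ)).pow _),
    WithTop.coe_sum]
  refine Finset.sum_congr rfl fun χ hχ => ?_
  rw [meromorphicOrderAt_pow (hL χ (mem_irrF.mp hχ)), hn χ (mem_irrF.mp hχ)]
  push_cast
  rfl

lemma order_one : meromorphicOrderAt (fun _ : ℂ => (1 : ℂ)) s₀ = 0 := by
  rw [← tendsto_ne_zero_iff_meromorphicOrderAt_eq_zero (MeromorphicAt.const 1 s₀)]
  exact ⟨1, one_ne_zero, tendsto_const_nhds⟩

open scoped Classical in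
/-- the L-functions of the characters with central character `ω`, and `1` for the others -/
noncomputable def partL (A : TwistData G s₀) (ω : Z →* ℂˣ) (χ : G → ℂ) : ℂ → ℂ :=
  if HasC ω χ then A.L χ else fun _ => 1

lemma partL_pos (A : TwistData G s₀) (ω : Z →* ℂˣ) {χ : G → ℂ} (h : HasC ω χ) :
    partL A ω χ = A.L χ := if_pos h

lemma partL_neg (A : TwistData G s₀) (ω : Z →* ℂˣ) {χ : G → ℂ} (h : ¬ HasC ω χ) :
    partL A ω χ = fun _ => 1 := if_neg h

open scoped Classical in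
lemma partL_order (A : TwistData G s₀) (ω : Z →* ℂˣ) {χ : G → ℂ} (hχ : χ ∈ Irr G) :
    MeromorphicAt (partL A ω χ) s₀ ∧ meromorphicOrderAt (partL A ω χ) s₀ =
      ((if HasC ω χ then A.ord χ else 0 : ℤ) : WithTop ℤ) := by
  by_cases h : HasC ω χ
  · rw [partL_pos A ω h, if_pos h]
    exact ⟨(A.mero χ hχ).1, (A.coe_ord hχ).symm⟩
  · rw [partL_neg A ω h, if_neg h]
    exact ⟨MeromorphicAt.const 1 s₀, order_one⟩

/-- the multiplicities of the extended character -/
lemma mt_ext (hZ : Z ≤ Subgroup.center G) (ω : Z →* ℂˣ) (H : Subgroup G) (ψ : H →* ℂˣ)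
    (hcomp : ∀ (z : G) (hz : z ∈ Z) (hz' : z ∈ H), ψ ⟨z, hz'⟩ = ω ⟨z, hz⟩) :
    ∃ ψ' : (H ⊔ Z : Subgroup G) →* ℂˣ, ∀ χ ∈ Irr G,
      (HasC ω χ → mt (H ⊔ Z) ψ' χ = mt H ψ χ) ∧ (¬ HasC ω χ → mt (H ⊔ Z) ψ' χ = 0) := by
  obtain ⟨ψ', h1, h2⟩ := exists_ext_char hZ ω H ψ hcomp
  refine ⟨ψ', fun χ hχ => ⟨fun h => ?_, fun h => ?_⟩⟩
  · have h3 := h2 χ h
    rw [mt_pr _ _ hχ, mt_pr _ _ hχ] at h3
    exact_mod_cast h3
  · by_contra hcon
    apply h
    intro g z
    have hzm : (z : G) ∈ H ⊔ Z := Subgroup.mem_sup_right z.2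
    have h3 : pr (lc ψ') (fun k : (H ⊔ Z : Subgroup G) => χ k) ≠ 0 := by
      rw [mt_pr _ _ hχ]
      exact_mod_cast hcon
    rw [central_match hZ hχ ψ' h3 z.2 hzm g, h1 z z.2 hzm]

/-- if the central characters do not match -/
lemma mt_zero (hZ : Z ≤ Subgroup.center G) (ω : Z →* ℂˣ) (H : Subgroup G) (ψ : H →* ℂˣ)
    (hcomp : ¬ ∀ (z : G) (hz : z ∈ Z) (hz' : z ∈ H), ψ ⟨z, hz'⟩ = ω ⟨z, hz⟩) {χ : G → ℂ}
    (hχ : χ ∈ Irr G) (h : HasC ω χ) : mt H ψ χ = 0 := by
  by_contra hcon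
  apply hcomp
  intro z hz hz'
  have h3 : pr (lc ψ) (fun k : H => χ k) ≠ 0 := by
    rw [mt_pr _ _ hχ]
    exact_mod_cast hcon
  have h4 := central_match hZ hχ ψ h3 hz hz' 1
  have h5 := h 1 ⟨z, hz⟩
  change χ (1 * z) = _ at h5
  rw [h5] at h4
  exact (Units.ext (mul_right_cancel₀ (irr_one_ne hχ) h4)).symm

/-- The L-functions of the characters with central character `ω` on the central subgroup `Z`. -/
noncomputable def part (A : TwistData G s₀) (hZ : Z ≤ Subgroup.center G) (ω : Z →* ℂˣ) :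
    TwistData G s₀ where
  L := partL A ω
  Lin H ψ := fun s => ∏ᶠ χ ∈ Irr G, partL A ω χ s ^ mt H ψ χ
  mero χ hχ := by
    obtain ⟨h1, h2⟩ := partL_order A ω hχ
    refine ⟨h1, ?_⟩
    rw [h2]
    exact WithTop.coe_ne_top
  hol H ψ hs := by
    classical
    rw [order_prod (fun χ hχ => (partL_order A ω hχ).1) (mt H ψ)
      (fun χ => if HasC ω χ then A.ord χ else 0) (fun χ hχ => (partL_order A ω hχ).2)]
    by_cases hcomp : ∀ (z : G) (hz : z ∈ Z) (hz' : z ∈ H), ψ ⟨z, hz'⟩ = ω ⟨z, hz⟩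
    · obtain ⟨ψ', h1⟩ := mt_ext hZ ω H ψ hcomp
      have hsol : Group.IsSolvable (H ⊔ Z : Subgroup G) := by
        have hZn : Z.Normal := ⟨fun z hz g => by
          rw [Subgroup.mem_center_iff.mp (hZ hz) g, mul_inv_cancel_right]
          exact hz⟩
        have hZs : Group.IsSolvable Z := Pool.Agent.H302R3.sol_of_comm (fun a b => Subtype.ext
          (Subgroup.mem_center_iff.mp (hZ b.2) a))
        have hprod : Group.IsSolvable (H × Z) := inferInstance
        let π : H × Z →* (H ⊔ Z : Subgroup G) :=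
          { toFun := fun x => ⟨(x.1 : G) * x.2, Subgroup.mul_mem_sup x.1.2 x.2.2⟩
            map_one' := Subtype.ext (by simp)
            map_mul' := fun x y => Subtype.ext (by
              change ((x.1 : G) * y.1) * ((x.2 : G) * y.2) = ((x.1 : G) * x.2) * (y.1 * y.2)
              have h1 := Subgroup.mem_center_iff.mp (hZ x.2.2) (y.1 : G)
              calc ((x.1 : G) * y.1) * ((x.2 : G) * y.2) =
                    (x.1 : G) * (y.1 * x.2) * y.2 := by group
                _ = (x.1 : G) * (x.2 * y.1) * y.2 := by rw [h1]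
                _ = _ := by group) }
        refine Group.isSolvable_of_surjective (f := π) ?_
        rintro ⟨k, hk⟩
        obtain ⟨h, hh, z, hz, rfl⟩ := Subgroup.mem_sup_of_normal_right.mp hk
        exact ⟨(⟨h, hh⟩, ⟨z, hz⟩), rfl⟩
      have h2 := A.hol (H ⊔ Z) ψ' hsol
      rw [A.order_Lin (H ⊔ Z) ψ' (mt (H ⊔ Z) ψ') (fun χ hχ => mt_spec _ _ hχ)] at h2
      have h3 : ∑ χ ∈ irrF G, (mt (H ⊔ Z) ψ' χ : ℤ) * A.ord χ =
          ∑ χ ∈ irrF G, (mt H ψ χ : ℤ) * (if HasC ω χ then A.ord χ else 0) := by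
        refine Finset.sum_congr rfl fun χ hχ => ?_
        obtain ⟨i1, i2⟩ := h1 χ (mem_irrF.mp hχ)
        by_cases h : HasC ω χ
        · rw [if_pos h, i1 h]
        · rw [if_neg h, i2 h]
          simp
      rw [h3] at h2
      exact h2
    · have h3 : ∑ χ ∈ irrF G, (mt H ψ χ : ℤ) * (if HasC ω χ then A.ord χ else 0) = 0 := by
        refine Finset.sum_eq_zero fun χ hχ => ?_
        by_cases h : HasC ω χ
        · rw [mt_zero hZ ω H ψ hcomp (mem_irrF.mp hχ) h]
          simp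
        · rw [if_neg h, mul_zero]
      rw [h3]
      exact le_refl _
  induce H ψ m hm := by
    refine Eventually.of_forall fun s => ?_
    refine finprod_mem_congr rfl fun χ hχ => ?_
    rw [mt_eq H ψ hχ (hm χ hχ)]

lemma part_L (A : TwistData G s₀) (hZ : Z ≤ Subgroup.center G) (ω : Z →* ℂˣ) :
    (part A hZ ω).L = partL A ω := rfl

open scoped Classical in
lemma part_ord (A : TwistData G s₀) (hZ : Z ≤ Subgroup.center G) (ω : Z →* ℂˣ) {χ : G → ℂ}
    (hχ : χ ∈ Irr G) : (part A hZ ω).ord χ = if HasC ω χ then A.ord χ else 0 := by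
  have h1 := (part A hZ ω).coe_ord hχ
  rw [part_L, (partL_order A ω hχ).2] at h1
  exact_mod_cast h1

/-- the order over the field of `Z` -/
lemma part_bot (A : TwistData G s₀) (hZ : Z ≤ Subgroup.center G) (ω : Z →* ℂˣ) :
    meromorphicOrderAt ((part A hZ ω).Lin ⊥ 1) s₀ = meromorphicOrderAt (A.Lin Z ω) s₀ := by
  classical
  rw [(part A hZ ω).order_Lin ⊥ 1 (mt ⊥ 1) (fun χ hχ => mt_spec _ _ hχ),
    A.order_Lin Z ω (mt Z ω) (fun χ hχ => mt_spec _ _ hχ)]
  congr 1
  refine Finset.sum_congr rfl fun χ hχ => ?_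
  have hχ' := mem_irrF.mp hχ
  rw [part_ord A hZ ω hχ']
  have h1 : (mt ⊥ (1 : (⊥ : Subgroup G) →* ℂˣ) χ : ℂ) = χ 1 := by
    have : Fintype (⊥ : Subgroup G) := Fintype.ofFinite _
    rw [← mt_pr _ _ hχ', pr_eq]
    have e1 : lc (1 : (⊥ : Subgroup G) →* ℂˣ) 1 = 1 := by
      change (((1 : (⊥ : Subgroup G) →* ℂˣ) 1 : ℂˣ) : ℂ) = 1
      simp
    rw [Fintype.sum_eq_single (1 : (⊥ : Subgroup G))]
    · rw [e1]
      simp
    · intro x hx
      exact absurd (Subtype.ext (Subgroup.mem_bot.mp x.2)) hx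
  by_cases h : HasC ω χ
  · rw [if_pos h]
    have h2 : (mt Z ω χ : ℂ) = χ 1 := by
      have : Fintype Z := Fintype.ofFinite Z
      rw [← mt_pr _ _ hχ', pr_eq]
      have h3 : ∀ z : Z, lc ω z * χ ((z⁻¹ : Z) : G) = χ 1 := by
        intro z
        have h4 := h 1 z⁻¹
        rw [one_mul, map_inv] at h4
        rw [h4, ← mul_assoc]
        change ((ω z : ℂˣ) : ℂ) * _ * _ = _
        rw [← Units.val_mul, mul_inv_cancel, Units.val_one, one_mul]
      rw [Finset.sum_congr rfl (fun z _ => h3 z), Finset.sum_const, Finset.card_univ,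
        nsmul_eq_mul, ← Nat.card_eq_fintype_card, ← mul_assoc, inv_mul_cancel₀ card_ne, one_mul]
    rw [← h1] at h2
    have h5 : mt Z ω χ = mt ⊥ (1 : (⊥ : Subgroup G) →* ℂˣ) χ := by exact_mod_cast h2
    rw [h5]
  · rw [if_neg h, mul_zero]
    have h2 : mt Z ω χ = 0 := by
      by_contra hcon
      apply h
      intro g z
      have h3 : pr (lc ω) (fun k : Z => χ k) ≠ 0 := by
        rw [mt_pr _ _ hχ']
        exact_mod_cast hcon
      exact central_match hZ hχ' ω h3 z.2 z.2 g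
    rw [h2]
    simp

end

section

variable {G : Type} [Group G] [Finite G] {Z : Subgroup G}

lemma hasC_inv {ω : Z →* ℂˣ} (hω : ω ^ 2 = 1) {χ : G → ℂ}
    (hχ : ∀ g x, χ (x * g * x⁻¹) = χ g) (h : HasC ω χ) : HasC ω (fun g => χ g⁻¹) := by
  intro g z
  change χ (g * z)⁻¹ = _ * χ g⁻¹
  have h1 : χ (g * z)⁻¹ = χ (g⁻¹ * ((z⁻¹ : Z) : G)) := by
    have h2 := hχ (g⁻¹ * ((z⁻¹ : Z) : G)) (z : G)⁻¹
    rw [← h2]
    congr 1
    rw [Subgroup.coe_inv]
    group
  have h3 : ω z⁻¹ = ω z := by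
    have h4 : ω z ^ 2 = 1 := by
      have := congrArg (fun f : Z →* ℂˣ => f z) hω
      exact this
    rw [map_inv, inv_eq_iff_mul_eq_one, ← pow_two, h4]
  rw [h1, h, h3]

open scoped Classical in
/-- the functional equations of the part -/
noncomputable def partFun {A : TwistData G 1} (F : FunEq A) (hZ : Z ≤ Subgroup.center G)
    {ω : Z →* ℂˣ} (hω : ω ^ 2 = 1) : FunEq (part A hZ ω) where
  gam χ := if HasC ω χ then F.gam χ else fun _ => 1
  gam_an χ hχ := by
    by_cases h : HasC ω χ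
    · rw [if_pos h]
      exact F.gam_an χ hχ
    · rw [if_neg h]
      exact ⟨analyticAt_const, one_ne_zero⟩
  W χ := if HasC ω χ then F.W χ else 1
  W_ne χ hχ := by
    by_cases h : HasC ω χ
    · rw [if_pos h]
      exact F.W_ne χ hχ
    · rw [if_neg h]
      exact one_ne_zero
  fe χ hχ := by
    by_cases h : HasC ω χ
    · have h' := hasC_inv hω (fun g x => Irr.conj hχ g x) h
      rw [if_pos h, if_pos h, part_L, partL_pos A ω h, partL_pos A ω h']
      exact F.fe χ hχ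
    · have h' : ¬ HasC ω (fun g => χ g⁻¹) := by
        intro h'
        apply h
        have h2 := hasC_inv hω (χ := fun g => χ g⁻¹) (fun g x => by
          have : (x * g * x⁻¹)⁻¹ = x * g⁻¹ * x⁻¹ := by group
          rw [this]
          exact Irr.conj hχ _ _) h'
        have h3 : (fun g => (fun g => χ g⁻¹) g⁻¹) = χ := by
          funext g
          simp
        rw [h3] at h2
        exact h2
      rw [if_neg h, if_neg h, part_L, partL_neg A ω h, partL_neg A ω h']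
      exact Eventually.of_forall fun s => by simp
  W_symp χ hχ hs := by
    by_cases h : HasC ω χ
    · rw [if_pos h]
      exact F.W_symp χ hχ hs
    · rw [if_neg h]

end

end Pool.Agent.Q7.DC
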