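import Mathlib
import Pool.Agent.Q7.DC.Prs
import Pool.Agent.Q7.SZ.Nrm

/-!
# Induction theorem for the characters nontrivial on a solvable normal subgroup
-/

set_option autoImplicit false
set_option linter.unusedSectionVars false

namespace Pool.Agent.Q7.DC

open Pool.Agent.H302R2 Pool.Agent.H302R3 Pool.Agent.H541R3.ART Pool.Agent.W446.AS
  Pool.Agent.Q7.TZ Pool.Agent.Q7.SZ Pool.Agent.Q7.GR MulAction

section

variable {G : Type} [Group G] [Finite G] {B : Type} [AddCommGroup B] {δ : (G → ℂ) → B}

/-- `δ` vanishes on the characters induced from linear characters, nontrivial on `N`, of solvable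
subgroups containing `Z`. -/
def KillsN (Z N : Subgroup G) (δ : (G → ℂ) → B) : Prop :=
  ∀ H : Subgroup G, Z ≤ H → Group.IsSolvable H → ∀ ψ : H →* ℂˣ,
    (∃ k : H, (k : G) ∈ N ∧ ψ k ≠ 1) → DD δ H.subtype (lc ψ) = 0

lemma KillsN.hom {Z N : Subgroup G} (h : KillsN Z N δ) {K : Type} [Group K] [Finite K]
    (ι : K →* G) (hι : Function.Injective ι) (hZ : Z ≤ ι.range) (hs : Group.IsSolvable K)
    (ψ : K →* ℂˣ) (hψ : ∃ k : K, ι k ∈ N ∧ ψ k ≠ 1) : DD δ ι (lc ψ) = 0 := by
  let e : K ≃* ι.range := MonoidHom.ofInjective hι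
  have he : ∀ k, ((e k : ι.range) : G) = ι k := fun k => rfl
  have hs' : Group.IsSolvable ι.range :=
    Group.isSolvable_of_surjective (f := e.toMonoidHom) e.surjective
  have h1 := h ι.range hZ hs' (ψ.comp e.symm.toMonoidHom) (by
    obtain ⟨k, hk1, hk2⟩ := hψ
    refine ⟨e k, hk1, ?_⟩
    change ψ (e.symm (e k)) ≠ 1
    rwa [e.symm_apply_apply])
  rw [← DD_equiv e] at h1
  rw [← h1]
  have e1 : ι.range.subtype.comp e.toMonoidHom = ι := by
    ext k
    rfl
  rw [e1]
  congr 1
  funext k
  change _ = ((ψ (e.symm (e k)) : ℂˣ) : ℂ)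
  rw [e.symm_apply_apply]

/-- pairing of an invariant function with one with zero averages -/
lemma pr_zero_of_coset {H : Subgroup G} {K : Subgroup G} (hKH : K ≤ H) {a : H → ℂ} {b : G → ℂ}
    (ha : ∀ (n : G) (hn : n ∈ K) (h : H), a (⟨n, hKH hn⟩ * h) = a h)
    (hb : ∀ g, ∑ᶠ n : K, b (g * n) = 0) : pr a (fun h : H => b h) = 0 := by
  classical
  have : Fintype H := Fintype.ofFinite H
  have : Fintype K := Fintype.ofFinite K
  rw [pr_eq]
  have h1 : ∀ n : K, ∑ h : H, a h * b ((h⁻¹ : H) : G) = ∑ h : H, a h * b (((h⁻¹ : H) : G) * n) := by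
    intro n
    rw [← Equiv.sum_comp (Equiv.mulLeft (⟨n, hKH n.2⟩⁻¹ : H))
      (fun h : H => a h * b ((h⁻¹ : H) : G))]
    refine Finset.sum_congr rfl fun h _ => ?_
    rw [Equiv.coe_mulLeft]
    have e1 : a ((⟨n, hKH n.2⟩⁻¹ : H) * h) = a h := by
      have := ha ((n : G)⁻¹) (K.inv_mem n.2) h
      exact this
    rw [e1, mul_inv_rev, inv_inv]
    rfl
  have h2 : (Fintype.card K : ℂ) * ∑ h : H, a h * b ((h⁻¹ : H) : G) = 0 := by
    rw [← nsmul_eq_mul, ← Finset.card_univ, ← Finset.sum_const, Finset.sum_congr rfl
      (fun n _ => h1 n), Finset.sum_comm]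
    refine Finset.sum_eq_zero fun h _ => ?_
    rw [← Finset.mul_sum, ← finsum_eq_sum_of_fintype, hb, mul_zero]
  have h3 : (Fintype.card K : ℂ) ≠ 0 := by
    rw [← Nat.card_eq_fintype_card]
    exact card_ne
  rw [(mul_eq_zero.mp h2).resolve_left h3, mul_zero]

/-- passage to a quotient -/
lemma KillsN.quot {Z N : Subgroup G} (h : KillsN Z N δ) (K : Subgroup G) [hK : K.Normal]
    (hKs : Group.IsSolvable K) :
    KillsN (Z.map (QuotientGroup.mk' K)) (N.map (QuotientGroup.mk' K))
      (fun η : (G ⧸ K → ℂ) => δ (fun g => η (QuotientGroup.mk' K g))) := by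
  classical
  intro L hZL hLs ψ hψ
  set π := QuotientGroup.mk' K with hπ
  have hπs : Function.Surjective π := QuotientGroup.mk'_surjective K
  let H : Subgroup G := L.comap π
  let f : H →* L := π.subgroupComap L
  have hf : ∀ x : H, ((f x : L) : G ⧸ K) = π x := fun x => rfl
  have hfs : Function.Surjective f := MonoidHom.subgroupComap_surjective_of_surjective _ _ hπs
  have hKH : K ≤ H := by
    intro k hk
    change π k ∈ L
    rw [hπ, QuotientGroup.mk'_apply, (QuotientGroup.eq_one_iff k).mpr hk]
    exact L.one_mem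
  have hHs : Group.IsSolvable H := by
    have h1 : Group.IsSolvable (K.subgroupOf H) :=
      Group.isSolvable_of_isSolvable_injective
        (f := (Subgroup.subgroupOfEquivOfLe hKH).toMonoidHom)
        (Subgroup.subgroupOfEquivOfLe hKH).injective
    refine Group.isSolvable_of_ker_le_range (K.subgroupOf H).subtype f ?_
    intro x hx
    rw [Subgroup.range_subtype, Subgroup.mem_subgroupOf]
    have h2 : π (x : G) = 1 := by
      rw [← hf, MonoidHom.mem_ker.mp hx]
      rfl
    exact (QuotientGroup.eq_one_iff _).mp h2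
  have hZH : Z ≤ H := fun z hz => hZL ⟨z, hz, rfl⟩
  have h1 := h H hZH hHs (ψ.comp f) (by
    obtain ⟨k, ⟨n, hn, hnk⟩, hk⟩ := hψ
    have hnH : n ∈ H := by
      change π n ∈ L
      rw [hnk]
      exact k.2
    refine ⟨⟨n, hnH⟩, hn, ?_⟩
    have e1 : f ⟨n, hnH⟩ = k := Subtype.ext hnk
    change ψ (f ⟨n, hnH⟩) ≠ 1
    rwa [e1])
  rw [← h1]
  unfold DD
  let j : (G ⧸ K → ℂ) → (G → ℂ) := fun η g => η (π g)
  have hj : Function.Injective j := by
    intro a b hab
    funext x
    obtain ⟨g, rfl⟩ := hπs x
    exact congrFun hab g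
  have hsub : (irrF (G ⧸ K)).image j ⊆ irrF G := by
    intro χ hχ
    obtain ⟨η, hη, rfl⟩ := Finset.mem_image.mp hχ
    exact mem_irrF.mpr (infl_irr hπs (mem_irrF.mp hη))
  rw [← Finset.sum_subset hsub, Finset.sum_image (fun a _ b _ hab => hj hab)]
  · refine Finset.sum_congr rfl fun η _ => ?_
    congr 2
    have e1 := pr_surj f hfs (lc ψ) (fun l : L => η (L.subtype l))
    rw [← e1]
    rfl
  · intro χ hχ hn
    obtain ⟨d, ρ, hρ, rfl⟩ := exists_rep (mem_irrF.mp hχ)
    have : Fintype K := Fintype.ofFinite K
    rcases hρ.normal_dich K with h2 | h2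
    · exfalso
      apply hn
      obtain ⟨η, hη, hη'⟩ := descend_irr hπs hρ (fun g hg => h2 g (by
        rw [hπ, QuotientGroup.ker_mk'] at hg
        exact hg))
      refine Finset.mem_image.mpr ⟨η, mem_irrF.mpr hη, ?_⟩
      funext g
      exact (hη' g).symm
    · have h3 : pr (lc (ψ.comp f)) (fun k : H => ρ.character (H.subtype k)) = 0 := by
        refine pr_zero_of_coset hKH (a := lc (ψ.comp f)) (b := ρ.character) ?_ ?_
        · intro n hn' x
          have e1 : f (⟨n, hKH hn'⟩ * x) = f x := by
            apply Subtype.ext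
            rw [hf, hf, Subgroup.coe_mul, map_mul]
            have e2 : π n = 1 := (QuotientGroup.eq_one_iff n).mpr hn'
            rw [e2, one_mul]
          change ((ψ (f (⟨n, hKH hn'⟩ * x)) : ℂˣ) : ℂ) = ((ψ (f x) : ℂˣ) : ℂ)
          rw [e1]
        · intro g
          rw [finsum_eq_sum_of_fintype]
          exact h2 g
      have h4 : fl (pr (lc (ψ.comp f)) (fun k : H => ρ.character (H.subtype k))) = 0 := by
        apply fl_eq
        rw [h3]
        norm_num
      rw [h4, zero_smul]

open scoped Classical in
/-- functionals on the characters with a given central character -/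
lemma DD_filter {Z : Subgroup G} (hZ : Z ≤ Subgroup.center G) (ω : Z →* ℂˣ) {H : Subgroup G}
    (hZH : Z ≤ H) (ψ : H →* ℂˣ) :
    DD (fun θ => if HasC ω θ then δ θ else 0) H.subtype (lc ψ) =
      if (∀ (z : G) (hz : z ∈ Z) (hz' : z ∈ H), ψ ⟨z, hz'⟩ = ω ⟨z, hz⟩) then
        DD δ H.subtype (lc ψ) else 0 := by
  split_ifs with hm
  · unfold DD
    refine Finset.sum_congr rfl fun χ hχ => ?_
    by_cases h0 : pr (lc ψ) (fun k : H => χ (H.subtype k)) = 0
    · have : fl (pr (lc ψ) (fun k : H => χ (H.subtype k))) = 0 := by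
        apply fl_eq
        rw [h0]
        norm_num
      rw [this, zero_smul, zero_smul]
    · have hg : HasC ω χ := by
        intro g z
        have h2 := central_match hZ (mem_irrF.mp hχ) ψ h0 z.2 (hZH z.2) g
        rw [h2, hm z z.2 (hZH z.2)]
      congr 1
      exact if_pos hg
  · unfold DD
    refine Finset.sum_eq_zero fun χ hχ => ?_
    by_cases h0 : pr (lc ψ) (fun k : H => χ (H.subtype k)) = 0
    · have : fl (pr (lc ψ) (fun k : H => χ (H.subtype k))) = 0 := by
        apply fl_eq
        rw [h0]
        norm_num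
      rw [this, zero_smul]
    · have hg : ¬ HasC ω χ := by
        intro hg
        apply hm
        intro z hz hz'
        have h2 := central_match hZ (mem_irrF.mp hχ) ψ h0 hz hz' 1
        have h3 := hg 1 ⟨z, hz⟩
        change χ (1 * z) = _ at h3
        rw [h3] at h2
        exact (Units.ext (mul_right_cancel₀ (irr_one_ne (mem_irrF.mp hχ)) h2)).symm
      have e1 : (fun θ => if HasC ω θ then δ θ else 0) χ = 0 := if_neg hg
      rw [e1, smul_zero]

end

/-- **Induction theorem for the characters nontrivial on a solvable normal subgroup.** -/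
theorem kill_normal : ∀ (m : ℕ) (G : Type) [Group G] [Finite G], Nat.card G = m →
    ∀ (Z N : Subgroup G), Z ≤ Subgroup.center G → N.Normal → Group.IsSolvable N →
    ∀ (B : Type) [AddCommGroup B] (δ : (G → ℂ) → B), KillsN Z N δ →
    ∀ χ ∈ Irr G, (∃ n ∈ N, χ n ≠ χ 1) → δ χ = 0 := by
  classical
  intro m
  induction m using Nat.strong_induction_on with
  | _ m ih =>
    intro G _ _ hm Z N hZ hN hNs B _ δ hk χ hχ hn
    obtain ⟨d, ρ, hρ, rfl⟩ := exists_rep hχ
    have : Fintype G := Fintype.ofFinite G
    let K : Subgroup G := N ⊓ MonoidHom.ker ρ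
    have hKn : K.Normal := inferInstance
    have hK : ∀ k, k ∈ K ↔ k ∈ N ∧ ρ k = 1 := fun k => Iff.rfl
    have hKs : Group.IsSolvable K :=
      Group.isSolvable_of_isSolvable_injective (f := Subgroup.inclusion (inf_le_left : K ≤ N))
        (Subgroup.inclusion_injective _)
    by_cases hK0 : K = ⊥
    · have hN0 : N ≠ ⊥ := by
        rintro rfl
        obtain ⟨n, hn1, hn2⟩ := hn
        rw [Subgroup.mem_bot] at hn1
        exact hn2 (by rw [hn1])
      obtain ⟨V, hVN, hV0, hVn, hVc⟩ := exists_ab hN hNs hN0
      obtain ⟨v₀, hv₀, hv₀1⟩ : ∃ v₀ : G, v₀ ∈ V ∧ v₀ ≠ 1 := by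
        obtain ⟨v, hv⟩ := Subgroup.ne_bot_iff_exists_ne_one.mp hV0
        exact ⟨(v : G), v.2, fun h => hv (Subtype.ext h)⟩
      have hfaith : ∀ n ∈ N, ρ n = 1 → n = 1 := by
        intro n hn1 hn2
        have h1 : n ∈ K := (hK n).mpr ⟨hn1, hn2⟩
        rw [hK0, Subgroup.mem_bot] at h1
        exact h1
      by_cases hsc : ∀ a : V, ∃ c : ℂ, ∀ v, ρ a v = c • v
      · -- central
        have hVcen : V ≤ Subgroup.center G := by
          intro v hv
          rw [Subgroup.mem_center_iff]
          intro g
          obtain ⟨c, hc⟩ := hsc ⟨v, hv⟩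
          have h1 : g * v * g⁻¹ * v⁻¹ = 1 := by
            apply hfaith
            · exact N.mul_mem (hN.conj_mem v (hVN hv) g) (N.inv_mem (hVN hv))
            · refine LinearMap.ext fun w => ?_
              have h2 : ρ v (ρ v⁻¹ w) = w := by
                rw [← Module.End.mul_apply, ← map_mul, mul_inv_cancel, map_one,
                  Module.End.one_apply]
              rw [map_mul, map_mul, map_mul, Module.End.mul_apply, Module.End.mul_apply,
                Module.End.mul_apply, Module.End.one_apply]
              have h3 : ∀ x, ρ v x = c • x := hc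
              rw [h3, map_smul, ← Module.End.mul_apply, ← map_mul, mul_inv_cancel, map_one,
                Module.End.one_apply, ← h3, h2]
          have h2 : g * v * g⁻¹ = v := by
            rw [← mul_inv_eq_one]
            exact h1
          rw [mul_inv_eq_iff_eq_mul] at h2
          exact h2
        have hZ' : Z ⊔ V ≤ Subgroup.center G := sup_le hZ hVcen
        obtain ⟨ω, hω⟩ := irr_central hχ hZ'
        have hv₀' : v₀ ∈ Z ⊔ V := Subgroup.mem_sup_right hv₀
        have hω1 : ω ⟨v₀, hv₀'⟩ ≠ 1 := by
          intro h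
          apply hv₀1
          apply hfaith v₀ (hVN hv₀)
          obtain ⟨c, hc⟩ := hsc ⟨v₀, hv₀⟩
          have hc' : ρ v₀ = c • (1 : (Fin d → ℂ) →ₗ[ℂ] (Fin d → ℂ)) := by
            refine LinearMap.ext fun w => ?_
            rw [LinearMap.smul_apply, Module.End.one_apply]
            exact hc w
          have h1 := hω 1 ⟨v₀, hv₀'⟩
          change ρ.character (1 * v₀) = _ at h1
          rw [h, Units.val_one, one_mul, one_mul] at h1
          have h2 : ρ.character v₀ = c * ρ.character 1 := by
            change LinearMap.trace ℂ _ (ρ v₀) = c * LinearMap.trace ℂ _ (ρ 1)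
            rw [hc', map_one ρ, map_smul, smul_eq_mul]
          rw [h2] at h1
          have h3 : c = 1 := by
            have h4 : (c - 1) * ρ.character 1 = 0 := by linear_combination h1
            rcases mul_eq_zero.mp h4 with h5 | h5
            · exact sub_eq_zero.mp h5
            · exact absurd h5 (irr_one_ne hχ)
          rw [hc', h3, one_smul]
        have hk' : Kills (Z ⊔ V) (∅ : Set (G → ℂ)) (fun θ => if HasC ω θ then δ θ else 0) := by
          intro H hZH hs ψ _
          rw [DD_filter hZ' ω hZH ψ]
          split_ifs with hmm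
          · refine hk H (le_sup_left.trans hZH) hs ψ ⟨⟨v₀, hZH hv₀'⟩, hVN hv₀, ?_⟩
            rw [hmm v₀ hv₀' (hZH hv₀')]
            exact hω1
          · rfl
        have h1 := avoid_empty hZ' B _ hk' ρ.character hχ (Set.notMem_empty _)
        rw [if_pos (show HasC ω ρ.character from hω)] at h1
        exact h1
      · -- Clifford
        obtain ⟨H, hHt, hHc, hVH, ψ, hψ, hψθ⟩ := cliff' hρ V (fun a b => by
          rw [← map_mul, ← map_mul, hVc _ a.2 _ b.2]) hsc
        have hlt : Nat.card H < m := by
          rw [← hm]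
          exact lt_of_le_of_ne (Subgroup.card_le_card_group H)
            (fun h => hHt (Subgroup.eq_top_of_card_eq H h))
        have hZH : Z ≤ H := hZ.trans hHc
        have hZ' : Z.subgroupOf H ≤ Subgroup.center H := by
          intro z hz
          rw [Subgroup.mem_center_iff]
          intro g
          apply Subtype.ext
          exact Subgroup.mem_center_iff.mp (hZ (Subgroup.mem_subgroupOf.mp hz)) g
        have hNs' : Group.IsSolvable (N.subgroupOf H) :=
          Group.isSolvable_of_isSolvable_injective
            (f := (⟨⟨fun x => ⟨((x : H) : G), Subgroup.mem_subgroupOf.mp x.2⟩, rfl⟩,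
              fun _ _ => rfl⟩ : N.subgroupOf H →* N))
            (fun a b h => Subtype.ext (Subtype.ext (congrArg (fun x : N => (x : G)) h)))
        have hk' : KillsN (Z.subgroupOf H) (N.subgroupOf H) (fun φ => DD δ H.subtype φ) := by
          intro L hZL hLs ψ' hψ'
          rw [DihChar.DD_DD H.subtype L.subtype (virt_lc ψ')]
          refine hk.hom (H.subtype.comp L.subtype)
            ((Subgroup.subtype_injective _).comp (Subgroup.subtype_injective _)) ?_ hLs ψ' ?_
          · intro z hz
            exact ⟨⟨⟨z, hZH hz⟩, hZL (Subgroup.mem_subgroupOf.mpr hz)⟩, rfl⟩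
          · obtain ⟨k, hk1, hk2⟩ := hψ'
            exact ⟨k, Subgroup.mem_subgroupOf.mp hk1, hk2⟩
        have hne : ∃ n ∈ N.subgroupOf H, ψ n ≠ ψ 1 := by
          by_contra hcon
          push Not at hcon
          have h1 : pr ψ (fun h : H => ρ.character h) = 1 := by
            rw [← hψθ ρ.character (fun g x => ρ.char_conj g x), pr_self hχ]
          have h2 : pr ψ (fun h : H => ρ.character h) = 0 := by
            obtain ⟨d', ρ', hρ', hρψ⟩ := exists_rep hψ
            have hVn' : (V.subgroupOf H).Normal := inferInstance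
            have : Fintype (V.subgroupOf H) := Fintype.ofFinite _
            have htriv : ∀ n ∈ V.subgroupOf H, ρ' n = 1 := by
              rcases hρ'.normal_dich (V.subgroupOf H) with h3 | h3
              · exact h3
              · exfalso
                have h4 := h3 1
                have h5 : ∀ n : V.subgroupOf H, ρ'.character (1 * n) = ψ 1 := by
                  intro n
                  rw [one_mul, ← hρψ]
                  exact hcon n (Subgroup.mem_subgroupOf.mpr
                    (hVN (Subgroup.mem_subgroupOf.mp n.2)))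
                rw [Finset.sum_congr rfl (fun n _ => h5 n), Finset.sum_const, Finset.card_univ,
                  nsmul_eq_mul] at h4
                rcases mul_eq_zero.mp h4 with h6 | h6
                · rw [← Nat.card_eq_fintype_card] at h6
                  exact card_ne h6
                · exact irr_one_ne hψ h6
            refine pr_zero_of_coset hVH (a := ψ) (b := ρ.character) ?_ ?_
            · intro n hn' x
              rw [hρψ]
              change LinearMap.trace ℂ _ (ρ' _) = LinearMap.trace ℂ _ (ρ' _)
              rw [map_mul, htriv ⟨n, hVH hn'⟩ (Subgroup.mem_subgroupOf.mpr hn'), one_mul]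
            · intro g
              have : Fintype V := Fintype.ofFinite V
              rw [finsum_eq_sum_of_fintype]
              rcases hρ.normal_dich V with h3 | h3
              · exact absurd (hfaith v₀ (hVN hv₀) (h3 v₀ hv₀)) hv₀1
              · exact h3 g
          rw [h1] at h2
          exact one_ne_zero h2
        have h1 := ih _ hlt H rfl (Z.subgroupOf H) (N.subgroupOf H) hZ' inferInstance hNs' B _ hk'
          ψ hψ hne
        rw [← DD_id (δ := δ) hχ, DD_ind (MonoidHom.id G) H.subtype hψθ]
        exact h1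
    · -- quotient
      have hlt : Nat.card (G ⧸ K) < m := by
        rw [← hm, Subgroup.card_eq_card_quotient_mul_card_subgroup K]
        have h1 : 1 < Nat.card K := by
          rw [Nat.card_eq_fintype_card]
          by_contra h2
          apply hK0
          have h3 : Nat.card K ≤ 1 := by
            rw [Nat.card_eq_fintype_card]
            omega
          exact Subgroup.eq_bot_of_card_le K h3
        have h2 : 0 < Nat.card (G ⧸ K) := Nat.card_pos
        exact lt_mul_of_one_lt_right h2 h1
      have hπs : Function.Surjective (QuotientGroup.mk' K) := QuotientGroup.mk'_surjective K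
      obtain ⟨η, hη, hη'⟩ := descend_irr hπs hρ (fun g hg => by
        rw [QuotientGroup.ker_mk'] at hg
        exact ((hK g).mp hg).2)
      have hZ' : Z.map (QuotientGroup.mk' K) ≤ Subgroup.center (G ⧸ K) := by
        rintro _ ⟨z, hz, rfl⟩
        rw [Subgroup.mem_center_iff]
        intro g
        obtain ⟨x, rfl⟩ := hπs g
        rw [← map_mul, ← map_mul, Subgroup.mem_center_iff.mp (hZ hz) x]
      have hN' : (N.map (QuotientGroup.mk' K)).Normal := hN.map _ hπs
      have hNs' : Group.IsSolvable (N.map (QuotientGroup.mk' K)) :=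
        Group.isSolvable_of_surjective (f := (QuotientGroup.mk' K).subgroupMap N)
          (MonoidHom.subgroupMap_surjective _ _)
      have h1 := ih _ hlt (G ⧸ K) rfl _ _ hZ' hN' hNs' B _ (hk.quot K hKs) η hη (by
        obtain ⟨n, hn1, hn2⟩ := hn
        refine ⟨QuotientGroup.mk' K n, ⟨n, hn1, rfl⟩, ?_⟩
        rw [← hη' n, ← map_one (QuotientGroup.mk' K), ← hη' 1]
        exact hn2)
      have h2 : (fun g => η (QuotientGroup.mk' K g)) = ρ.character := by
        funext g
        exact (hη' g).symm
      rw [h2] at h1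
      exact h1

end Pool.Agent.Q7.DC
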