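import Mathlib
import Pool.Agent.Q7.DC.Nrm
import Pool.Agent.Q7.SZ.SolR

/-!
# No new zeros in a solvable extension
-/

set_option autoImplicit false
set_option linter.unusedSectionVars false

namespace Pool.Agent.Q7.DC

open Pool.Agent.H302R2 Pool.Agent.H302R3 Pool.Agent.H541R3.ART Pool.Agent.W446.AS
  Pool.Agent.Q7.TZ Pool.Agent.Q7.SZ Pool.Agent.Q7.GR MulAction Filter Topology

section

variable {G : Type} [Group G] [Finite G]

/-- the expansion of a character nontrivial on a solvable normal subgroup -/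
theorem expand_vecN {Z N : Subgroup G} (hZ : Z ≤ Subgroup.center G) (hN : N.Normal)
    (hNs : Group.IsSolvable N) {χ₀ : G → ℂ} (hχ₀ : χ₀ ∈ Irr G) (h₀ : ∃ n ∈ N, χ₀ n ≠ χ₀ 1) :
    ∃ l : List ((Σ H : Subgroup G, (H →* ℂˣ)) × ℤ),
      (∀ t ∈ l, Z ≤ t.1.1 ∧ Group.IsSolvable t.1.1 ∧
        (∃ k : t.1.1, (k : G) ∈ N ∧ t.1.2 k ≠ 1) ∧
        ∀ (z : G) (_ : z ∈ Z) (hz' : z ∈ t.1.1), χ₀ z = ((t.1.2 ⟨z, hz'⟩ : ℂˣ) : ℂ) * χ₀ 1) ∧
      Finsupp.single χ₀ (1 : ℤ) = (l.map fun t => t.2 • wv t.1.1 t.1.2).sum := by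
  classical
  obtain ⟨ω, hω⟩ := irr_central hχ₀ hZ
  let W : Set ((G → ℂ) →₀ ℤ) := {f | ∃ (H : Subgroup G) (ψ : H →* ℂˣ), Z ≤ H ∧
    Group.IsSolvable H ∧ (∃ k : H, (k : G) ∈ N ∧ ψ k ≠ 1) ∧
    (∀ (z : G) (hz : z ∈ Z) (hz' : z ∈ H), ψ ⟨z, hz'⟩ = ω ⟨z, hz⟩) ∧ f = wv H ψ}
  let M : AddSubgroup ((G → ℂ) →₀ ℤ) := AddSubgroup.closure W
  let δ₀ : (G → ℂ) → ((G → ℂ) →₀ ℤ) ⧸ M := fun χ => QuotientAddGroup.mk' M (Finsupp.single χ 1)
  let δ : (G → ℂ) → ((G → ℂ) →₀ ℤ) ⧸ M := fun χ => if HasC ω χ then δ₀ χ else 0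
  have hkill : KillsN Z N δ := by
    intro H hZH hs ψ hψ
    have h1 := DD_filter (δ := δ₀) hZ ω hZH ψ
    change DD δ H.subtype (lc ψ) = _ at h1
    rw [h1]
    split_ifs with hm
    · have h2 : DD δ₀ H.subtype (lc ψ) = QuotientAddGroup.mk' M (wv H ψ) := by
        unfold DD wv
        rw [map_sum]
        refine Finset.sum_congr rfl fun χ _ => ?_
        rw [map_zsmul]
      rw [h2]
      exact (QuotientAddGroup.eq_zero_iff _).mpr
        (AddSubgroup.subset_closure ⟨H, ψ, hZH, hs, hψ, hm, rfl⟩)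
    · rfl
  have h1 := kill_normal _ G rfl Z N hZ hN hNs _ δ hkill χ₀ hχ₀ h₀
  have hg₀ : HasC ω χ₀ := hω
  change (if HasC ω χ₀ then δ₀ χ₀ else 0) = 0 at h1
  rw [if_pos hg₀] at h1
  have h2 : Finsupp.single χ₀ (1 : ℤ) ∈ M := (QuotientAddGroup.eq_zero_iff _).mp h1
  have key : ∀ f ∈ M, ∃ l : List ((Σ H : Subgroup G, (H →* ℂˣ)) × ℤ),
      (∀ t ∈ l, Z ≤ t.1.1 ∧ Group.IsSolvable t.1.1 ∧
        (∃ k : t.1.1, (k : G) ∈ N ∧ t.1.2 k ≠ 1) ∧
        ∀ (z : G) (_ : z ∈ Z) (hz' : z ∈ t.1.1), χ₀ z = ((t.1.2 ⟨z, hz'⟩ : ℂˣ) : ℂ) * χ₀ 1) ∧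
      f = (l.map fun t => t.2 • wv t.1.1 t.1.2).sum := by
    intro f hf
    induction hf using AddSubgroup.closure_induction with
    | mem f hf =>
      obtain ⟨H, ψ, hZH, hs, hψ, hψω, rfl⟩ := hf
      refine ⟨[(⟨H, ψ⟩, 1)], ?_, by simp⟩
      intro t ht
      rw [List.mem_singleton] at ht
      subst ht
      refine ⟨hZH, hs, hψ, ?_⟩
      intro z hz hz'
      rw [hψω z hz hz']
      have := hω 1 ⟨z, hz⟩
      rw [one_mul] at this
      exact this
    | zero => exact ⟨[], by simp, by simp⟩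
    | add f g _ _ ihf ihg =>
      obtain ⟨l₁, a1, a2⟩ := ihf
      obtain ⟨l₂, b1, b2⟩ := ihg
      refine ⟨l₁ ++ l₂, ?_, ?_⟩
      · intro t ht
        rcases List.mem_append.mp ht with h | h
        · exact a1 t h
        · exact b1 t h
      · rw [List.map_append, List.sum_append, ← a2, ← b2]
    | neg f _ ihf =>
      obtain ⟨l₁, a1, a2⟩ := ihf
      refine ⟨l₁.map fun t => (t.1, -t.2), ?_, ?_⟩
      · intro t ht
        obtain ⟨t', ht', rfl⟩ := List.mem_map.mp ht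
        exact a1 t' ht'
      · have e1 : ((l₁.map fun t => (t.1, -t.2)).map
            fun t : (Σ H : Subgroup G, (H →* ℂˣ)) × ℤ => t.2 • wv t.1.1 t.1.2) =
            (l₁.map fun t => -(t.2 • wv t.1.1 t.1.2)) := by
          rw [List.map_map]
          apply List.map_congr_left
          intro t _
          simp
        rw [e1, a2, List.sum_neg, List.map_map]
        rfl
  exact key _ h2

variable {s₀ : ℂ}

/-- the zeros and poles are in the characters trivial on `N` -/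
theorem ord_zero_of_same (A : TwistData G s₀) {N : Subgroup G} (hN : N.Normal)
    (hNs : Group.IsSolvable N)
    (hr : meromorphicOrderAt (A.Lin ⊥ 1) s₀ = meromorphicOrderAt (A.Lin N 1) s₀) {χ : G → ℂ}
    (hχ : χ ∈ Irr G) (h : ∃ n ∈ N, χ n ≠ χ 1) : A.ord χ = 0 := by
  obtain ⟨k, hk1, -⟩ := A.order_one' (⊥ : Subgroup G)
  have hs : Group.IsSolvable (⊥ : Subgroup G) := Pool.Agent.H302R3.sol_of_comm (fun a b => by
    rw [Subsingleton.elim a b])
  have h0 := A.hol ⊥ 1 hs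
  rw [hk1] at h0
  have h1 : 0 ≤ k := by exact_mod_cast h0
  obtain ⟨r, rfl⟩ := Int.eq_ofNat_of_zero_le h1
  have hr1 : meromorphicOrderAt (A.Lin ⊥ 1) s₀ = (r : WithTop ℤ) := by
    rw [hk1]
    rfl
  have h2 := (A.order_iff hr1 N hN hNs).mp (by rw [← hr, hr1])
  by_contra hcon
  obtain ⟨n, hn1, hn2⟩ := h
  exact hn2 (A.kerS_triv χ hχ hcon n (h2 hn1))

/-- characters of subgroups which are nontrivial on `N` have order zero -/
theorem lin_zero_of_same (A : TwistData G s₀) {N : Subgroup G} (hN : N.Normal)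
    (hNs : Group.IsSolvable N)
    (hr : meromorphicOrderAt (A.Lin ⊥ 1) s₀ = meromorphicOrderAt (A.Lin N 1) s₀)
    {H : Subgroup G} {ψ : H →* ℂˣ} (hψ : ∃ k : H, (k : G) ∈ N ∧ ψ k ≠ 1) :
    meromorphicOrderAt (A.Lin H ψ) s₀ = 0 := by
  classical
  rw [A.order_Lin H ψ (mt H ψ) (fun χ hχ => mt_spec _ _ hχ)]
  have h3 : ∑ χ ∈ irrF G, (mt H ψ χ : ℤ) * A.ord χ = 0 := by
    refine Finset.sum_eq_zero fun χ hχ => ?_
    have hχ' := mem_irrF.mp hχ
    by_cases h : ∃ n ∈ N, χ n ≠ χ 1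
    · rw [ord_zero_of_same A hN hNs hr hχ' h, mul_zero]
    · push Not at h
      obtain ⟨k, hk1, hk2⟩ := hψ
      have h2 : mt H ψ χ = 0 := by
        obtain ⟨d, ρ, hρ, rfl⟩ := exists_rep hχ'
        have : Fintype N := Fintype.ofFinite N
        have htriv : ∀ n ∈ N, ρ n = 1 := by
          rcases hρ.normal_dich N with h4 | h4
          · exact h4
          · exfalso
            have h5 := h4 1
            have h6 : ∀ n : N, ρ.character (1 * n) = ρ.character 1 := by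
              intro n
              rw [one_mul]
              exact h n n.2
            rw [Finset.sum_congr rfl (fun n _ => h6 n), Finset.sum_const, Finset.card_univ,
              nsmul_eq_mul] at h5
            rcases mul_eq_zero.mp h5 with h7 | h7
            · rw [← Nat.card_eq_fintype_card] at h7
              exact card_ne h7
            · exact irr_one_ne hχ' h7
        have : Fintype H := Fintype.ofFinite H
        have h4 := mt_pr H ψ hχ'
        have h5 : pr (lc ψ) (fun x : H => ρ.character x) = 0 := by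
          have h6 : ((ψ k : ℂˣ) : ℂ) * ∑ x : H, lc ψ x * ρ.character ((x⁻¹ : H) : G) =
              ∑ x : H, lc ψ x * ρ.character ((x⁻¹ : H) : G) := by
            rw [Finset.mul_sum, ← Equiv.sum_comp (Equiv.mulLeft k)
              (fun x : H => lc ψ x * ρ.character ((x⁻¹ : H) : G))]
            refine Finset.sum_congr rfl fun x _ => ?_
            rw [Equiv.coe_mulLeft]
            have e1 : lc ψ (k * x) = ((ψ k : ℂˣ) : ℂ) * lc ψ x := by
              change ((ψ (k * x) : ℂˣ) : ℂ) = _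
              rw [map_mul, Units.val_mul]
            have e2 : ρ.character (((k * x)⁻¹ : H) : G) = ρ.character ((x⁻¹ : H) : G) := by
              rw [mul_inv_rev]
              change LinearMap.trace ℂ _ (ρ ((x⁻¹ : H) * (k⁻¹ : H) : G)) =
                LinearMap.trace ℂ _ (ρ ((x⁻¹ : H) : G))
              rw [map_mul, htriv ((k⁻¹ : H) : G) (N.inv_mem hk1), mul_one]
            rw [e1, e2]
            ring
          rw [pr_eq]
          have h7 : ∑ x : H, lc ψ x * ρ.character ((x⁻¹ : H) : G) = 0 := by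
            by_contra hcon
            apply hk2
            have h8 : ((ψ k : ℂˣ) : ℂ) = 1 := by
              apply mul_right_cancel₀ hcon
              rw [h6, one_mul]
            exact Units.ext h8
          rw [h7, mul_zero]
        rw [h5] at h4
        exact_mod_cast h4.symm
      rw [h2]
      simp
  rw [h3]
  rfl

/-- **Values in a solvable extension without new zeros.** -/
theorem values_same (A : TwistData G s₀) (P : Periods A) {Z N : Subgroup G}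
    (hZ : Z ≤ Subgroup.center G) (hN : N.Normal) (hNs : Group.IsSolvable N)
    (hr : meromorphicOrderAt (A.Lin ⊥ 1) s₀ = meromorphicOrderAt (A.Lin N 1) s₀)
    (T : Set (ℂ ≃+* ℂ)) (u : (H : Subgroup G) → (H →* ℂˣ) → ℂˣ)
    (hu : ∀ σ ∈ T, ∀ H : Subgroup G, Z ≤ H → Group.IsSolvable H → ∀ ψ : H →* ℂˣ,
      (∃ k : H, (k : G) ∈ N ∧ ψ k ≠ 1) → Agree σ s₀ (A.Lin H ψ) (P.perLin H ψ * (u H ψ : ℂ))
        (A.Lin H (galL σ ψ)) (P.perLin H (galL σ ψ) * (u H ψ : ℂ))) :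
    ∀ χ ∈ Irr G, (∃ n ∈ N, χ n ≠ χ 1) → ∃ v ∈ Subgroup.closure {x : ℂˣ | ∃ (H : Subgroup G)
      (ψ : H →* ℂˣ), Z ≤ H ∧ Group.IsSolvable H ∧ (∃ k : H, (k : G) ∈ N ∧ ψ k ≠ 1) ∧
        (∀ (z : G) (_ : z ∈ Z) (hz' : z ∈ H), χ z = ((ψ ⟨z, hz'⟩ : ℂˣ) : ℂ) * χ 1) ∧
        x = u H ψ}, ∀ σ ∈ T, Agree σ s₀ (A.L χ) (P.per χ * (v : ℂ)) (A.L fun g => σ (χ g))
          (P.per (fun g => σ (χ g)) * (v : ℂ)) := by
  classical
  intro χ hχ hn
  obtain ⟨l, h1, h2⟩ := expand_vecN hZ hN hNs hχ hn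
  refine ⟨(l.map fun t => u t.1.1 t.1.2 ^ t.2).prod, ?_, fun σ hσ => ?_⟩
  · refine Subgroup.list_prod_mem _ ?_
    intro x hx
    obtain ⟨t, ht, rfl⟩ := List.mem_map.mp hx
    obtain ⟨i1, i2, i3, i4⟩ := h1 t ht
    refine Subgroup.zpow_mem _ (Subgroup.subset_closure ?_) _
    exact ⟨t.1.1, t.1.2, i1, i2, i3, i4, rfl⟩
  · refine agree_of_expand A P σ hχ h2 (fun t ht => lin_zero_of_same A hN hNs hr (h1 t ht).2.2.1)
      (fun t => u t.1.1 t.1.2) ?_
    intro t ht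
    obtain ⟨i1, i2, i3, i4⟩ := h1 t ht
    exact hu σ hσ t.1.1 i1 i2 t.1.2 i3

end

end Pool.Agent.Q7.DC
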