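import Mathlib
import Pool.Agent.Q7.DC.Prs

/-!
# Central values of the characters with given real central character
-/

set_option autoImplicit false
set_option linter.unusedSectionVars false

namespace Pool.Agent.Q7.DC

open Pool.Agent.H302R2 Pool.Agent.H302R3 Pool.Agent.H541R3.ART Pool.Agent.W446.AS
  Pool.Agent.Q7.TZ Pool.Agent.Q7.SZ Pool.Agent.Q7.GR MulAction Filter Topology

section

variable {G : Type} [Group G] [Finite G] {s₀ : ℂ} {Z : Subgroup G}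

/-- `ψ` is equal to `ω` on `Z` -/
def Match (ω : Z →* ℂˣ) {H : Subgroup G} (ψ : H →* ℂˣ) : Prop :=
  ∀ (z : G) (hz : z ∈ Z) (hz' : z ∈ H), ψ ⟨z, hz'⟩ = ω ⟨z, hz⟩

lemma part_order_match (A : TwistData G s₀) (hZ : Z ≤ Subgroup.center G) (ω : Z →* ℂˣ)
    {H : Subgroup G} (hZH : Z ≤ H) {ψ : H →* ℂˣ} (hm : Match ω ψ) :
    meromorphicOrderAt ((part A hZ ω).Lin H ψ) s₀ = meromorphicOrderAt (A.Lin H ψ) s₀ := by
  classical
  rw [(part A hZ ω).order_Lin H ψ (mt H ψ) (fun χ hχ => mt_spec _ _ hχ),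
    A.order_Lin H ψ (mt H ψ) (fun χ hχ => mt_spec _ _ hχ)]
  congr 1
  refine Finset.sum_congr rfl fun χ hχ => ?_
  have hχ' := mem_irrF.mp hχ
  rw [part_ord A hZ ω hχ']
  by_cases h : HasC ω χ
  · rw [if_pos h]
  · rw [if_neg h, mul_zero]
    have h2 : mt H ψ χ = 0 := by
      by_contra hcon
      apply h
      intro g z
      have h3 : pr (lc ψ) (fun k : H => χ k) ≠ 0 := by
        rw [mt_pr _ _ hχ']
        exact_mod_cast hcon
      rw [central_match hZ hχ' ψ h3 z.2 (hZH z.2) g, hm z z.2 (hZH z.2)]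
    rw [h2]
    simp

lemma part_order_nomatch (A : TwistData G s₀) (hZ : Z ≤ Subgroup.center G) (ω : Z →* ℂˣ)
    {H : Subgroup G} {ψ : H →* ℂˣ} (hm : ¬ Match ω ψ) :
    meromorphicOrderAt ((part A hZ ω).Lin H ψ) s₀ = 0 := by
  classical
  rw [(part A hZ ω).order_Lin H ψ (mt H ψ) (fun χ hχ => mt_spec _ _ hχ)]
  have h3 : ∑ χ ∈ irrF G, (mt H ψ χ : ℤ) * (part A hZ ω).ord χ = 0 := by
    refine Finset.sum_eq_zero fun χ hχ => ?_
    rw [part_ord A hZ ω (mem_irrF.mp hχ)]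
    by_cases h : HasC ω χ
    · rw [mt_zero hZ ω H ψ hm (mem_irrF.mp hχ) h]
      simp
    · rw [if_neg h, mul_zero]
  rw [h3]
  rfl

lemma gal_real {ω : Z →* ℂˣ} (hω : ω ^ 2 = 1) (σ : ℂ ≃+* ℂ) (z : Z) :
    σ ((ω z : ℂˣ) : ℂ) = ((ω z : ℂˣ) : ℂ) := by
  have h1 : ((ω z : ℂˣ) : ℂ) ^ 2 = 1 := by
    have h4 : ω z ^ 2 = 1 := congrArg (fun f : Z →* ℂˣ => f z) hω
    rw [← Units.val_pow_eq_pow_val, h4, Units.val_one]
  rw [pow_two] at h1
  rcases mul_self_eq_one_iff.mp h1 with h2 | h2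
  all_goals rw [h2]; simp

lemma match_gal {ω : Z →* ℂˣ} (hω : ω ^ 2 = 1) (σ : ℂ ≃+* ℂ) {H : Subgroup G} (ψ : H →* ℂˣ) :
    Match ω (galL σ ψ) ↔ Match ω ψ := by
  constructor
  · intro h z hz hz'
    have h1 := h z hz hz'
    ext
    apply σ.injective
    rw [gal_real hω, ← h1, galL_val]
  · intro h z hz hz'
    ext
    rw [galL_val, h z hz hz', gal_real hω]

lemma hasC_gal {ω : Z →* ℂˣ} (hω : ω ^ 2 = 1) (σ : ℂ ≃+* ℂ) {χ : G → ℂ} (h : HasC ω χ) :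
    HasC ω (fun g => σ (χ g)) := by
  intro g z
  change σ (χ (g * z)) = _ * σ (χ g)
  rw [h, map_mul, gal_real hω]

end

section

variable {G : Type} [Group G] [Finite G] {Z : Subgroup G}

theorem omega_nonneg (A : TwistData G 1) (F : FunEq A) (hZ : Z ≤ Subgroup.center G)
    {ω : Z →* ℂˣ} (hω : ω ^ 2 = 1) {r : ℕ} (hr2 : r ≤ 2)
    (hr : meromorphicOrderAt (A.Lin Z ω) 1 = (r : WithTop ℤ)) {χ : G → ℂ} (hχ : χ ∈ Irr G)
    (h : HasC ω χ) : 0 ≤ A.ord χ := by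
  classical
  have h1 := (avoid_central (part A hZ ω) (partFun F hZ hω) hr2
    (by rw [part_bot A hZ ω, hr]) hZ).1 χ hχ
  rw [part_ord A hZ ω hχ, if_pos h] at h1
  exact h1

theorem omega_expand (A : TwistData G 1) (F : FunEq A) (hZ : Z ≤ Subgroup.center G)
    {ω : Z →* ℂˣ} (hω : ω ^ 2 = 1) {r : ℕ} (hr2 : r ≤ 2)
    (hr : meromorphicOrderAt (A.Lin Z ω) 1 = (r : WithTop ℤ)) {χ : G → ℂ} (hχ : χ ∈ Irr G)
    (h : HasC ω χ) (h0 : A.ord χ = 0) : ∃ l : List ((Σ H : Subgroup G, (H →* ℂˣ)) × ℤ),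
      (∀ t ∈ l, Z ≤ t.1.1 ∧ Group.IsSolvable t.1.1 ∧ Match ω t.1.2 ∧
        meromorphicOrderAt (A.Lin t.1.1 t.1.2) 1 = 0) ∧
      Finsupp.single χ (1 : ℤ) = (l.map fun t => t.2 • wv t.1.1 t.1.2).sum := by
  classical
  obtain ⟨l, h1, h2⟩ := expand_central (part A hZ ω) (partFun F hZ hω) hZ hr2
    (by rw [part_bot A hZ ω, hr]) hχ (by rw [part_ord A hZ ω hχ, if_pos h, h0])
  refine ⟨l, fun t ht => ?_, h2⟩
  obtain ⟨i1, i2, i3, i4⟩ := h1 t ht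
  have hm : Match ω t.1.2 := by
    intro z hz hz'
    have h3 := i4 z hz hz'
    have h4 := (hasC_iff hZ ω hχ).mp h ⟨z, hz⟩
    change χ z = _ at h4
    rw [h4] at h3
    exact (Units.ext (mul_right_cancel₀ (irr_one_ne hχ) h3)).symm
  rw [part_order_match A hZ ω i1 hm] at i3
  exact ⟨i1, i2, hm, i3⟩

theorem omega_values (A : TwistData G 1) (F : FunEq A) (P : Periods A)
    (hZ : Z ≤ Subgroup.center G) {ω : Z →* ℂˣ} (hω : ω ^ 2 = 1) {r : ℕ} (hr2 : r ≤ 2)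
    (hr : meromorphicOrderAt (A.Lin Z ω) 1 = (r : WithTop ℤ)) (u : Subgroup G → ℂˣ)
    (hu : ∀ (σ : ℂ ≃+* ℂ) (H : Subgroup G), Z ≤ H → Group.IsSolvable H → ∀ ψ : H →* ℂˣ,
      Match ω ψ → Agree σ 1 (A.Lin H ψ) (P.perLin H ψ * (u H : ℂ))
        (A.Lin H (galL σ ψ)) (P.perLin H (galL σ ψ) * (u H : ℂ))) :
    ∀ χ ∈ Irr G, HasC ω χ → ∃ v ∈ Subgroup.closure {x : ℂˣ | ∃ H : Subgroup G, Z ≤ H ∧
      Group.IsSolvable H ∧ x = u H}, ∀ σ : ℂ ≃+* ℂ,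
        Agree σ 1 (A.L χ) (P.per χ * (v : ℂ)) (A.L fun g => σ (χ g))
          (P.per (fun g => σ (χ g)) * (v : ℂ)) := by
  classical
  intro χ hχ hC
  have hnn := omega_nonneg A F hZ hω hr2 hr hχ hC
  have hr' : meromorphicOrderAt ((part A hZ ω).Lin ⊥ 1) 1 = (r : WithTop ℤ) := by
    rw [part_bot A hZ ω, hr]
  have hord : ∀ σ : ℂ ≃+* ℂ, A.ord (fun g => σ (χ g)) = A.ord χ := by
    intro σ
    have h1 := ord_gal (theta_gal2 (part A hZ ω) hZ hr2 hr' σ fun H hZH hs ψ => ?_) hχ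
    · rw [part_ord A hZ ω hχ, if_pos hC, part_ord A hZ ω (irr_gal σ hχ),
        if_pos (hasC_gal hω σ hC)] at h1
      exact h1
    · by_cases hm : Match ω ψ
      · rw [part_order_match A hZ ω hZH hm,
          part_order_match A hZ ω hZH ((match_gal hω σ ψ).mpr hm)]
        exact (hu σ H hZH hs ψ hm).zero_iff (mul_ne_zero (perLin_ne A P H ψ) (Units.ne_zero _))
          (mul_ne_zero (perLin_ne A P H (galL σ ψ)) (Units.ne_zero _)) (lin_mero A H ψ)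
          (lin_mero A H (galL σ ψ))
      · rw [part_order_nomatch A hZ ω hm,
          part_order_nomatch A hZ ω (fun h => hm ((match_gal hω σ ψ).mp h))]
  by_cases h0 : A.ord χ = 0
  · obtain ⟨l, h1, h2⟩ := omega_expand A F hZ hω hr2 hr hχ hC h0
    refine ⟨(l.map fun t => u t.1.1 ^ t.2).prod, ?_, fun σ => ?_⟩
    · refine Subgroup.list_prod_mem _ ?_
      intro x hx
      obtain ⟨t, ht, rfl⟩ := List.mem_map.mp hx
      obtain ⟨i1, i2, i3, i4⟩ := h1 t ht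
      have hx : u t.1.1 ∈ {x : ℂˣ | ∃ H : Subgroup G, Z ≤ H ∧
          Group.IsSolvable H ∧ x = u H} := ⟨t.1.1, i1, i2, rfl⟩
      exact Subgroup.zpow_mem _ (Subgroup.subset_closure hx) _
    · refine agree_of_expand A P σ hχ h2 (fun t ht => (h1 t ht).2.2.2) (fun t => u t.1.1) ?_
      intro t ht
      obtain ⟨i1, i2, i3, i4⟩ := h1 t ht
      exact hu σ t.1.1 i1 i2 t.1.2 i3
  · refine ⟨1, one_mem _, fun σ => ?_⟩
    have i1 := irr_gal σ hχ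
    have i2 : A.ord (fun g => σ (χ g)) ≠ 0 := by rw [hord]; exact h0
    have i3 : 0 < A.ord (fun g => σ (χ g)) := by
      rw [hord]
      exact lt_of_le_of_ne hnn (Ne.symm h0)
    refine ⟨0, 0, tendsto_pos A hχ (lt_of_le_of_ne hnn (Ne.symm h0)), tendsto_pos A i1 i3, ?_⟩
    rw [zero_div, zero_div, map_zero]

end

end Pool.Agent.Q7.DC
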