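import Mathlib
import Pool.Agent.Q7.DC.Nrs

/-!
# Avoiding characters of a quotient which is a `p`-group
-/

set_option autoImplicit false
set_option linter.unusedSectionVars false

namespace Pool.Agent.Q7.DC

open Pool.Agent.H302R2 Pool.Agent.H302R3 Pool.Agent.H541R3.ART Pool.Agent.W446.AS
  Pool.Agent.Q7.TZ Pool.Agent.Q7.SZ Pool.Agent.Q7.GR MulAction

section

variable {G : Type} [Group G] [Finite G]

/-- averages of functions on a quotient over a supplement -/
lemma pr_quot {Y : Type} [Group Y] [Finite Y] {K L : Type} [Group K] [Finite K] [Group L]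
    [Finite L] (f : K →* Y) (hf : Function.Surjective f) (g : L →* Y)
    (hg : Function.Surjective g) (a b : Y → ℂ) :
    pr (fun k => a (f k)) (fun k => b (f k)) = pr (fun l => a (g l)) (fun l => b (g l)) := by
  rw [pr_surj f hf, pr_surj g hg]

/-- a `p`-subgroup times anything covers a `p`-quotient -/
lemma sylow_surj {Y : Type} [Group Y] [Finite Y] {p : ℕ} [hp : Fact p.Prime] (hY : IsPGroup p Y)
    {L : Type} [Group L] [Finite L] (f : L →* Y) (hf : Function.Surjective f) (P : Sylow p L)
    (y : Y) : ∃ x ∈ P, f x = y := by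
  classical
  obtain ⟨l, rfl⟩ := hf y
  -- index argument
  let Q : Subgroup Y := (P : Subgroup L).map f
  have hQ : Q = ⊤ := by
    rw [← Subgroup.index_eq_one]
    have h1 : Q.index ∣ (P : Subgroup L).index := Subgroup.index_map_dvd _ hf
    have h2 : ¬ p ∣ (P : Subgroup L).index := P.not_dvd_index
    obtain ⟨k, hk⟩ := (IsPGroup.iff_card.mp hY)
    have h3 : Q.index ∣ p ^ k := by
      rw [← hk]
      exact Subgroup.index_dvd_card Q
    obtain ⟨j, -, hj⟩ := (Nat.dvd_prime_pow hp.out).mp h3
    rcases Nat.eq_zero_or_pos j with h4 | h4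
    · rw [hj, h4, pow_zero]
    · exfalso
      apply h2
      refine dvd_trans ?_ h1
      rw [hj]
      exact dvd_pow_self p h4.ne'
  have h1 : f l ∈ Q := by rw [hQ]; exact Subgroup.mem_top _
  obtain ⟨x, hx, hxl⟩ := h1
  exact ⟨x, hx, hxl⟩

variable {B : Type} [AddCommGroup B] {δ : (G → ℂ) → B}

/-- good characters: nontrivial on the kernel of the quotient -/
lemma pr_nontriv {Y : Type} [Group Y] [Finite Y] {L : Type} [Group L] [Finite L] (f : L →* Y)
    (hf : Function.Surjective f) {φ : L → ℂ} (hφ : φ ∈ Irr L)
    (h : ¬ ∃ η ∈ Irr Y, φ = fun l => η (f l)) (b : Y → ℂ) :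
    pr φ (fun l => b (f l)) = 0 := by
  classical
  obtain ⟨d, ρ, hρ, rfl⟩ := exists_rep hφ
  have : Fintype f.ker := Fintype.ofFinite _
  have : Fintype L := Fintype.ofFinite _
  rcases hρ.normal_dich f.ker with h2 | h2
  · exfalso
    apply h
    obtain ⟨η, hη, hη'⟩ := descend_irr hf hρ h2
    exact ⟨η, hη, funext hη'⟩
  · have hρ' : ρ.character ∈ Irr L := hφ
    have h3 : pr (fun l => b (f l)) ρ.character = 0 := by
      have h4 := pr_zero_of_coset (G := L) (H := (⊤ : Subgroup L)) (K := f.ker) le_top
        (a := fun l : (⊤ : Subgroup L) => b (f l)) (b := ρ.character) (by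
          intro n hn x
          have : f ((⟨n, Subgroup.mem_top n⟩ * x : (⊤ : Subgroup L)) : L) = f x := by
            rw [Subgroup.coe_mul, map_mul, MonoidHom.mem_ker.mp hn, one_mul]
          simp only [this]) (fun g => by
          rw [finsum_eq_sum_of_fintype]
          exact h2 g)
      rw [← h4]
      exact (pr_equiv (Subgroup.topEquiv (G := L)) (fun l => b (f l)) ρ.character).symm
    rw [pr_comm]
    exact h3

end

section

variable {G : Type} [Group G] [Finite G] {B : Type} [AddCommGroup B] {δ : (G → ℂ) → B}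
  {Y : Type} [Group Y] [Finite Y]

/-- Avoidance of a set of characters of a quotient `Y` which is a `p`-group. -/
theorem avoid_pp {Z : Subgroup G} (hZ : Z ≤ Subgroup.center G) {p : ℕ} [hp : Fact p.Prime]
    (hY : IsPGroup p Y) (π : G →* Y) (hπ : Function.Surjective π) (S : Set (G → ℂ))
    (hS : ∀ χ ∈ S, ∃ η ∈ Irr Y, χ = fun g => η (π g)) : Avoid Z S := by
  classical
  have hZn : Z.Normal := ⟨fun z hz g => by
    rw [Subgroup.mem_center_iff.mp (hZ hz) g, mul_inv_cancel_right]
    exact hz⟩
  intro B _ δ hk
  have hSI : S ⊆ Irr G := by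
    intro χ hχ
    obtain ⟨η, hη, rfl⟩ := hS χ hχ
    exact infl_irr hπ hη
  obtain ⟨P⟩ : Nonempty (Sylow p G) := inferInstance
  let W : Subgroup G := (P : Subgroup G) ⊔ Z
  have hW : AN W := an_sup_p hZ (P : Subgroup G) P.isPGroup'
  have hZW : Z ≤ W := le_sup_right
  have hZWr : Z ≤ W.subtype.range := by
    rw [Subgroup.range_subtype]
    exact hZW
  let πW : W →* Y := π.comp W.subtype
  have hπW : Function.Surjective πW := by
    intro y
    obtain ⟨x, hx, hxy⟩ := sylow_surj hY π hπ P y
    exact ⟨⟨x, Subgroup.mem_sup_left hx⟩, hxy⟩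
  let c : (Y → ℂ) → B := fun η => DD δ W.subtype (fun w => η (πW w))
  -- (A)
  have hA : ∀ η ∈ Irr Y, (fun g => η (π g)) ∉ S → c η = 0 := by
    intro η hη hηS
    refine hk.star hZ hSI W.subtype (Subgroup.subtype_injective W) hZWr hW (infl_irr hπW hη) ?_
    intro ζ hζ
    obtain ⟨η', hη', rfl⟩ := hS ζ hζ
    have h1 : pr (fun w : W => η (πW w)) (fun w : W => η' (π (W.subtype w))) = pr η η' :=
      pr_surj πW hπW η η'
    rw [h1]
    refine pr_ne hη hη' ?_
    rintro rfl
    exact hηS hζ
  -- (B)
  have hB : ∀ L : Subgroup G, Z ≤ L → AN L → ∀ φ ∈ Irr L, DD δ L.subtype φ =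
      ∑ η ∈ irrF Y, fl (pr φ (fun l : L => η (π l))) • c η := by
    intro L hZL hAN φ hφ
    have hZLr : Z ≤ L.subtype.range := by
      rw [Subgroup.range_subtype]
      exact hZL
    let YL : Subgroup Y := L.map π
    let πL : L →* YL := π.subgroupMap L
    have hπL : Function.Surjective πL := MonoidHom.subgroupMap_surjective _ _
    have hπLv : ∀ l : L, ((πL l : YL) : Y) = π l := fun l => rfl
    have hYL : IsPGroup p YL := hY.to_subgroup YL
    by_cases htr : ∃ τ ∈ Irr YL, φ = fun l => τ (πL l)
    · obtain ⟨τ, hτ, rfl⟩ := htr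
      obtain ⟨PL⟩ : Nonempty (Sylow p L) := inferInstance
      -- the subgroup U of L
      let U : Subgroup L := (PL : Subgroup L) ⊔ Z.subgroupOf L
      have hUs : ∀ y : YL, ∃ x : U, πL x = y := by
        intro y
        obtain ⟨x, hx, hxy⟩ := sylow_surj hYL πL hπL PL y
        exact ⟨⟨x, Subgroup.mem_sup_left hx⟩, hxy⟩
      let πU : U →* YL := πL.comp U.subtype
      have hπU : Function.Surjective πU := hUs
      -- (R3)
      have hR3 : DD δ (L.subtype.comp U.subtype) (fun u : U => τ (πL u)) =
          DD δ L.subtype (fun l => τ (πL l)) := by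
        have hvU : Virt (fun u : U => τ (πL u)) := (virt_irr hτ).comp πU
        rw [← DD_up (δ := δ) L.subtype U.subtype (ψ := fun u : U => τ (πL u)),
          DD_expand L.subtype (virt_up U.subtype hvU)]
        rw [Finset.sum_eq_single (fun l => τ (πL l))]
        · have h1 : fl (pr (up U.subtype fun u : U => τ (πL u)) (fun l => τ (πL l))) = 1 := by
            apply fl_eq
            rw [pr_up U.subtype (virt_irr (infl_irr hπL hτ))]
            have h2 : pr (fun u : U => τ (πU u)) (fun u : U => τ (πU u)) = pr τ τ :=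
              pr_surj πU hπU τ τ
            change pr (fun u : U => τ (πU u)) (fun u : U => τ (πU u)) = _
            rw [h2, pr_self hτ]
            norm_num
          rw [h1, one_smul]
        · intro θ hθ hne
          have hθ' := mem_irrF.mp hθ
          by_cases hθt : ∃ τ' ∈ Irr YL, θ = fun l => τ' (πL l)
          · obtain ⟨τ', hτ', rfl⟩ := hθt
            have h1 : fl (pr (up U.subtype fun u : U => τ (πL u)) (fun l => τ' (πL l))) = 0 := by
              apply fl_eq
              rw [pr_up U.subtype (virt_irr (infl_irr hπL hτ'))]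
              have h2 : pr (fun u : U => τ (πU u)) (fun u : U => τ' (πU u)) = pr τ τ' :=
                pr_surj πU hπU τ τ'
              change pr (fun u : U => τ (πU u)) (fun u : U => τ' (πU u)) = _
              rw [h2, pr_ne hτ hτ' (by rintro rfl; exact hne rfl)]
              norm_num
            rw [h1, zero_smul]
          · have h1 : DD δ L.subtype θ = 0 := by
              refine hk.star hZ hSI L.subtype (Subgroup.subtype_injective L) hZLr hAN hθ' ?_
              intro ζ hζ
              obtain ⟨η', hη', rfl⟩ := hS ζ hζ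
              exact pr_nontriv πL hπL hθ' hθt (fun y : YL => η' y)
            rw [h1, smul_zero]
        · intro h
          exact absurd (mem_irrF.mpr (infl_irr hπL hτ)) h
      rw [← hR3]
      -- (R4): conjugation into W
      have hPG : IsPGroup p ((PL : Subgroup L).map L.subtype) := PL.isPGroup'.map L.subtype
      obtain ⟨Q, hQ⟩ := hPG.exists_le_sylow
      obtain ⟨g, hg⟩ := MulAction.exists_smul_eq G Q P
      have hconj : ∀ u : U, g * ((u : L) : G) * g⁻¹ ∈ W := by
        rintro ⟨u, hu⟩
        obtain ⟨x, hx, z, hz, rfl⟩ := Subgroup.mem_sup_of_normal_right.mp hu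
        have hxQ : (x : G) ∈ Q := hQ ⟨x, hx, rfl⟩
        have h1 : g * (x : G) * g⁻¹ ∈ P := by
          rw [← hg]
          exact Subgroup.smul_mem_pointwise_smul (x : G) (MulAut.conj g) (Q : Subgroup G) hxQ
        have h2 : (z : G) ∈ Z := Subgroup.mem_subgroupOf.mp hz
        have h3 : g * ((x * z : L) : G) * g⁻¹ = (g * (x : G) * g⁻¹) * z := by
          have h4 := Subgroup.mem_center_iff.mp (hZ h2) g⁻¹
          calc g * ((x * z : L) : G) * g⁻¹ = g * (x : G) * ((z : G) * g⁻¹) := by
                rw [Subgroup.coe_mul]; group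
            _ = g * (x : G) * (g⁻¹ * (z : G)) := by rw [← h4]
            _ = _ := by group
        change g * ((x * z : L) : G) * g⁻¹ ∈ W
        rw [h3]
        exact Subgroup.mul_mem_sup h1 h2
      let κ : U →* W :=
        { toFun := fun u => ⟨g * ((u : L) : G) * g⁻¹, hconj u⟩
          map_one' := Subtype.ext (by simp)
          map_mul' := fun a b => Subtype.ext (by
            change g * ((a : G) * (b : G)) * g⁻¹ = (g * (a : G) * g⁻¹) * (g * (b : G) * g⁻¹)
            group) }
      have e1 : (MulAut.conj g).toMonoidHom.comp (L.subtype.comp U.subtype) =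
          W.subtype.comp κ := by
        ext u
        rfl
      have hvU : Virt (fun u : U => τ (πL u)) := (virt_irr hτ).comp πU
      rw [← DD_conj (L.subtype.comp U.subtype) g, e1, ← DD_up (δ := δ) W.subtype κ,
        DD_expand W.subtype (virt_up κ hvU)]
      -- only the inflated characters of W matter
      let j : (Y → ℂ) → (W → ℂ) := fun η w => η (πW w)
      have hj : Function.Injective j := by
        intro a b hab
        funext x
        obtain ⟨w, rfl⟩ := hπW x
        exact congrFun hab w
      have hsub : (irrF Y).image j ⊆ irrF W := by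
        intro χ hχ
        obtain ⟨η, hη, rfl⟩ := Finset.mem_image.mp hχ
        exact mem_irrF.mpr (infl_irr hπW (mem_irrF.mp hη))
      rw [← Finset.sum_subset hsub, Finset.sum_image (fun a _ b _ hab => hj hab)]
      · refine Finset.sum_congr rfl fun η hη => ?_
        have hη' := mem_irrF.mp hη
        congr 1
        congr 1
        rw [pr_up κ (virt_irr (infl_irr hπW hη'))]
        have h1 : (fun u : U => η (πW (κ u))) = fun u : U => η (πU u : YL) := by
          funext u
          change η (π (g * ((u : L) : G) * g⁻¹)) = η (π ((u : L) : G))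
          rw [map_mul, map_mul, map_inv]
          exact Irr.conj hη' _ _
        have h2 : (fun u : U => j η (κ u)) = fun u : U => η (πU u : YL) := h1
        rw [h2]
        have h3 : pr (fun u : U => τ (πU u)) (fun u : U => η (πU u : YL)) =
            pr τ (fun y : YL => η y) := pr_surj πU hπU τ (fun y : YL => η y)
        have h4 : pr (fun l : L => τ (πL l)) (fun l : L => η (πL l : YL)) =
            pr τ (fun y : YL => η y) := pr_surj πL hπL τ (fun y : YL => η y)
        change pr (fun u : U => τ (πU u)) (fun u : U => η (πU u : YL)) =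
          pr (fun l : L => τ (πL l)) (fun l : L => η (πL l : YL))
        rw [h3, h4]
      · intro θ hθ hn
        have hθ' := mem_irrF.mp hθ
        have h1 : DD δ W.subtype θ = 0 := by
          refine hk.star hZ hSI W.subtype (Subgroup.subtype_injective W) hZWr hW hθ' ?_
          intro ζ hζ
          obtain ⟨η', hη', rfl⟩ := hS ζ hζ
          refine pr_nontriv πW hπW hθ' ?_ η'
          rintro ⟨η, hη, rfl⟩
          exact hn (Finset.mem_image.mpr ⟨η, mem_irrF.mpr hη, rfl⟩)
        rw [h1, smul_zero]
    · -- nontrivial on the kernel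
      have h1 : DD δ L.subtype φ = 0 := by
        refine hk.star hZ hSI L.subtype (Subgroup.subtype_injective L) hZLr hAN hφ ?_
        intro ζ hζ
        obtain ⟨η', hη', rfl⟩ := hS ζ hζ
        exact pr_nontriv πL hπL hφ htr (fun y : YL => η' y)
      rw [h1]
      symm
      refine Finset.sum_eq_zero fun η _ => ?_
      have h2 : pr φ (fun l : L => η (π l)) = 0 :=
        pr_nontriv πL hπL hφ htr (fun y : YL => η y)
      have h3 : fl (pr φ (fun l : L => η (π l))) = 0 := by
        apply fl_eq
        rw [h2]
        norm_num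
      rw [h3, zero_smul]
  -- (C)
  let δ' : (G → ℂ) → B := fun χ => ∑ η ∈ irrF Y, fl (pr χ (fun g => η (π g))) • c η
  have hinf : ∀ η ∈ irrF Y, Virt (fun g => η (π g)) := fun η hη =>
    (virt_irr (mem_irrF.mp hη)).comp π
  have hDD' : ∀ (L : Subgroup G) (y : L → ℂ), Virt y → DD δ' L.subtype y =
      ∑ η ∈ irrF Y, fl (pr y (fun l : L => η (π l))) • c η := by
    intro L y hy
    have h1 : DD δ' L.subtype y = ∑ η ∈ irrF Y,
        DD (fun χ => fl (pr χ (fun g => η (π g))) • c η) L.subtype y := by
      unfold DD
      simp only [δ', Finset.smul_sum]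
      rw [Finset.sum_comm]
    rw [h1]
    refine Finset.sum_congr rfl fun η hη => ?_
    exact DD_lin L.subtype (hinf η hη) (c η) hy
  have hzero : ∀ χ ∈ Irr G, (fun χ => δ χ - δ' χ) χ = 0 := by
    refine solomon hZ ?_
    intro L hZL hAN x hx
    have hx' : Virt (fun l : L => x l) := hx.comp L.subtype
    rw [DD_sub_left, hDD' L _ hx', DD_expand L.subtype hx', sub_eq_zero]
    have h1 : ∀ φ ∈ irrF L, fl (pr (fun l : L => x l) φ) • DD δ L.subtype φ =
        ∑ η ∈ irrF Y, (fl (pr (fun l : L => x l) φ) * fl (pr φ (fun l : L => η (π l)))) • c η := by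
      intro φ hφ
      rw [hB L hZL hAN φ (mem_irrF.mp hφ), Finset.smul_sum]
      refine Finset.sum_congr rfl fun η _ => ?_
      rw [smul_smul]
    rw [Finset.sum_congr rfl h1, Finset.sum_comm]
    refine Finset.sum_congr rfl fun η hη => ?_
    rw [← Finset.sum_smul]
    congr 1
    symm
    apply fl_eq
    rw [pr_expand hx']
    push_cast
    refine Finset.sum_congr rfl fun φ hφ => ?_
    have h5 : (fl (pr φ (fun l : L => η (π l))) : ℂ) = pr φ (fun l : L => η (π l)) :=
      fl_coe (virt_irr (mem_irrF.mp hφ)) ((hinf η hη).comp L.subtype)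
    rw [fl_coe hx' (virt_irr (mem_irrF.mp hφ)), h5]
  intro χ hχ hχS
  have h1 := hzero χ hχ
  simp only at h1
  rw [sub_eq_zero] at h1
  rw [h1]
  refine Finset.sum_eq_zero fun η hη => ?_
  have hη' := mem_irrF.mp hη
  by_cases he : χ = fun g => η (π g)
  · rw [hA η hη' (by rw [← he]; exact hχS), smul_zero]
  · have h2 : fl (pr χ (fun g => η (π g))) = 0 := by
      apply fl_eq
      rw [pr_ne hχ (infl_irr hπ hη') he]
      norm_num
    rw [h2, zero_smul]

end

end Pool.Agent.Q7.DC
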