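import Mathlib
import Pool.Agent.Q7.DC.Ppg
import Pool.Agent.Q7.GR.Const

/-!
# No new zeros: the case of a `p`-extension at the bottom
-/

set_option autoImplicit false
set_option linter.unusedSectionVars false

namespace Pool.Agent.Q7.DC

open Pool.Agent.H302R2 Pool.Agent.H302R3 Pool.Agent.H541R3.ART Pool.Agent.W446.AS
  Pool.Agent.Q7.TZ Pool.Agent.Q7.SZ Pool.Agent.Q7.GR MulAction Filter Topology

section

variable {G : Type} [Group G] [Finite G] {s₀ : ℂ}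

lemma pr_gal (σ : ℂ ≃+* ℂ) (a b : G → ℂ) :
    σ (pr a b) = pr (fun g => σ (a g)) (fun g => σ (b g)) := by
  classical
  have : Fintype G := Fintype.ofFinite G
  rw [pr_eq, pr_eq, map_mul, map_inv₀, map_natCast, map_sum]
  simp only [map_mul]

/-- the function of the orders is constant on the cosets of `N` -/
theorem theta_coset (A : TwistData G s₀) {N : Subgroup G} (hN : N.Normal) {p : ℕ}
    (hp : p.Prime) (hG : IsPGroup p (G ⧸ N))
    (hr : meromorphicOrderAt (A.Lin ⊥ 1) s₀ = meromorphicOrderAt (A.Lin N 1) s₀) (x : G) {n : G}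
    (hn : n ∈ N) : (theta A.ord : G → ℂ) (x * n) = (theta A.ord : G → ℂ) x := by
  obtain ⟨k, hk1, -⟩ := A.order_one' (⊥ : Subgroup G)
  have hs : Group.IsSolvable (⊥ : Subgroup G) := Pool.Agent.H302R3.sol_of_comm (fun a b => by
    rw [Subsingleton.elim a b])
  have h0 := A.hol ⊥ 1 hs
  rw [hk1] at h0
  have h1 : 0 ≤ k := by exact_mod_cast h0
  obtain ⟨r, rfl⟩ := Int.eq_ofNat_of_zero_le h1
  have hr1 : meromorphicOrderAt (A.Lin ⊥ 1) s₀ = (r : WithTop ℤ) := by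
    rw [hk1]
    rfl
  obtain ⟨j, hj1, hj2⟩ := A.order_one' N
  have hj : j = (r : ℤ) := by
    rw [← hr, hr1] at hj1
    have h2 : ((r : ℤ) : WithTop ℤ) = (j : WithTop ℤ) := hj1
    exact (WithTop.coe_injective h2).symm
  have h3 := const_of_sum A.isSol (A.theta_one hr1) N (by rw [hj2, hj]; push_cast; rfl)
  refine const_pp (N := N) ?_ A.isSol h3 x hn
  intro g
  obtain ⟨k, hk⟩ := hG (g : G ⧸ N)
  refine ⟨p, k, hp, ?_⟩
  rw [← QuotientGroup.mk_pow] at hk
  exact (QuotientGroup.eq_one_iff _).mp hk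

/-- the zeros and poles are in the characters of the quotient -/
theorem supp_coset (A : TwistData G s₀) {N : Subgroup G} (hN : N.Normal) {p : ℕ}
    (hp : p.Prime) (hG : IsPGroup p (G ⧸ N))
    (hr : meromorphicOrderAt (A.Lin ⊥ 1) s₀ = meromorphicOrderAt (A.Lin N 1) s₀) {χ : G → ℂ}
    (hχ : χ ∈ Irr G) (h : A.ord χ ≠ 0) :
    ∃ η ∈ Irr (G ⧸ N), χ = fun g => η (QuotientGroup.mk' N g) := by
  classical
  by_contra hcon
  apply h
  have hπ : Function.Surjective (QuotientGroup.mk' N) := QuotientGroup.mk'_surjective N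
  have h1 := pr_nontriv (QuotientGroup.mk' N) hπ hχ hcon
    (fun y => (theta A.ord : G → ℂ) (Quotient.out y))
  have h2 : (fun l : G => (theta A.ord : G → ℂ) (Quotient.out (QuotientGroup.mk' N l))) =
      (theta A.ord : G → ℂ) := by
    funext g
    obtain ⟨n, hn⟩ := QuotientGroup.mk_out_eq_mul N g
    change (theta A.ord : G → ℂ) (Quotient.out (g : G ⧸ N)) = _
    rw [hn]
    exact theta_coset A hN hp hG hr g n.2
  rw [h2] at h1
  rw [pr_comm, pr_theta A.ord hχ] at h1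
  exact_mod_cast h1

/-- the orders of the characters of the quotient are orders of linear characters of solvable
groups -/
theorem exists_lin_pp (A : TwistData G s₀) {Z N : Subgroup G} (hZ : Z ≤ Subgroup.center G)
    (hN : N.Normal) {p : ℕ} (hp : p.Prime) (hG : IsPGroup p (G ⧸ N))
    (hr : meromorphicOrderAt (A.Lin ⊥ 1) s₀ = meromorphicOrderAt (A.Lin N 1) s₀) {η : G ⧸ N → ℂ}
    (hη : η ∈ Irr (G ⧸ N)) :
    ∃ (H : Subgroup G) (ψ : H →* ℂˣ), Z ≤ H ∧ Group.IsSolvable H ∧ ∀ σ : ℂ ≃+* ℂ,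
      meromorphicOrderAt (A.Lin H (galL σ ψ)) s₀ =
        ((A.ord (fun g => σ (η (QuotientGroup.mk' N g))) : ℤ) : WithTop ℤ) := by
  classical
  have : Fact p.Prime := ⟨hp⟩
  have hπ : Function.Surjective (QuotientGroup.mk' N) := QuotientGroup.mk'_surjective N
  obtain ⟨P⟩ : Nonempty (Sylow p G) := inferInstance
  let W : Subgroup G := (P : Subgroup G) ⊔ Z
  have hW : AN W := an_sup_p hZ (P : Subgroup G) P.isPGroup'
  have hZW : Z ≤ W := le_sup_right
  let πW : W →* G ⧸ N := (QuotientGroup.mk' N).comp W.subtype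
  have hπW : Function.Surjective πW := by
    intro y
    obtain ⟨x, hx, hxy⟩ := sylow_surj hG (QuotientGroup.mk' N) hπ P y
    exact ⟨⟨x, Subgroup.mem_sup_left hx⟩, hxy⟩
  obtain ⟨K, i1, i2, κ, ψ, hκ, hκc, hκθ⟩ := mono _ W rfl hW _ (infl_irr hπW hη)
  let ι : K →* G := W.subtype.comp κ
  have hι : Function.Injective ι := (Subgroup.subtype_injective W).comp hκ
  let e : K ≃* ι.range := MonoidHom.ofInjective hι
  have he : ∀ k, ((e k : ι.range) : G) = ι k := fun k => rfl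
  let ψ' : ι.range →* ℂˣ := ψ.comp e.symm.toMonoidHom
  have hψ' : ∀ k, ψ' (e k) = ψ k := by
    intro k
    change ψ (e.symm (e k)) = _
    rw [e.symm_apply_apply]
  refine ⟨ι.range, ψ', ?_, ?_, ?_⟩
  · intro z hz
    have h1 : (⟨z, hZW hz⟩ : W) ∈ Subgroup.center W := by
      rw [Subgroup.mem_center_iff]
      intro g
      apply Subtype.ext
      exact Subgroup.mem_center_iff.mp (hZ hz) g
    obtain ⟨k, hk⟩ := hκc h1
    exact ⟨k, by
      change ((κ k : W) : G) = z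
      rw [hk]⟩
  · have h1 : Group.IsSolvable K := (AN.inj κ hκ hW).solvable
    exact Group.isSolvable_of_surjective (f := e.toMonoidHom) e.surjective
  · intro σ
    -- the function of the orders
    let t : G ⧸ N → ℂ := fun y => (theta A.ord : G → ℂ) (Quotient.out y)
    have ht : ∀ g : G, t (QuotientGroup.mk' N g) = (theta A.ord : G → ℂ) g := by
      intro g
      obtain ⟨n, hn⟩ := QuotientGroup.mk_out_eq_mul N g
      change (theta A.ord : G → ℂ) (Quotient.out (g : G ⧸ N)) = _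
      rw [hn]
      exact theta_coset A hN hp hG hr g n.2
    have hση : (fun y => σ (η y)) ∈ Irr (G ⧸ N) := irr_gal σ hη
    -- the multiplicity
    obtain ⟨k, hk1, hk2⟩ := A.order_mult ι.range (galL σ ψ')
    have h1 : pr (lc (galL σ ψ')) (fun x : ι.range => (theta A.ord : G → ℂ) x) = (k : ℂ) := by
      have : Fintype ι.range := Fintype.ofFinite _
      rw [pr_comm, pr_eq]
      rw [finsum_eq_sum_of_fintype] at hk2
      have e1 : ∑ h : ι.range, (theta A.ord : G → ℂ) h * lc (galL σ ψ') h⁻¹ =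
          ∑ h : ι.range, (theta A.ord : G → ℂ) h * (((galL σ ψ' h)⁻¹ : ℂˣ) : ℂ) := by
        refine Finset.sum_congr rfl fun h _ => ?_
        change _ * ((galL σ ψ' h⁻¹ : ℂˣ) : ℂ) = _
        rw [map_inv]
      rw [e1, hk2, mul_comm, mul_assoc, mul_inv_cancel₀ card_ne, mul_one]
    have h2 : pr (lc (galL σ ψ')) (fun x : ι.range => (theta A.ord : G → ℂ) x) =
        pr (fun x : K => σ (lc ψ x)) (fun x : K => (theta A.ord : G → ℂ) (ι x)) := by
      rw [← pr_equiv e]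
      congr 1
      funext x
      change ((galL σ ψ' (e x) : ℂˣ) : ℂ) = _
      rw [galL_val, hψ']
    have h3 : pr (fun x : K => σ (lc ψ x)) (fun x : K => (theta A.ord : G → ℂ) (ι x)) =
        pr (fun w : W => σ (η (πW w))) (fun w : W => (theta A.ord : G → ℂ) w) := by
      have h4 := hκθ (fun w : W => σ.symm ((theta A.ord : G → ℂ) w)) (fun g x => by
        congr 1
        exact A.isSol.conj _ _)
      have h5 := congrArg σ h4
      rw [pr_gal, pr_gal] at h5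
      simp only [σ.apply_symm_apply] at h5
      exact h5.symm
    have h4 : pr (fun w : W => σ (η (πW w))) (fun w : W => (theta A.ord : G → ℂ) w) =
        pr (fun y => σ (η y)) t := by
      have h5 := pr_surj πW hπW (fun y => σ (η y)) t
      rw [← h5]
      congr 1
      funext w
      exact (ht w).symm
    have h5 : pr (fun y => σ (η y)) t =
        (A.ord (fun g => σ (η (QuotientGroup.mk' N g))) : ℂ) := by
      rw [← pr_surj (QuotientGroup.mk' N) hπ (fun y => σ (η y)) t]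
      have h6 : (fun k => t (QuotientGroup.mk' N k)) = (theta A.ord : G → ℂ) := funext ht
      rw [h6, pr_comm]
      exact pr_theta A.ord (infl_irr hπ hση)
    rw [h1, h3, h4, h5] at h2
    rw [hk1]
    have h6 : k = A.ord (fun g => σ (η (QuotientGroup.mk' N g))) := by exact_mod_cast h2
    rw [h6]

theorem nonneg_pp (A : TwistData G s₀) {N : Subgroup G} (hN : N.Normal) {p : ℕ} (hp : p.Prime)
    (hG : IsPGroup p (G ⧸ N))
    (hr : meromorphicOrderAt (A.Lin ⊥ 1) s₀ = meromorphicOrderAt (A.Lin N 1) s₀) {χ : G → ℂ}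
    (hχ : χ ∈ Irr G) : 0 ≤ A.ord χ := by
  by_cases h : A.ord χ = 0
  · rw [h]
  · obtain ⟨η, hη, rfl⟩ := supp_coset A hN hp hG hr hχ h
    obtain ⟨H, ψ, -, hs, h1⟩ := exists_lin_pp A (Z := ⊥) bot_le hN hp hG hr hη
    have h2 := h1 (RingEquiv.refl ℂ)
    have h3 := A.hol H (galL (RingEquiv.refl ℂ) ψ) hs
    rw [h2] at h3
    exact_mod_cast h3

/-- characters of subgroups orthogonal to the zeros have order zero -/
theorem lin_zero_of_orth (A : TwistData G s₀) {H : Subgroup G} {ψ : H →* ℂˣ}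
    (hψ : ∀ ζ ∈ supp A, pr (lc ψ) (fun h : H => ζ h) = 0) :
    meromorphicOrderAt (A.Lin H ψ) s₀ = 0 := by
  classical
  rw [A.order_Lin H ψ (mt H ψ) (fun χ hχ => mt_spec _ _ hχ)]
  have h3 : ∑ χ ∈ irrF G, (mt H ψ χ : ℤ) * A.ord χ = 0 := by
    refine Finset.sum_eq_zero fun χ hχ => ?_
    by_cases h : A.ord χ = 0
    · rw [h, mul_zero]
    · have h4 := hψ χ ⟨mem_irrF.mp hχ, h⟩
      rw [mt_pr H ψ (mem_irrF.mp hχ)] at h4
      have h5 : mt H ψ χ = 0 := by exact_mod_cast h4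
      rw [h5]
      simp
  rw [h3]
  rfl

/-- the expansions -/
theorem expand_pp (A : TwistData G s₀) {Z N : Subgroup G} (hZ : Z ≤ Subgroup.center G)
    (hN : N.Normal) {p : ℕ} (hp : p.Prime) (hG : IsPGroup p (G ⧸ N))
    (hr : meromorphicOrderAt (A.Lin ⊥ 1) s₀ = meromorphicOrderAt (A.Lin N 1) s₀) {χ : G → ℂ}
    (hχ : χ ∈ Irr G) (h0 : A.ord χ = 0) : ∃ l : List ((Σ H : Subgroup G, (H →* ℂˣ)) × ℤ),
      (∀ t ∈ l, Z ≤ t.1.1 ∧ Group.IsSolvable t.1.1 ∧
        (∀ z ∈ Z, ∀ hz' : z ∈ t.1.1, χ z = ((t.1.2 ⟨z, hz'⟩ : ℂˣ) : ℂ) * χ 1) ∧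
        meromorphicOrderAt (A.Lin t.1.1 t.1.2) s₀ = 0) ∧
      Finsupp.single χ (1 : ℤ) = (l.map fun t => t.2 • wv t.1.1 t.1.2).sum := by
  have : Fact p.Prime := ⟨hp⟩
  have hav : Avoid Z (supp A) := avoid_pp hZ hG (QuotientGroup.mk' N)
    (QuotientGroup.mk'_surjective N) (supp A) (fun χ hχ => supp_coset A hN hp hG hr hχ.1 hχ.2)
  obtain ⟨l, h1, h2⟩ := expand_vec hZ hav hχ (fun hcon => hcon.2 h0)
  refine ⟨l, fun t ht => ?_, h2⟩
  obtain ⟨i1, i2, i3, i4⟩ := h1 t ht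
  exact ⟨i1, i2, i4, lin_zero_of_orth A i3⟩

/-- **Values, if no new zeros arise in an extension of a `p`-extension.** -/
theorem values_pp (A : TwistData G s₀) (P : Periods A) {Z N : Subgroup G}
    (hZ : Z ≤ Subgroup.center G) (hN : N.Normal) {p : ℕ} (hp : p.Prime) (hG : IsPGroup p (G ⧸ N))
    (hr : meromorphicOrderAt (A.Lin ⊥ 1) s₀ = meromorphicOrderAt (A.Lin N 1) s₀)
    (T : Set (ℂ ≃+* ℂ)) (u : (H : Subgroup G) → (H →* ℂˣ) → ℂˣ)
    (hu : ∀ σ ∈ T, ∀ H : Subgroup G, Z ≤ H → Group.IsSolvable H → ∀ ψ : H →* ℂˣ,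
      Agree σ s₀ (A.Lin H ψ) (P.perLin H ψ * (u H ψ : ℂ))
        (A.Lin H (galL σ ψ)) (P.perLin H (galL σ ψ) * (u H ψ : ℂ))) :
    ∀ χ ∈ Irr G, ∃ v ∈ Subgroup.closure {x : ℂˣ | ∃ (H : Subgroup G)
      (ψ : H →* ℂˣ), Z ≤ H ∧ Group.IsSolvable H ∧
        (∀ z ∈ Z, ∀ hz' : z ∈ H, χ z = ((ψ ⟨z, hz'⟩ : ℂˣ) : ℂ) * χ 1) ∧
        x = u H ψ}, ∀ σ ∈ T, Agree σ s₀ (A.L χ) (P.per χ * (v : ℂ)) (A.L fun g => σ (χ g))
          (P.per (fun g => σ (χ g)) * (v : ℂ)) := by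
  classical
  intro χ hχ
  by_cases h0 : A.ord χ = 0
  · obtain ⟨l, h1, h2⟩ := expand_pp A hZ hN hp hG hr hχ h0
    refine ⟨(l.map fun t => u t.1.1 t.1.2 ^ t.2).prod, ?_, fun σ hσ => ?_⟩
    · refine Subgroup.list_prod_mem _ ?_
      intro x hx
      obtain ⟨t, ht, rfl⟩ := List.mem_map.mp hx
      obtain ⟨i1, i2, i3, i4⟩ := h1 t ht
      refine Subgroup.zpow_mem _ (Subgroup.subset_closure ?_) _
      exact ⟨t.1.1, t.1.2, i1, i2, i3, rfl⟩
    · refine agree_of_expand A P σ hχ h2 (fun t ht => (h1 t ht).2.2.2)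
        (fun t => u t.1.1 t.1.2) ?_
      intro t ht
      obtain ⟨i1, i2, i3, i4⟩ := h1 t ht
      exact hu σ hσ t.1.1 i1 i2 t.1.2
  · refine ⟨1, one_mem _, fun σ hσ => ?_⟩
    obtain ⟨η, hη, rfl⟩ := supp_coset A hN hp hG hr hχ h0
    obtain ⟨H, ψ, hZH, hs, h1⟩ := exists_lin_pp A hZ hN hp hG hr hη
    have h2 := h1 (RingEquiv.refl ℂ)
    rw [galL_refl] at h2
    have h3 := h1 σ
    have h4 := (hu σ hσ H hZH hs ψ).zero_iff (mul_ne_zero (perLin_ne A P H ψ) (Units.ne_zero _))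
      (mul_ne_zero (perLin_ne A P H (galL σ ψ)) (Units.ne_zero _)) (lin_mero A H ψ)
      (lin_mero A H (galL σ ψ))
    have i1 := irr_gal σ hχ
    have i2 : A.ord (fun g => σ (η (QuotientGroup.mk' N g))) ≠ 0 := by
      intro h5
      rw [h5] at h3
      have h6 := h4.mpr h3
      rw [h2] at h6
      apply h0
      have h7 : A.ord (fun g => (RingEquiv.refl ℂ) (η (QuotientGroup.mk' N g))) = 0 := by
        exact_mod_cast h6
      exact h7
    have i3 := nonneg_pp A hN hp hG hr i1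
    have i4 := nonneg_pp A hN hp hG hr hχ
    refine ⟨0, 0, tendsto_pos A hχ (lt_of_le_of_ne i4 (Ne.symm h0)),
      tendsto_pos A i1 (lt_of_le_of_ne i3 (Ne.symm i2)), ?_⟩
    rw [zero_div, zero_div, map_zero]

/-- from irreducible characters to linear characters of all subgroups -/
theorem agree_lin_v (A : TwistData G s₀) (P : Periods A) (σ : ℂ ≃+* ℂ) (v : (G → ℂ) → ℂˣ)
    (h : ∀ χ ∈ Irr G, Agree σ s₀ (A.L χ) (P.per χ * (v χ : ℂ)) (A.L fun g => σ (χ g))
      (P.per (fun g => σ (χ g)) * (v χ : ℂ))) (H : Subgroup G) (ψ : H →* ℂˣ) :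
    Agree σ s₀ (A.Lin H ψ) (P.perLin H ψ * ((∏ χ ∈ irrF G, v χ ^ mt H ψ χ : ℂˣ) : ℂ))
      (A.Lin H (galL σ ψ))
      (P.perLin H (galL σ ψ) * ((∏ χ ∈ irrF G, v χ ^ mt H ψ χ : ℂˣ) : ℂ)) := by
  classical
  choose! w w' hw hw' hww using h
  have hm := fun χ (hχ : χ ∈ Irr G) => mt_spec H ψ hχ
  let m' : (G → ℂ) → ℕ := fun χ => mt H ψ (fun g => σ.symm (χ g))
  have hm' : ∀ χ ∈ Irr G, ∑ᶠ h : H, χ h * (((galL σ ψ h)⁻¹ : ℂˣ) : ℂ) =
      (m' χ : ℂ) * (Nat.card H : ℂ) := by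
    intro χ hχ
    have h1 := mult_conj σ H ψ (hm _ (irr_gal σ.symm hχ))
    have h2 : (fun g => σ ((fun g => σ.symm (χ g)) g)) = χ := by
      funext g
      exact σ.apply_symm_apply _
    rw [h2] at h1
    exact h1
  have hm'σ : ∀ χ : G → ℂ, m' (fun g => σ (χ g)) = mt H ψ χ := by
    intro χ
    change mt H ψ (fun g => σ.symm (σ (χ g))) = mt H ψ χ
    congr 1
    funext g
    exact σ.symm_apply_apply _
  have t1 : Tendsto (A.Lin H ψ) (𝓝[≠] s₀) (𝓝 (∏ χ ∈ irrF G, w χ ^ mt H ψ χ)) := by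
    refine Tendsto.congr' (A.induce H ψ (mt H ψ) hm).symm ?_
    have h1 : (fun s => ∏ᶠ χ ∈ Irr G, A.L χ s ^ mt H ψ χ) =
        fun s => ∏ χ ∈ irrF G, A.L χ s ^ mt H ψ χ := by
      funext s
      rw [finprod_mem_eq_finite_toFinset_prod _ (irr_finite (G := G))]
      rfl
    rw [h1]
    exact tendsto_finsetProd _ fun χ hχ => (hw χ (mem_irrF.mp hχ)).pow _
  have t2 : Tendsto (A.Lin H (galL σ ψ)) (𝓝[≠] s₀) (𝓝 (∏ χ ∈ irrF G, w' χ ^ mt H ψ χ)) := by
    refine Tendsto.congr' (A.induce H (galL σ ψ) m' hm').symm ?_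
    have h1 : (fun s => ∏ᶠ χ ∈ Irr G, A.L χ s ^ m' χ) =
        fun s => ∏ χ ∈ irrF G, A.L (fun g => σ (χ g)) s ^ mt H ψ χ := by
      funext s
      rw [finprod_mem_eq_finite_toFinset_prod _ (irr_finite (G := G))]
      change ∏ χ ∈ irrF G, A.L χ s ^ m' χ = _
      rw [← prod_gal σ (fun χ => A.L χ s ^ m' χ)]
      refine Finset.prod_congr rfl fun χ _ => ?_
      rw [hm'σ]
    rw [h1]
    exact tendsto_finsetProd _ fun χ hχ => (hw' χ (mem_irrF.mp hχ)).pow _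
  refine ⟨_, _, t1, t2, ?_⟩
  rw [P.induce H ψ (mt H ψ) hm, P.induce H (galL σ ψ) m' hm',
    finprod_mem_eq_finite_toFinset_prod _ (irr_finite (G := G)),
    finprod_mem_eq_finite_toFinset_prod _ (irr_finite (G := G)), Units.coe_prod]
  change σ ((∏ χ ∈ irrF G, w χ ^ mt H ψ χ) / ((∏ χ ∈ irrF G, P.per χ ^ mt H ψ χ) * _)) =
    (∏ χ ∈ irrF G, w' χ ^ mt H ψ χ) / ((∏ χ ∈ irrF G, P.per χ ^ m' χ) * _)
  rw [← prod_gal σ (fun χ => P.per χ ^ m' χ), ← Finset.prod_mul_distrib,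
    ← Finset.prod_mul_distrib, ← Finset.prod_div_distrib, ← Finset.prod_div_distrib, map_prod]
  refine Finset.prod_congr rfl fun χ hχ => ?_
  rw [hm'σ, Units.val_pow_eq_pow_val, ← mul_pow, ← mul_pow, ← div_pow, ← div_pow, map_pow,
    hww χ (mem_irrF.mp hχ)]

end

end Pool.Agent.Q7.DC
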